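import Pool.Agent.Lib.MP_e5111b_co.Pc.Defs

set_option autoImplicit false

namespace Pool.Agent.Lib.MP_e5111b_co.Pc

open Filter MvPolynomial Finset

namespace Ctx

variable (c : Ctx) {σ τ : Type}

theorem den_u (s : Finset c.F) :
    ∃ b : c.Bd, c.pi b ≠ 0 ∧ ∀ z ∈ s, ∃ a : c.Bd, c.pi a = c.pi b * z := by
  classical
  induction s using Finset.induction_on with
  | empty => exact ⟨1, by simp, by simp⟩
  | insert w s _ ih =>
    obtain ⟨b, hb, h⟩ := ih
    obtain ⟨a', b', hb', h'⟩ := c.pi_surj w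
    refine ⟨b * b', by rw [map_mul]; exact mul_ne_zero hb hb', fun z hz => ?_⟩
    rcases mem_insert.1 hz with rfl | hz
    · exact ⟨b * a', by rw [map_mul, map_mul, ← h', mul_assoc]⟩
    · obtain ⟨a, ha⟩ := h z hz
      exact ⟨a * b', by rw [map_mul, map_mul, ha]; ring⟩

/-- clearing denominators, one common denominator for a finite family -/
theorem clear {κ : Type} [Finite κ] (G : κ → MvPolynomial τ c.F) :
    ∃ (b : c.Bd) (g : κ → MvPolynomial τ c.Bd), c.pi b ≠ 0 ∧
      ∀ l, map c.pi (g l) = C (c.pi b) * G l ∧ (g l).support = (G l).support := by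
  classical
  have := Fintype.ofFinite κ
  obtain ⟨b, hb, h⟩ := c.den_u (univ.biUnion fun l => (G l).support.image fun m => coeff m (G l))
  have h' : ∀ l, ∀ m ∈ (G l).support, ∃ a : c.Bd, c.pi a = c.pi b * coeff m (G l) :=
    fun l m hm => h _ (mem_biUnion.2 ⟨l, mem_univ _, mem_image_of_mem _ hm⟩)
  choose! a ha using h'
  have e : ∀ l m, coeff m (∑ n ∈ (G l).support, monomial n (a l n)) =
      if m ∈ (G l).support then a l m else 0 := fun l m => by
    rw [coeff_sum]
    simp only [coeff_monomial]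
    exact sum_ite_eq' _ _ _
  refine ⟨b, fun l => ∑ n ∈ (G l).support, monomial n (a l n), hb, fun l => ⟨?_, ?_⟩⟩
  · ext m
    rw [coeff_map, e, coeff_C_mul]
    split_ifs with hm
    · exact ha l m hm
    · rw [map_zero, notMem_support_iff.1 hm, mul_zero]
  · ext m
    rw [mem_support_iff, e]
    split_ifs with hm
    · refine iff_of_true (fun h0 => ?_) hm
      have := ha l m hm
      rw [h0, map_zero] at this
      exact mul_ne_zero hb (mem_support_iff.1 hm) this.symm
    · exact iff_of_false (fun h0 => h0 rfl) hm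

theorem map_pi_eq_zero {g : MvPolynomial τ c.Bd} :
    map c.pi g = 0 ↔ ∀ᶠ k in (c.U : Filter ℕ), map (c.ev k) g = 0 := by
  refine ⟨fun h => ?_, fun h => ?_⟩
  · have : ∀ᶠ k in (c.U : Filter ℕ), ∀ m ∈ g.support, c.ev k (coeff m g) = 0 :=
      (eventually_all_finset _).2 fun m _ => c.pi_eq_zero.1 (by rw [← coeff_map, h, coeff_zero])
    filter_upwards [this] with k hk
    ext m
    rw [coeff_map, coeff_zero]
    by_cases hm : m ∈ g.support
    · exact hk m hm
    · rw [notMem_support_iff.1 hm, map_zero]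
  · ext m
    rw [coeff_map, coeff_zero, pi_eq_zero]
    filter_upwards [h] with k hk
    rw [← coeff_map, hk, coeff_zero]

theorem ev_u {R S : Type} [CommRing R] [CommRing S] (φ : R →+* S) (ξ : σ → R)
    (g : MvPolynomial σ R) : eval (fun i => φ (ξ i)) (map φ g) = φ (eval ξ g) :=
  (map_eval φ ξ g).symm

theorem van_u {T : ℕ → Finset (σ → ℤ)} (g : MvPolynomial σ c.Bd)
    (h : ∀ᶠ k in (c.U : Filter ℕ), ∀ P ∈ T k, eval P (map (c.ev k) g) = 0) :
    c.Van T (map c.pi g) := by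
  rintro _ ⟨ξ, hξ, rfl⟩
  rw [ev_u, pi_eq_zero]
  filter_upwards [h, hξ] with k a b
  rw [← ev_u]
  exact a _ b

/-- Los -/
theorem van_iff {T : ℕ → Finset (σ → ℤ)} (hT : c.Box T) (g : MvPolynomial σ c.Bd) :
    c.Van T (map c.pi g) ↔ ∀ᶠ k in (c.U : Filter ℕ), ∀ P ∈ T k, eval P (map (c.ev k) g) = 0 := by
  classical
  refine ⟨fun h => ?_, c.van_u g⟩
  by_contra hn
  have h1 := Ultrafilter.eventually_not.2 hn
  have h2 : ∀ k, (¬ ∀ P ∈ T k, eval P (map (c.ev k) g) = 0) →
      ∃ P, P ∈ T k ∧ eval P (map (c.ev k) g) ≠ 0 := fun k hk => by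
    push Not at hk
    exact hk
  choose! P hP using h2
  let ξ : σ → c.Bd := fun i => ⟨fun k => if P k ∈ T k then P k i else 0, 1, fun k => by
    by_cases h : P k ∈ T k
    · have := hT k _ h i
      simp only [if_pos h, pow_one]
      omega
    · simp only [if_neg h, pow_one, abs_zero]
      omega⟩
  have hξ : ∀ k, P k ∈ T k → (fun i => c.ev k (ξ i)) = P k := fun k hk =>
    funext fun i => if_pos hk
  have := h _ ⟨ξ, h1.mono fun k hk => by rw [hξ k (hP k hk).1]; exact (hP k hk).1, rfl⟩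
  rw [ev_u, pi_eq_zero] at this
  obtain ⟨k, a, b⟩ := (h1.and this).exists
  rw [← ev_u, hξ k (hP k a).1] at b
  exact (hP k a).2 b

/-- values on the box have polynomial size -/
theorem bound (g : MvPolynomial σ c.Bd) : ∃ C : ℕ, ∀ k, ∀ P : σ → ℤ, (∀ i, |P i| ≤ c.N k) →
    |eval P (map (c.ev k) g)| ≤ ((c.N k : ℤ) + 2) ^ C := by
  induction g using MvPolynomial.induction_on with
  | C a =>
    obtain ⟨D, hD⟩ := a.2
    refine ⟨D, fun k P _ => ?_⟩
    rw [map_C, eval_C]
    exact hD k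
  | add p q hp hq =>
    obtain ⟨A, hA⟩ := hp
    obtain ⟨B, hB⟩ := hq
    refine ⟨A + B + 1, fun k P hP => ?_⟩
    have h1 : (1 : ℤ) ≤ (c.N k : ℤ) + 2 := by omega
    have h2 := pow_le_pow_right₀ h1 (Nat.le_add_right A B)
    have h3 := pow_le_pow_right₀ h1 (Nat.le_add_left B A)
    have h4 : (0 : ℤ) ≤ ((c.N k : ℤ) + 2) ^ (A + B) := by positivity
    have h5 : (0 : ℤ) ≤ c.N k := by positivity
    have := abs_add_le (eval P (map (c.ev k) p)) (eval P (map (c.ev k) q))
    rw [map_add, map_add, pow_succ]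
    nlinarith [hA k P hP, hB k P hP]
  | mul_X p i hp =>
    obtain ⟨A, hA⟩ := hp
    refine ⟨A + 1, fun k P hP => ?_⟩
    rw [map_mul, map_mul, map_X, eval_X, abs_mul, pow_succ]
    exact mul_le_mul (hA k P hP) ((hP i).trans (by omega)) (abs_nonneg _) (by positivity)

/-- divisibility over `F` gives an inclusion of real zero sets at almost every level -/
theorem zero_sub {g h : MvPolynomial τ c.Bd} (hd : map c.pi g ∣ map c.pi h) :
    ∀ᶠ k in (c.U : Filter ℕ), ∀ z : τ → ℝ,
      aeval z (map (c.ev k) g) = 0 → aeval z (map (c.ev k) h) = 0 := by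
  obtain ⟨q, hq⟩ := hd
  obtain ⟨b, q', hb, h'⟩ := c.clear fun _ : Unit => q
  have h0 : MvPolynomial.map c.pi (C b * h - g * q' ()) = 0 := by
    rw [map_sub, map_mul, map_mul, map_C, hq, (h' ()).1]
    ring
  filter_upwards [c.map_pi_eq_zero.1 h0, Ultrafilter.eventually_not.2 (mt c.pi_eq_zero.2 hb)]
    with k a b0 z hz
  have := congrArg (aeval z) a
  rw [map_sub, map_mul, map_mul, map_C, map_sub, map_mul, map_mul, aeval_C, hz, zero_mul, sub_zero,
    map_zero] at this
  exact (mul_eq_zero.1 this).resolve_left (by simpa using b0)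

variable {Ω : Type} [Field Ω] [Algebra c.F Ω] {T : ℕ → Finset (σ → ℤ)} {x : σ → Ω}

theorem Gen.nonempty (hx : c.Gen T x) : ∀ᶠ k in (c.U : Filter ℕ), (T k).Nonempty := by
  have h : ¬ c.Van T 1 := fun h => by simpa using (hx 1).2 h
  by_contra hn
  exact h fun z ⟨ξ, hξ, _⟩ => absurd (hξ.mono fun k hk => ⟨_, hk⟩) hn

theorem int_u (x : σ → Ω) (g : MvPolynomial σ ℤ) :
    aeval x (map c.pi (map (Int.castRingHom c.Bd) g)) = aeval x g ∧
      ∀ k, map (c.ev k) (map (Int.castRingHom c.Bd) g) = g := by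
  refine ⟨?_, fun k => ?_⟩
  · rw [MvPolynomial.map_map, Subsingleton.elim (c.pi.comp (Int.castRingHom c.Bd)) (algebraMap ℤ c.F),
      aeval_map_algebraMap]
  · rw [MvPolynomial.map_map, Subsingleton.elim ((c.ev k).comp (Int.castRingHom c.Bd)) (RingHom.id ℤ),
      MvPolynomial.map_id]

theorem Gen.zero (hx : c.Gen T x) (g : MvPolynomial σ ℤ) (h : ∀ k, ∀ P ∈ T k, eval P g = 0) :
    aeval x g = 0 := by
  rw [← (c.int_u x g).1, hx]
  refine c.van_u _ (Eventually.of_forall fun k => ?_)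
  rw [(c.int_u x g).2]
  exact h k

theorem Gen.ne_zero (hT : c.Box T) (hx : c.Gen T x) (g : MvPolynomial σ ℤ)
    (h : ∀ k, ∀ P ∈ T k, eval P g ≠ 0) : aeval x g ≠ 0 := by
  intro h0
  rw [← (c.int_u x g).1, hx, c.van_iff hT] at h0
  obtain ⟨k, ⟨P, hP⟩, hk⟩ := ((Gen.nonempty c hx).and h0).exists
  rw [(c.int_u x g).2] at hk
  exact h k P hP (hk P hP)

end Ctx

end Pool.Agent.Lib.MP_e5111b_co.Pc
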