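import Pool.Agent.Lib.MP_e5111b_co.Pc.Defs

set_option autoImplicit false

namespace Pool.Agent.Lib.MP_e5111b_co.Pc

open Filter MvPolynomial Finset

variable {F Ω : Type} [Field F] [Field Ω] [Algebra F Ω] {σ : Type}

theorem rk_closure {s : Set Ω} {a : Ω} :
    a ∈ (AlgebraicIndependent.matroid F Ω).closure s ↔ IsAlgebraic (Algebra.adjoin F s) a := by
  rw [AlgebraicIndependent.matroid_closure_eq, SetLike.mem_coe,
    Subalgebra.mem_algebraicClosure]

theorem rk_mem {s : Set Ω} {a : Ω} (h : a ∈ Algebra.adjoin F s) :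
    IsAlgebraic (Algebra.adjoin F s) a :=
  isAlgebraic_algebraMap (⟨a, h⟩ : Algebra.adjoin F s)

theorem rk_trans {s t : Set Ω} {a : Ω} (h : IsAlgebraic (Algebra.adjoin F s) a)
    (hs : ∀ b ∈ s, IsAlgebraic (Algebra.adjoin F t) b) : IsAlgebraic (Algebra.adjoin F t) a :=
  h.adjoin_of_forall_isAlgebraic fun b hb => hs b hb.1

theorem card_le_of_alg {ι κ : Type} [Fintype ι] [Fintype κ] {u : ι → Ω} {v : κ → Ω}
    (hu : AlgebraicIndependent F u)
    (ha : ∀ i, IsAlgebraic (Algebra.adjoin F (Set.range v)) (u i)) :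
    Fintype.card ι ≤ Fintype.card κ := by
  have h1 : (AlgebraicIndependent.matroid F Ω).Indep (Set.range u) := hu.to_subtype_range
  have h2 : Set.range u ⊆ (AlgebraicIndependent.matroid F Ω).closure (Set.range v) := by
    rintro _ ⟨i, rfl⟩
    exact rk_closure.2 (ha i)
  have h3 := h1.encard_le_eRk_of_subset h2
  rw [Matroid.eRk_closure_eq] at h3
  have h4 := h3.trans (Matroid.eRk_le_encard _ _)
  have h5 : (Set.range u).encard = Fintype.card ι := by
    rw [← Set.image_univ, hu.injective.encard_image, Set.encard_univ, ENat.card_eq_coe_fintype_card]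
  have h6 : (Set.range v).encard ≤ Fintype.card κ := by
    rw [← Set.image_univ]
    refine (Set.encard_image_le _ _).trans ?_
    rw [Set.encard_univ, ENat.card_eq_coe_fintype_card]
  rw [h5] at h4
  exact_mod_cast h4.trans h6

theorem exists_bas [Finite σ] (x : σ → Ω) : ∃ (ρ : ℕ) (b : Fin ρ → σ), IsBas F x b := by
  obtain ⟨I, hI⟩ := (AlgebraicIndependent.matroid F Ω).exists_isBasis (Set.range x)
  obtain ⟨h1, h2, h3⟩ := AlgebraicIndependent.matroid_isBasis_iff.1 hI
  have : Finite I := ((Set.finite_range x).subset h2).to_subtype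
  obtain ⟨ρ, ⟨e⟩⟩ := Finite.exists_equiv_fin I
  choose b hb using fun j : Fin ρ => h2 (e.symm j).2
  have h4 : (fun j => x (b j)) = fun j => ((e.symm j : I) : Ω) := funext hb
  refine ⟨ρ, b, ?_, fun i => ?_⟩
  · rw [h4]
    exact AlgebraicIndependent.comp h1 _ e.symm.injective
  · have h5 : (Set.range fun j => x (b j)) = I := by
      rw [h4]
      ext a
      exact ⟨fun ⟨j, hj⟩ => hj ▸ (e.symm j).2, fun ha => ⟨e ⟨a, ha⟩, by simp⟩⟩
    rw [h5]
    exact h3 _ ⟨i, rfl⟩

theorem rk_lift {κ : Type} (t : κ → Ω) (q : Polynomial (Algebra.adjoin F (Set.range t))) :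
    ∃ Q : Polynomial (MvPolynomial κ F),
      Q.map (aeval t : MvPolynomial κ F →ₐ[F] Ω).toRingHom = q.map (algebraMap _ Ω) := by
  have h : q.map (algebraMap _ Ω) ∈
      Polynomial.lifts (aeval t : MvPolynomial κ F →ₐ[F] Ω).toRingHom := by
    rw [Polynomial.lifts_iff_coeff_lifts]
    intro n
    have h1 := (q.coeff n).2
    rw [Polynomial.coeff_map]
    have h2 : (q.coeff n : Ω) ∈ (aeval t : MvPolynomial κ F →ₐ[F] Ω).range := by
      rw [← Algebra.adjoin_range_eq_range_aeval]
      exact h1
    exact h2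
  exact (Polynomial.mem_lifts _).1 h

theorem rk_eval {κ : Type} (x : σ → Ω) (b : κ → σ) (H : MvPolynomial σ F)
    (Q : Polynomial (MvPolynomial κ F)) :
    aeval x (Q.eval₂ (rename b : MvPolynomial κ F →ₐ[F] MvPolynomial σ F).toRingHom H) =
      (Q.map (aeval (fun j => x (b j)) : MvPolynomial κ F →ₐ[F] Ω).toRingHom).eval (aeval x H) := by
  rw [Polynomial.eval_map]
  refine (Polynomial.hom_eval₂ Q _ (aeval x : MvPolynomial σ F →ₐ[F] Ω).toRingHom H).trans ?_
  congr 1
  refine RingHom.ext fun p => ?_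
  exact aeval_rename b x p

/-- a proper specialisation has smaller transcendence degree -/
theorem drop {Ω' : Type} [Field Ω'] [Algebra F Ω'] {x : σ → Ω} {x' : σ → Ω'}
    (h : ∀ H : MvPolynomial σ F, aeval x H = 0 → aeval x' H = 0) {H : MvPolynomial σ F}
    (h1 : aeval x H ≠ 0) (h2 : aeval x' H = 0) {ρ ρ' : ℕ} {b : Fin ρ → σ} {b' : Fin ρ' → σ}
    (hb : IsBas F x b) (hb' : IsBas F x' b') : ρ' < ρ := by
  have hu : AlgebraicIndependent F fun j => x (b' j) := by
    rw [algebraicIndependent_iff]
    intro p hp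
    refine algebraicIndependent_iff.1 hb'.1 p ?_
    have h3 := h (rename b' p) ((aeval_rename b' x p).trans hp)
    exact (aeval_rename b' x' p).symm.trans h3
  have ht : Transcendental (Algebra.adjoin F (Set.range fun j => x (b' j))) (aeval x H) := by
    intro ha
    obtain ⟨q, hq0, hq⟩ :=
      ha.exists_nonzero_coeff_and_aeval_eq_zero (mem_nonZeroDivisors_of_ne_zero h1)
    obtain ⟨Q, hQ⟩ := rk_lift _ q
    have h3 := rk_eval x b' H Q
    rw [hQ, Polynomial.eval_map, ← Polynomial.aeval_def, hq] at h3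
    have h4 := h _ h3
    rw [rk_eval, h2, ← Polynomial.coeff_zero_eq_eval_zero, Polynomial.coeff_map] at h4
    have h5 : Q.coeff 0 = 0 := algebraicIndependent_iff.1 hb'.1 _ h4
    have h6 := congrArg (fun p => Polynomial.coeff p 0) hQ
    simp only [Polynomial.coeff_map, h5, map_zero] at h6
    exact hq0 (Subtype.ext h6.symm)
  have hv := (hu.option_iff_transcendental _).2 ht
  have hc := card_le_of_alg (v := fun j => x (b j)) hv (by
    rintro (_ | j)
    · refine rk_trans (s := Set.range x) (rk_mem ?_) ?_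
      · rw [Algebra.adjoin_range_eq_range_aeval]
        exact ⟨H, rfl⟩
      · rintro _ ⟨i, rfl⟩
        exact hb.2 i
    · exact hb.2 _)
  simp only [Fintype.card_option, Fintype.card_fin] at hc
  omega

theorem rk_pderiv_some {κ : Type} (p : MvPolynomial κ F) :
    pderiv none (rename some p : MvPolynomial (Option κ) F) = 0 := by
  classical
  induction p using MvPolynomial.induction_on with
  | C a => simp
  | add p q hp hq => simp [hp, hq]
  | mul_X p i hp => simp [hp]

theorem rk_pderiv {κ : Type} (Q : Polynomial (MvPolynomial κ F)) :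
    pderiv none (Q.eval₂ (rename some : MvPolynomial κ F →ₐ[F] MvPolynomial (Option κ) F).toRingHom
      (X none)) = (Polynomial.derivative Q).eval₂
        (rename some : MvPolynomial κ F →ₐ[F] MvPolynomial (Option κ) F).toRingHom (X none) := by
  classical
  induction Q using Polynomial.induction_on' with
  | add p q hp hq => simp only [Polynomial.eval₂_add, map_add, hp, hq]
  | monomial n a =>
    simp [Polynomial.derivative_monomial, Polynomial.eval₂_monomial, rk_pderiv_some]
    ring

/-- a separable relation -/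
theorem sep_rel [CharZero F] {κ : Type} (t : κ → Ω) {y : Ω}
    (h : IsAlgebraic (Algebra.adjoin F (Set.range t)) y) :
    ∃ G : MvPolynomial (Option κ) F, aeval (fun o => o.elim y t) G = 0 ∧
      aeval (fun o => o.elim y t) (pderiv none G) ≠ 0 := by
  classical
  have : CharZero Ω := charZero_of_injective_algebraMap (algebraMap F Ω).injective
  have hex : ∃ n : ℕ, ∃ q : Polynomial (Algebra.adjoin F (Set.range t)),
      q ≠ 0 ∧ Polynomial.aeval y q = 0 ∧ q.natDegree = n := by
    obtain ⟨q, h1, h2⟩ := h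
    exact ⟨_, q, h1, h2, rfl⟩
  obtain ⟨q, h1, h2, h3⟩ := Nat.find_spec hex
  have h4 : q.natDegree ≠ 0 := by
    intro h0
    rw [Polynomial.eq_C_of_natDegree_eq_zero h0, Polynomial.aeval_C] at h2
    apply h1
    rw [Polynomial.eq_C_of_natDegree_eq_zero h0, show q.coeff 0 = 0 from Subtype.ext h2, map_zero]
  have h5 : Polynomial.aeval y (Polynomial.derivative q) ≠ 0 := by
    intro h0
    refine Nat.find_min hex (h3 ▸ Polynomial.natDegree_derivative_lt h4) ⟨_, ?_, h0, rfl⟩
    intro hd
    exact h4 (Polynomial.derivative_eq_zero.1 hd)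
  obtain ⟨Q, hQ⟩ := rk_lift t q
  refine ⟨Q.eval₂ (rename some : MvPolynomial κ F →ₐ[F] MvPolynomial (Option κ) F).toRingHom
    (X none), ?_, ?_⟩
  · rw [rk_eval, aeval_X]
    simp only [Option.elim]
    rw [hQ, Polynomial.eval_map, ← Polynomial.aeval_def, h2]
  · rw [rk_pderiv, rk_eval, aeval_X]
    simp only [Option.elim]
    rw [← Polynomial.derivative_map, hQ, Polynomial.derivative_map, Polynomial.eval_map,
      ← Polynomial.aeval_def]
    exact h5

theorem rk_tower {s t : Set Ω} {a : Ω}
    (h : IsAlgebraic (Algebra.adjoin (IntermediateField.adjoin F s) t) a) :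
    IsAlgebraic (Algebra.adjoin F (s ∪ t)) a := by
  have h0 : IsAlgebraic (IntermediateField.adjoin (IntermediateField.adjoin F s) t) a :=
    IntermediateField.isAlgebraic_adjoin_iff.2 h
  have hm : ∀ y : IntermediateField.adjoin (IntermediateField.adjoin F s) t,
      algebraMap _ Ω y ∈ IntermediateField.adjoin F (s ∪ t) := fun y => by
    rw [← IntermediateField.adjoin_adjoin_left, IntermediateField.mem_restrictScalars]
    exact y.2
  have h1 : IsAlgebraic (IntermediateField.adjoin F (s ∪ t)) a :=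
    h0.ringHom_of_comp_eq ((algebraMap _ Ω).codRestrict (IntermediateField.adjoin F (s ∪ t)) hm)
      (RingHom.id Ω) (RingHom.injective _) (RingHom.ext fun _ => rfl)
  exact IntermediateField.isAlgebraic_adjoin_iff.1 h1

/-- either `s` members of `a` are independent over a field that contains the family `z`, or
everything is algebraic over fewer than `card z + s` elements -/
theorem select {κ ι : Type} [Fintype κ] [Fintype ι] (z : κ → Ω) (a : ι → Ω) (s : ℕ) :
    (∃ (r : ℕ) (w : Fin r → κ) (v : Fin s → ι), r ≤ Fintype.card κ ∧ IsBas F z w ∧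
      AlgebraicIndependent (IntermediateField.adjoin F (Set.range z)) fun i => a (v i)) ∨
    ∃ (n : ℕ) (u : Fin n → Ω), n < Fintype.card κ + s ∧
      (∀ i, IsAlgebraic (Algebra.adjoin F (Set.range u)) (z i)) ∧
      ∀ i, IsAlgebraic (Algebra.adjoin F (Set.range u)) (a i) := by
  obtain ⟨r, w, hw⟩ := exists_bas (F := F) z
  obtain ⟨m, v, hv⟩ := exists_bas (F := IntermediateField.adjoin F (Set.range z)) a
  have hr : r ≤ Fintype.card κ := by
    simpa using card_le_of_alg (v := z) hw.1 fun j => rk_mem (Algebra.subset_adjoin ⟨_, rfl⟩)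
  by_cases hs : s ≤ m
  · exact Or.inl ⟨r, w, fun i => v (Fin.castLE hs i), hr, hw,
      hv.1.comp _ (Fin.castLE_injective hs)⟩
  · have hz : ∀ i, IsAlgebraic (Algebra.adjoin F (Set.range
        (Fin.append (fun j => z (w j)) fun j => a (v j)))) (z i) := fun i =>
      rk_trans (hw.2 i) (by
        rintro _ ⟨j, rfl⟩
        exact rk_mem (Algebra.subset_adjoin ⟨Fin.castAdd m j, Fin.append_left _ _ _⟩))
    refine Or.inr ⟨r + m, Fin.append (fun j => z (w j)) fun j => a (v j), by omega, hz, fun i => ?_⟩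
    refine rk_trans (rk_tower (hv.2 i)) ?_
    rintro _ (⟨j, rfl⟩ | ⟨j, rfl⟩)
    · exact hz j
    · exact rk_mem (Algebra.subset_adjoin ⟨Fin.natAdd r j, Fin.append_right _ _ _⟩)

end Pool.Agent.Lib.MP_e5111b_co.Pc
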