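import Mathlib

set_option autoImplicit false

namespace Pool.Agent.Lib.MP_e5111b_co.Pc

open Filter MvPolynomial Finset

/-- a prime of size about `X` that misses `Δ` on a positive proportion of the points -/
theorem det_prime {W : Type} (S : Finset W) (Δ : W → ℤ) {X s : ℕ} (hX : 1 ≤ X) (hs : 1 ≤ s)
    (h : ∀ ξ ∈ S, Δ ξ ≠ 0 ∧ |Δ ξ| ≤ (X : ℤ) ^ s) :
    ∃ p : ℕ, p.Prime ∧ X < p ∧ p ≤ 2 ^ s * X ∧
      ∃ S' ⊆ S, #S ≤ s * #S' ∧ ∀ ξ ∈ S', ¬ (p : ℤ) ∣ Δ ξ := by
  classical
  choose q q1 q2 q3 using fun i : ℕ =>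
    Nat.exists_prime_lt_and_le_two_mul (2 ^ i * X) (by positivity)
  have mono : StrictMono q := strictMono_nat_of_lt_succ fun i => (q3 i).trans_lt (by
    have := q2 (i + 1)
    rwa [pow_succ', mul_assoc] at this)
  have hq : ∀ i, X < q i := fun i =>
    lt_of_le_of_lt (Nat.le_mul_of_pos_left X (by positivity)) (q2 i)
  obtain ⟨i, hi, hm⟩ := exists_max_image (range s)
    (fun i => #(S.filter fun ξ => ¬ (q i : ℤ) ∣ Δ ξ)) ⟨0, mem_range.2 hs⟩
  refine ⟨q i, q1 i, hq i, (q3 i).trans ?_, _, filter_subset _ _, ?_,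
    fun ξ hξ => (mem_filter.1 hξ).2⟩
  · rw [← mul_assoc, ← pow_succ']
    exact Nat.mul_le_mul_right _ (Nat.pow_le_pow_right two_pos (mem_range.1 hi))
  · refine (card_le_card fun ξ hξ => ?_).trans
      ((card_biUnion_le_card_mul _ _ _ hm).trans_eq (by rw [card_range]))
    by_contra hn
    have hd : ∀ j ∈ range s, (q j : ℤ) ∣ Δ ξ := fun j hj => by
      by_contra h'
      exact hn (mem_biUnion.2 ⟨j, hj, mem_filter.2 ⟨hξ, h'⟩⟩)
    have h1 : ∏ j ∈ range s, (q j : ℤ) ∣ Δ ξ := prod_dvd_of_coprime (fun a _ b _ e =>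
      Nat.isCoprime_iff_coprime.2 ((Nat.coprime_primes (q1 a) (q1 b)).2 (mono.injective.ne e))) hd
    have h2 := (Int.le_of_dvd (abs_pos.2 (h ξ hξ).1) ((dvd_abs _ _).2 h1)).trans (h ξ hξ).2
    have h3 : ∏ _j ∈ range s, (X : ℤ) < ∏ j ∈ range s, (q j : ℤ) :=
      prod_lt_prod_of_nonempty (fun _ _ => by exact_mod_cast hX)
        (fun j _ => by exact_mod_cast hq j) ⟨0, mem_range.2 hs⟩
    rw [prod_const, card_range] at h3
    exact absurd h2 (not_le.2 h3)

theorem detc_der {κ R : Type} [CommRing R] (g : MvPolynomial (Option κ) R) :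
    optionEquivLeft R κ (pderiv none g) = Polynomial.derivative (optionEquivLeft R κ g) := by
  classical
  induction g using MvPolynomial.induction_on with
  | C a => simp [optionEquivLeft_C]
  | add p q hp hq => simp only [map_add, hp, hq]
  | mul_X p o hp =>
    rw [Derivation.leibniz, map_mul, Polynomial.derivative_mul, smul_eq_mul, smul_eq_mul, map_add,
      map_mul, map_mul, hp]
    cases o with
    | none => simp [optionEquivLeft_X_none, add_comm, mul_comm]
    | some i => simp [optionEquivLeft_X_some, mul_comm]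

theorem detc_ev {κ R : Type} [CommRing R] (t : κ → ℤ) (y : ℤ) (g : MvPolynomial (Option κ) ℤ) :
    ((eval (fun o => o.elim y t) g : ℤ) : R) = Polynomial.eval (y : R)
      ((optionEquivLeft ℤ κ g).map (eval₂Hom (Int.castRingHom R) fun i => (t i : R))) := by
  induction g using MvPolynomial.induction_on with
  | C a => simp [optionEquivLeft_C]
  | add p q hp hq => simp only [map_add, Int.cast_add, hp, hq, Polynomial.map_add,
      Polynomial.eval_add]
  | mul_X p o hp =>
    simp only [map_mul, Int.cast_mul, hp, Polynomial.map_mul, Polynomial.eval_mul, eval_X]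
    cases o with
    | none => simp [optionEquivLeft_X_none]
    | some i => simp [optionEquivLeft_X_some]

/-- a large residue class -/
theorem det_count {W κ ω : Type} [Fintype κ] [Fintype ω] (S : Finset W) (t : W → κ → ℤ)
    (y : W → ω → ℤ) (g : ω → MvPolynomial (Option κ) ℤ) {D p : ℕ} (hp : p.Prime)
    (hD : ∀ j, (g j).degreeOf none ≤ D)
    (hg : ∀ ξ ∈ S, ∀ j, eval (fun o => o.elim (y ξ j) (t ξ)) (g j) = 0)
    (hd : ∀ ξ ∈ S, ∀ j, ¬ (p : ℤ) ∣ eval (fun o => o.elim (y ξ j) (t ξ)) (pderiv none (g j))) :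
    ∃ S' ⊆ S, #S ≤ p ^ Fintype.card κ * D ^ Fintype.card ω * #S' ∧ ∀ ξ ∈ S', ∀ ξ' ∈ S',
      (∀ i, (p : ℤ) ∣ t ξ i - t ξ' i) ∧ ∀ j, (p : ℤ) ∣ y ξ j - y ξ' j := by
  classical
  have := Fact.mk hp
  rcases S.eq_empty_or_nonempty with rfl | hne
  · exact ⟨∅, Subset.rfl, by simp, by simp⟩
  let φ : W → (κ → ZMod p) × (ω → ZMod p) := fun ξ => (fun i => t ξ i, fun j => y ξ j)
  let P : (κ → ZMod p) → ω → Polynomial (ZMod p) := fun a j =>
    (optionEquivLeft ℤ κ (g j)).map (eval₂Hom (Int.castRingHom (ZMod p)) a)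
  obtain ⟨b, -, hm⟩ := exists_max_image (S.image φ) (fun b => #{ξ ∈ S | φ ξ = b}) (hne.image φ)
  refine ⟨{ξ ∈ S | φ ξ = b}, filter_subset _ _, ?_, fun ξ hξ ξ' hξ' => ?_⟩
  · refine (card_le_mul_card_image S _ hm).trans ?_
    rw [mul_comm]
    refine Nat.mul_le_mul_right _ ?_
    have h1 : S.image φ ⊆ univ.biUnion fun a : κ → ZMod p =>
        {a} ×ˢ Fintype.piFinset fun j => (P a j).roots.toFinset := by
      intro c hc
      obtain ⟨ξ, hξ, rfl⟩ := mem_image.1 hc
      refine mem_biUnion.2 ⟨_, mem_univ _, mem_product.2 ⟨mem_singleton_self _,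
        Fintype.mem_piFinset.2 fun j => Multiset.mem_toFinset.2
          ((Polynomial.mem_roots fun e => hd ξ hξ j ?_).2 ?_)⟩⟩
      · rw [← ZMod.intCast_zmod_eq_zero_iff_dvd, detc_ev, detc_der, ← Polynomial.derivative_map]
        exact (congrArg (fun u => Polynomial.eval _ (Polynomial.derivative u)) e).trans (by simp)
      · exact (detc_ev (R := ZMod p) (t ξ) (y ξ j) (g j)).symm.trans (by rw [hg ξ hξ j]; simp)
    refine (card_le_card h1).trans ((card_biUnion_le_card_mul _ _ (D ^ Fintype.card ω)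
      fun a _ => ?_).trans_eq (by simp [ZMod.card]))
    rw [card_product, card_singleton, one_mul, Fintype.card_piFinset, ← card_univ]
    refine prod_le_pow_card _ _ _ fun j _ => (Multiset.toFinset_card_le _).trans
      ((Polynomial.card_roots' _).trans (Polynomial.natDegree_map_le.trans ?_))
    rw [natDegree_optionEquivLeft]
    exact hD j
  · have e := (mem_filter.1 hξ').2.trans (mem_filter.1 hξ).2.symm
    exact ⟨fun i => (ZMod.intCast_eq_intCast_iff_dvd_sub _ _ _).1 (congrFun (congrArg Prod.fst e) i),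
      fun j => (ZMod.intCast_eq_intCast_iff_dvd_sub _ _ _).1 (congrFun (congrArg Prod.snd e) j)⟩

end Pool.Agent.Lib.MP_e5111b_co.Pc
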