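import Pool.Agent.Lib.MP_e5111b_co.Pc.DetA
import Pool.Agent.Lib.MP_e5111b_co.Pc.DetC

set_option autoImplicit false

namespace Pool.Agent.Lib.MP_e5111b_co.Pc

open Filter MvPolynomial Finset

/-- the determinant method at one level -/
theorem det_level {W κ ω L : Type} [Fintype κ] [Fintype ω] [Fintype L] [DecidableEq κ]
    (S : Finset W) (t : W → κ → ℤ) (y : W → ω → ℤ) (g : ω → MvPolynomial (Option κ) ℤ)
    (μ : L → ω → ℕ) {γ δ B D X s : ℕ} (hγ : 1 ≤ γ) (hδ : 1 ≤ δ) (hB : 1 ≤ B) (hX : 1 ≤ X)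
    (hs : 1 ≤ s) (hL : 2 * γ ^ Fintype.card κ ≤ Fintype.card L)
    (hD : ∀ j, (g j).degreeOf none ≤ D)
    (hg : ∀ ξ ∈ S, ∀ j, eval (fun o => o.elim (y ξ j) (t ξ)) (g j) = 0)
    (hd : ∀ ξ ∈ S, ∏ j, eval (fun o => o.elim (y ξ j) (t ξ)) (pderiv none (g j)) ≠ 0 ∧
      |∏ j, eval (fun o => o.elim (y ξ j) (t ξ)) (pderiv none (g j))| ≤ (X : ℤ) ^ s)
    (hf : ∀ z : (κ → Fin δ) × L, ∀ ξ ∈ S,
      |(∏ i, t ξ i ^ (z.1 i : ℕ)) * ∏ j, y ξ j ^ μ z.2 j| ≤ B)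
    (hQ : (Fintype.card ((κ → Fin δ) × L) * B) ^ 2 ≤ X ^ (γ * δ)) :
    ∃ S' ⊆ S, #S ≤ s * ((2 ^ s * X) ^ Fintype.card κ * D ^ Fintype.card ω) * #S' ∧
      ∃ c : (κ → Fin δ) × L → ℤ, c ≠ 0 ∧
        (∀ z, |c z| ≤ (Fintype.card ((κ → Fin δ) × L) * B : ℕ) ^ Fintype.card ((κ → Fin δ) × L)) ∧
        ∀ ξ ∈ S', ∑ z, ((∏ i, t ξ i ^ (z.1 i : ℕ)) * ∏ j, y ξ j ^ μ z.2 j) * c z = 0 := by
  obtain ⟨p, hp, p1, p2, S₁, s1, c1, d1⟩ := det_prime S _ hX hs hd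
  have d2 : ∀ ξ ∈ S₁, ∀ j, ¬ (p : ℤ) ∣ eval (fun o => o.elim (y ξ j) (t ξ)) (pderiv none (g j)) :=
    fun ξ h j e => d1 ξ h (e.trans (dvd_prod_of_mem _ (mem_univ j)))
  obtain ⟨S₂, s2, c2, d3⟩ := det_count S₁ t y g hp hD (fun ξ h => hg ξ (s1 h)) d2
  obtain ⟨c, c0, c3, c4⟩ := det_class (W := S₂) (fun ξ => t ξ) (fun ξ => y ξ) g μ hp hγ hδ hB hL
    (fun ξ => hg ξ (s1 (s2 ξ.2))) (fun ξ => d2 ξ (s2 ξ.2)) (fun ξ ξ' => d3 ξ ξ.2 ξ' ξ'.2)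
    (fun z ξ => hf z ξ (s1 (s2 ξ.2))) (hQ.trans_lt (Nat.pow_lt_pow_left p1 (by positivity)))
  refine ⟨S₂, s2.trans s1, c1.trans ?_, c, c0, c3, fun ξ h => c4 ⟨ξ, h⟩⟩
  rw [mul_assoc]
  exact Nat.mul_le_mul_left _ (c2.trans (by gcongr))

lemma detB_eval {σ : Type} (q : MvPolynomial σ ℤ) : ∃ A : ℕ, ∀ (M : ℤ) (P : σ → ℤ), 1 ≤ M →
    (∀ i, |P i| ≤ M) → |eval P q| ≤ A * M ^ q.totalDegree := by
  refine ⟨∑ d ∈ q.support, (coeff d q).natAbs, fun M P hM h => ?_⟩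
  rw [eval_eq, Nat.cast_sum, sum_mul]
  refine (abs_sum_le_sum_abs _ _).trans (sum_le_sum fun d hd => ?_)
  rw [abs_mul, Int.natCast_natAbs, abs_prod]
  refine mul_le_mul_of_nonneg_left ((prod_le_prod (g := fun i => M ^ d i)
    (fun _ _ => abs_nonneg _) fun i _ => ?_).trans ?_) (abs_nonneg _)
  · rw [abs_pow]; exact pow_le_pow_left₀ (abs_nonneg _) (h i) _
  · rw [prod_pow_eq_pow_sum]; exact pow_le_pow_right₀ hM (le_totalDegree hd)

/-- the size of the monomials on the box -/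
lemma detB_size {σ κ ω L : Type} [Fintype κ] [Fintype ω] [Fintype L] (t : κ → MvPolynomial σ ℤ)
    (ht : ∀ i, (t i).totalDegree ≤ 1) (y : ω → MvPolynomial σ ℤ) (μ : L → ω → ℕ) :
    ∃ A δ : ℕ, 1 ≤ A ∧ 1 ≤ δ ∧ ∀ (N : ℕ) (P : σ → ℤ), (∀ i, |P i| ≤ N) → ∀ z : (κ → Fin δ) × L,
      |(∏ i, eval P (t i) ^ (z.1 i : ℕ)) * ∏ j, eval P (y j) ^ μ z.2 j| ≤
        ((A * (N + 2)) ^ ((Fintype.card κ + 1) * δ) : ℕ) := by
  choose a ha using fun i => detB_eval (t i)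
  choose b hb using fun j => detB_eval (y j)
  refine ⟨1 + ∑ i, a i + ∑ j, b j, 1 + ∑ l, ∑ j, ((y j).totalDegree + 1) * μ l j, by omega,
    by omega, fun N P hP z => ?_⟩
  have h1 : ∀ i, a i ≤ 1 + ∑ i, a i + ∑ j, b j := fun i => by
    have := single_le_sum (f := a) (fun _ _ => Nat.zero_le _) (mem_univ i); omega
  have h2 : ∀ j, b j ≤ 1 + ∑ i, a i + ∑ j, b j := fun j => by
    have := single_le_sum (f := b) (fun _ _ => Nat.zero_le _) (mem_univ j); omega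
  have h3 : ∑ j, ((y j).totalDegree + 1) * μ z.2 j ≤
      1 + ∑ l, ∑ j, ((y j).totalDegree + 1) * μ l j := by
    have := single_le_sum (f := fun l => ∑ j, ((y j).totalDegree + 1) * μ l j)
      (fun _ _ => Nat.zero_le _) (mem_univ z.2); omega
  have h4 : 1 ≤ 1 + ∑ i, a i + ∑ j, b j := by omega
  generalize 1 + ∑ i, a i + ∑ j, b j = A at *
  revert z
  generalize 1 + ∑ l, ∑ j, ((y j).totalDegree + 1) * μ l j = δ
  intro z h3
  have N1 : (1 : ℤ) ≤ N + 2 := by omega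
  have A1 : (1 : ℤ) ≤ A := by exact_mod_cast h4
  have M1 : (1 : ℤ) ≤ A * (N + 2) := one_le_mul_of_one_le_of_one_le A1 N1
  have hP' : ∀ i, |P i| ≤ (N : ℤ) + 2 := fun i => (hP i).trans (by omega)
  push_cast
  rw [abs_mul, abs_prod, abs_prod, add_mul, one_mul, pow_add]
  refine mul_le_mul ((prod_le_prod (g := fun _ => ((A : ℤ) * (N + 2)) ^ δ)
    (fun _ _ => abs_nonneg _) fun i _ => ?_).trans ?_) ((prod_le_prod
      (g := fun j => ((A : ℤ) * (N + 2)) ^ (((y j).totalDegree + 1) * μ z.2 j))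
      (fun _ _ => abs_nonneg _) fun j _ => ?_).trans ?_) (by positivity) (by positivity)
  · rw [abs_pow]
    refine (pow_le_pow_left₀ (abs_nonneg _) ((ha i _ P N1 hP').trans ?_) _).trans
      (pow_le_pow_right₀ M1 (z.1 i).2.le)
    exact mul_le_mul (by exact_mod_cast h1 i) ((pow_le_pow_right₀ N1 (ht i)).trans (by simp))
      (by positivity) (by positivity)
  · rw [prod_const, card_univ, ← pow_mul, mul_comm δ]
  · rw [abs_pow, pow_mul]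
    refine pow_le_pow_left₀ (abs_nonneg _) ((hb j _ P N1 hP').trans ?_) _
    rw [mul_pow]
    exact mul_le_mul (le_trans (by exact_mod_cast h2 j) (le_self_pow₀ A1 (by omega)))
      (pow_le_pow_right₀ N1 (by omega)) (by positivity) (by positivity)
  · rw [prod_pow_eq_pow_sum]; exact pow_le_pow_right₀ M1 h3

/-- the numerical inequalities -/
lemma detB_num (r E A K C : ℕ) {γ δ : ℕ} (hγ : 1 ≤ γ) (hδ : 1 ≤ δ) : ∀ᶠ N : ℕ in atTop, ∃ X : ℕ,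
    1 ≤ X ∧ (N + 2) ^ C ≤ X ^ (γ * C + 1) ∧
      (E * (A * (N + 2)) ^ ((r + 1) * δ)) ^ 2 ≤ X ^ (γ * δ) ∧
      (K * X ^ r : ℝ) ≤ (N : ℝ) ^ (4 * ((r : ℝ) + 1) ^ 2 / γ) := by
  have γ0 : (0 : ℝ) < γ := by exact_mod_cast hγ
  have hη : (0 : ℝ) < 1 / γ := by positivity
  filter_upwards [eventually_ge_atTop 2, eventually_ge_atTop ((E * (A * 2) ^ ((r + 1) * δ)) ^ 2),
    ((tendsto_rpow_atTop hη).comp tendsto_natCast_atTop_atTop).eventually_ge_atTop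
      ((K : ℝ) * 2 ^ r)] with N h1 h2 h3
  have N1 : (1 : ℝ) ≤ N := by exact_mod_cast le_trans one_le_two h1
  have a1 : 1 ≤ (N : ℝ) ^ ((2 * r + 3 : ℝ) / γ) := Real.one_le_rpow N1 (by positivity)
  have x1 := Nat.le_ceil ((N : ℝ) ^ ((2 * r + 3 : ℝ) / γ))
  have x2 := Nat.ceil_lt_add_one (zero_le_one.trans a1)
  generalize ⌈(N : ℝ) ^ ((2 * r + 3 : ℝ) / γ)⌉₊ = X at x1 x2
  have X1 : 1 ≤ X := by exact_mod_cast a1.trans x1
  have x3 : N ^ (2 * r + 3) ≤ X ^ γ := by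
    have := pow_le_pow_left₀ (zero_le_one.trans a1) x1 γ
    rw [← Real.rpow_mul_natCast (by positivity), div_mul_cancel₀ _ γ0.ne'] at this
    exact_mod_cast this
  refine ⟨X, X1, ?_, ?_, ?_⟩
  · have : N + 2 ≤ X ^ γ := by
      refine le_trans ?_ ((Nat.pow_le_pow_right (by omega) (show 2 ≤ 2 * r + 3 by omega)).trans x3)
      nlinarith
    exact (Nat.pow_le_pow_left this C).trans
      (by rw [← pow_mul]; exact Nat.pow_le_pow_right X1 (by omega))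
  · calc (E * (A * (N + 2)) ^ ((r + 1) * δ)) ^ 2 ≤ (E * (A * (2 * N)) ^ ((r + 1) * δ)) ^ 2 := by
          gcongr; omega
      _ = (E * (A * 2) ^ ((r + 1) * δ)) ^ 2 * N ^ ((2 * r + 2) * δ) := by
          rw [← mul_assoc A, mul_pow (A * 2), ← mul_assoc, mul_pow _ (N ^ _), ← pow_mul N]
          congr 2; ring
      _ ≤ N ^ δ * N ^ ((2 * r + 2) * δ) :=
          Nat.mul_le_mul_right _ (h2.trans (Nat.le_self_pow (by omega) N))
      _ = (N ^ (2 * r + 3)) ^ δ := by rw [← pow_add, ← pow_mul]; congr 1; ring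
      _ ≤ X ^ (γ * δ) := by rw [pow_mul X]; exact Nat.pow_le_pow_left x3 δ
  · calc (K * X ^ r : ℝ) ≤ K * (2 * (N : ℝ) ^ ((2 * r + 3 : ℝ) / γ)) ^ r := by gcongr; linarith
      _ = K * 2 ^ r * (N : ℝ) ^ ((2 * r + 3 : ℝ) / γ * r) := by
          rw [mul_pow, Real.rpow_mul_natCast (by positivity), mul_assoc]
      _ ≤ (N : ℝ) ^ (1 / γ : ℝ) * (N : ℝ) ^ ((2 * r + 3 : ℝ) / γ * r) := by gcongr; exact h3
      _ ≤ _ := by
          rw [← Real.rpow_add (by positivity)]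
          refine Real.rpow_le_rpow_of_exponent_le N1 ?_
          rw [div_mul_eq_mul_div, ← add_div]
          gcongr
          nlinarith [Nat.cast_nonneg (α := ℝ) r]

end Pool.Agent.Lib.MP_e5111b_co.Pc
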