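import Pool.Agent.Lib.MP_e5111b_co.Pc.UltB
import Pool.Agent.Lib.MP_f03f34_nt.Det
import Pool.Agent.Lib.MP_e5111b_co.Pc.DetB

set_option autoImplicit false

namespace Pool.Agent.Lib.MP_e5111b_co.Pc

open Filter MvPolynomial Finset

/-- substitution of the integral polynomials -/
noncomputable def detS {R σ κ : Type} [CommRing R] (t : κ → MvPolynomial σ ℤ)
    (q : MvPolynomial σ ℤ) (g : MvPolynomial (Option κ) R) : MvPolynomial σ R :=
  bind₁ (fun o : Option κ => map (Int.castRingHom R) (o.elim q t)) g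

lemma det_cast {R A σ : Type} [CommRing R] [CommRing A] (φ : R →+* A) (v : σ → A)
    (q : MvPolynomial σ ℤ) : eval₂Hom φ v (map (Int.castRingHom R) q) = aeval v q := by
  rw [coe_eval₂Hom, eval₂_map, aeval_def]
  exact congrArg (eval₂ · v q) (Subsingleton.elim _ _)

lemma detS_ev {R A σ κ : Type} [CommRing R] [CommRing A] (φ : R →+* A) (v : σ → A)
    (t : κ → MvPolynomial σ ℤ) (q : MvPolynomial σ ℤ) (g : MvPolynomial (Option κ) R) :
    eval₂Hom φ v (detS t q g) =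
      eval₂Hom φ (fun o => o.elim (aeval v q) fun i => aeval v (t i)) g := by
  rw [detS, eval₂Hom_bind₁]
  refine congrArg (eval₂Hom φ · g) (funext fun o => ?_)
  cases o <;> exact det_cast φ v _

lemma det_mem (c : Ctx) {a : ℕ → ℤ} (b : c.Bd) (h : ∀ k, |a k| ≤ c.ev k b) : a ∈ c.Bd := by
  obtain ⟨C, hC⟩ := b.2
  exact ⟨C, fun k => (h k).trans ((le_abs_self _).trans (hC k))⟩

/-- the determinant method -/
theorem det_step (c : Ctx) {σ : Type} {T : ℕ → Finset (σ → ℤ)} (hT : c.Box T)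
    {Ω : Type} [Field Ω] [Algebra c.F Ω] {x : σ → Ω} (hx : c.Gen T x)
    {κ ω L : Type} [Fintype κ] [Fintype ω] [Fintype L] (t : κ → MvPolynomial σ ℤ)
    (ht : ∀ i, (t i).totalDegree ≤ 1) (y : ω → MvPolynomial σ ℤ)
    (hy : ∀ j, ∃ G : MvPolynomial (Option κ) c.F,
      aeval (fun o => o.elim (aeval x (y j)) fun i => aeval x (t i)) G = 0 ∧
      aeval (fun o => o.elim (aeval x (y j)) fun i => aeval x (t i)) (pderiv none G) ≠ 0)
    (μ : L → ω → ℕ) {γ : ℕ} (hγ : 1 ≤ γ) (hL : 2 * γ ^ Fintype.card κ ≤ Fintype.card L)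
    (hind : LinearIndependent c.F fun p : (κ → ℕ) × L =>
      (∏ i, aeval x (t i) ^ p.1 i) * ∏ j, aeval x (y j) ^ μ p.2 j) :
    c.Out T x (4 * ((Fintype.card κ : ℝ) + 1) ^ 2 / γ) := by
  classical
  choose G hG hG' using hy
  obtain ⟨b, g, hb, hg⟩ := c.clear G
  have ax : ∀ {τ : Type} (v : τ → Ω) (h : MvPolynomial τ c.Bd), aeval v (map c.pi h) =
      eval₂Hom ((algebraMap c.F Ω).comp c.pi) v h := fun v h => by
    rw [aeval_def, eval₂_map, coe_eval₂Hom]
  have ek : ∀ {τ : Type} (k : ℕ) (v : τ → ℤ) (h : MvPolynomial τ c.Bd),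
      eval v (map (c.ev k) h) = eval₂Hom (c.ev k) v h := fun k v h => by
    rw [eval_map, coe_eval₂Hom]
  have h1 : ∀ᶠ k in (c.U : Filter ℕ), ∀ j, ∀ P ∈ T k,
      eval P (map (c.ev k) (detS t (y j) (g j))) = 0 := eventually_all.2 fun j =>
    (c.van_iff hT _).1 ((hx _).1 (by rw [ax, detS_ev, ← ax, (hg j).1, map_mul, hG, mul_zero]))
  have γ0 : (0 : ℝ) < γ := by exact_mod_cast hγ
  refine (c.half (x := x) hT (∏ j, detS t (y j) (pderiv none (g j))) ?_
    (by positivity)).elim id fun h2 => ?_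
  · rw [ax, map_prod]
    refine prod_ne_zero_iff.2 fun j _ => ?_
    rw [detS_ev, ← ax, ← pderiv_map, (hg j).1, pderiv_C_mul, map_mul, aeval_C]
    exact mul_ne_zero ((map_ne_zero _).2 hb) (hG' j)
  obtain ⟨C, hC⟩ := c.bound (∏ j, detS t (y j) (pderiv none (g j)))
  obtain ⟨A, δ, A1, δ1, hA⟩ := detB_size t ht y μ
  let D := ∑ j, (g j).degreeOf none
  let B : ℕ → ℕ := fun k => (A * (c.N k + 2)) ^ ((Fintype.card κ + 1) * δ)
  let E := Fintype.card ((κ → Fin δ) × L)
  have h3 := c.hN.eventually (detB_num (Fintype.card κ) E A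
    (2 * (γ * C + 1) * (2 ^ (γ * C + 1)) ^ Fintype.card κ * D ^ Fintype.card ω) C hγ δ1)
  have key : ∀ᶠ k in (c.U : Filter ℕ), ∃ u : Finset (σ → ℤ) × ((κ → Fin δ) × L → ℤ),
      u.1 ⊆ T k ∧ (∀ z, |u.2 z| ≤ (E * B k : ℕ) ^ E) ∧ (∀ P ∈ u.1, ∑ z : (κ → Fin δ) × L,
        ((∏ i, eval P (t i) ^ (z.1 i : ℕ)) * ∏ j, eval P (y j) ^ μ z.2 j) * u.2 z = 0) ∧
      u.2 ≠ 0 ∧ (#(T k) : ℝ) ≤ (c.N k : ℝ) ^ (4 * ((Fintype.card κ : ℝ) + 1) ^ 2 / γ) * #u.1 := by
    filter_upwards [h1, h2, h3] with k k1 k2 ⟨X, X1, x1, x2, x3⟩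
    obtain ⟨S, s1, s2, a, a0, a1, a2⟩ := det_level (D := D) (B := B k)
      ((T k).filter fun P => eval P (map (c.ev k) (∏ j, detS t (y j) (pderiv none (g j)))) ≠ 0)
      (fun P i => eval P (t i)) (fun P j => eval P (y j)) (fun j => map (c.ev k) (g j)) μ hγ δ1
      (Nat.one_le_pow _ _ (by positivity)) X1 (Nat.le_add_left 1 (γ * C)) hL
      (fun j => le_trans (degreeOf_le_iff.2 fun m hm =>
        monomial_le_degreeOf none (support_map_subset _ _ hm))
        (single_le_sum (f := fun j => (g j).degreeOf none) (fun _ _ => Nat.zero_le _) (mem_univ j)))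
      (fun P hP j => by
        have := k1 j P (mem_filter.1 hP).1
        rwa [ek, detS_ev, ← ek] at this)
      (fun P hP => by
        have e : eval P (map (c.ev k) (∏ j, detS t (y j) (pderiv none (g j)))) =
            ∏ j, eval (fun o : Option κ => o.elim (eval P (y j)) fun i => eval P (t i))
              (pderiv none (map (c.ev k) (g j))) := by
          rw [ek, map_prod]
          exact prod_congr rfl fun j _ => by rw [detS_ev, pderiv_map, ek]; rfl
        rw [← e]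
        exact ⟨(mem_filter.1 hP).2, (hC k P (hT k P (mem_filter.1 hP).1)).trans
          (by exact_mod_cast x1)⟩)
      (fun z P hP => hA _ P (hT k P (mem_filter.1 hP).1) z) x2
    refine ⟨(S, a), s1.trans (filter_subset _ _), a1, a2, a0, le_trans ?_
      (mul_le_mul_of_nonneg_right x3 (Nat.cast_nonneg _))⟩
    have := k2.trans (Nat.mul_le_mul_left 2 s2)
    rw [mul_pow] at this
    exact_mod_cast this.trans_eq (by ring)
  obtain ⟨u, hu⟩ := key.choice
  let w : ℕ → Finset (σ → ℤ) × ((κ → Fin δ) × L → ℤ) := fun k =>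
    if (u k).1 ⊆ T k ∧ ∀ z, |(u k).2 z| ≤ (E * B k : ℕ) ^ E then u k else (∅, 0)
  have w1 : ∀ k, (w k).1 ⊆ T k ∧ ∀ z, |(w k).2 z| ≤ (E * B k : ℕ) ^ E := fun k => by
    simp only [w]
    split_ifs with h
    · exact h
    · exact ⟨empty_subset _, fun z => by simp only [Pi.zero_apply, abs_zero]; positivity⟩
  have w2 : ∀ᶠ k in (c.U : Filter ℕ), w k = u k := hu.mono fun k h => if_pos ⟨h.1, h.2.1⟩
  let n : c.Bd := ⟨fun k => c.N k + 2, 1, fun k => by rw [pow_one, abs_of_nonneg (by positivity)]⟩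
  let a : (κ → Fin δ) × L → c.Bd := fun z => ⟨fun k => (w k).2 z,
    det_mem c ((E * (A * n) ^ ((Fintype.card κ + 1) * δ)) ^ E) fun k => ((w1 k).2 z).trans_eq (by
      simp only [map_pow, map_mul, map_natCast, B]
      push_cast
      rfl)⟩
  refine ⟨fun k => (w k).1, fun k => (w1 k).1, ⟨map c.pi (∑ z : (κ → Fin δ) × L,
    ((∏ i, map (Int.castRingHom _) (t i) ^ (z.1 i : ℕ)) *
      ∏ j, map (Int.castRingHom _) (y j) ^ μ z.2 j) * MvPolynomial.C (a z)), fun h0 => ?_,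
    (c.van_iff (fun k P hP => hT k P ((w1 k).1 hP)) _).2 ?_⟩, ?_⟩
  · rw [ax] at h0
    simp only [map_sum, map_mul, map_prod, map_pow, det_cast, eval₂Hom_C] at h0
    have := Fintype.linearIndependent_iff.1 (hind.comp
      (fun z : (κ → Fin δ) × L => (fun i => (z.1 i : ℕ), z.2)) fun z z' e => Prod.ext
        (funext fun i => Fin.ext (congrFun (congrArg Prod.fst e) i)) (Prod.ext_iff.1 e).2)
      (fun z => c.pi (a z)) (by
        rw [← h0]
        exact sum_congr rfl fun z _ => by rw [Algebra.smul_def, mul_comm]; rfl)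
    obtain ⟨k, k1, k2, k3⟩ :=
      ((eventually_all.2 fun z => c.pi_eq_zero.1 (this z)).and (w2.and hu)).exists
    exact k3.2.2.2.1 (k2 ▸ funext k1)
  · filter_upwards [w2, hu] with k k2 k3 P hP
    rw [ek]
    simp only [map_sum, map_mul, map_prod, map_pow, det_cast, eval₂Hom_C]
    rw [← k2] at k3
    exact k3.2.2.1 P hP
  · filter_upwards [w2, hu] with k k2 k3
    rw [k2]
    exact k3.2.2.2.2

end Pool.Agent.Lib.MP_e5111b_co.Pc
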