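import Pool.Agent.Lib.MP_e5111b_co.Pc.Rank

set_option autoImplicit false

namespace Pool.Agent.Lib.MP_e5111b_co.Pc

open Filter MvPolynomial Finset

variable {F Ω : Type} [Field F] [CharZero F] [Field Ω] [Algebra F Ω]

omit [CharZero F] in
theorem gen_pt26 {κ : Type} (I : Ideal (MvPolynomial κ F)) [I.IsPrime] :
    ∃ (Ω' : Type) (_ : Field Ω') (_ : Algebra F Ω') (x' : κ → Ω'), ∀ H, aeval x' H = 0 ↔ H ∈ I := by
  let φ : MvPolynomial κ F →ₐ[F] FractionRing (MvPolynomial κ F ⧸ I) :=
    (IsScalarTower.toAlgHom F (MvPolynomial κ F ⧸ I) _).comp (Ideal.Quotient.mkₐ F I)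
  refine ⟨FractionRing (MvPolynomial κ F ⧸ I), inferInstance, inferInstance,
    fun i => φ (X i), fun H => ?_⟩
  have e : aeval (fun i => φ (X i)) = φ := (aeval_unique φ).symm
  rw [e]
  exact (map_eq_zero_iff _ (IsFractionRing.injective (MvPolynomial κ F ⧸ I)
    (FractionRing (MvPolynomial κ F ⧸ I)))).trans (Ideal.Quotient.eq_zero_iff_mem (I := I) (a := H))

omit [CharZero F] in
theorem ker_gen26 {ρ : ℕ} {z : Option (Fin ρ) → Ω} (hz : IsBas F z some) :
    ∃ G : MvPolynomial (Option (Fin ρ)) F, (∀ H, aeval z H = 0 ↔ G ∣ H) ∧ 1 ≤ degreeOf none G := by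
  have hP : (RingHom.ker (aeval z : MvPolynomial (Option (Fin ρ)) F →ₐ[F] Ω)).IsPrime :=
    RingHom.ker_isPrime _
  obtain ⟨G, hG, hp⟩ := hP.exists_mem_prime_of_ne_bot fun h => by
    have := card_le_of_alg (u := z) (v := fun j => z (some j))
      (algebraicIndependent_iff.2 fun H hH => by
        have : H ∈ RingHom.ker (aeval z : MvPolynomial (Option (Fin ρ)) F →ₐ[F] Ω) := hH
        rwa [h, Ideal.mem_bot] at this) hz.2
    simp at this
  have hG' : aeval z G = 0 := hG
  have : (Ideal.span {G}).IsPrime := (Ideal.span_singleton_prime hp.ne_zero).2 hp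
  obtain ⟨Ω1, _, _, x1, h1⟩ := gen_pt26 (Ideal.span {G})
  obtain ⟨Ω0, _, _, x0, h0⟩ := gen_pt26 (⊥ : Ideal (MvPolynomial (Option (Fin ρ)) F))
  obtain ⟨ρ1, b1, hb1⟩ := exists_bas (F := F) x1
  obtain ⟨ρ0, b0, hb0⟩ := exists_bas (F := F) x0
  simp only [Ideal.mem_span_singleton, Ideal.mem_bot] at h1 h0
  have l0 : ρ0 ≤ ρ + 1 := by
    simpa using card_le_of_alg (v := x0) hb0.1 fun j => rk_mem (Algebra.subset_adjoin ⟨_, rfl⟩)
  have l1 : ρ1 < ρ0 := drop (fun H hH => by rw [(h0 H).1 hH, map_zero])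
    (mt (h0 G).1 hp.ne_zero) ((h1 G).2 dvd_rfl) hb0 hb1
  have dv : ∀ H, G ∣ H → aeval z H = 0 := by
    rintro _ ⟨q, rfl⟩
    rw [map_mul, hG', zero_mul]
  refine ⟨G, fun H => ⟨fun hH => ?_, dv H⟩, ?_⟩
  · by_contra hn
    have := drop (fun H hH => dv H ((h1 H).1 hH)) (mt (h1 H).1 hn) hH hb1 hz
    omega
  · by_contra hn
    obtain ⟨q, rfl⟩ := exists_rename_eq_of_vars_subset_range G some (Option.some_injective _)
      fun o ho => by
        cases o with
        | none => exact absurd (mem_vars_iff_degreeOf_ne_zero.1 ho) (by omega)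
        | some j => exact ⟨j, rfl⟩
    rw [aeval_rename] at hG'
    exact hp.ne_zero (by rw [algebraicIndependent_iff.1 hz.1 q hG', map_zero])

theorem prim_el26 {K : Type} [Field K] [CharZero K] [Algebra K Ω] {σ : Type} [Fintype σ]
    (x : σ → Ω) (hx : ∀ i, IsAlgebraic K (x i)) :
    ∃ n : σ → ℤ, ∀ i, x i ∈ IntermediateField.adjoin K {∑ i, (n i : Ω) * x i} := by
  classical
  let E := IntermediateField.adjoin K (Set.range x)
  have : FiniteDimensional K E := IntermediateField.finiteDimensional_adjoin (by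
    rintro _ ⟨i, rfl⟩
    exact (hx i).isIntegral)
  let A := AlgebraicClosure K
  let a : σ → E := fun i => ⟨x i, IntermediateField.subset_adjoin _ _ ⟨i, rfl⟩⟩
  let l : (E →ₐ[K] A) × (E →ₐ[K] A) → MvPolynomial σ A := fun p =>
    ∑ i, C (p.1 (a i) - p.2 (a i)) * X i
  have hl : ∀ p (w : σ → A), eval w (l p) = ∑ i, (p.1 (a i) - p.2 (a i)) * w i := fun p w => by
    simp [l]
  have h0 : ∏ p ∈ univ.filter (fun p : (E →ₐ[K] A) × (E →ₐ[K] A) => p.1 ≠ p.2), l p ≠ 0 := by
    refine prod_ne_zero_iff.2 fun p hp h => (mem_filter.1 hp).2 ?_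
    refine IntermediateField.adjoin_algHom_ext K ?_
    rintro _ ⟨i, rfl⟩
    have := hl p (Pi.single i 1)
    rw [h, map_zero, sum_eq_single i (fun j _ hj => by simp [hj]) (by simp)] at this
    simp only [Pi.single_eq_same, mul_one] at this
    exact sub_eq_zero.1 this.symm
  have h1 : ∃ w ∈ Set.pi Set.univ (fun _ : σ => Set.range ((↑) : ℤ → A)),
      eval w (∏ p ∈ univ.filter (fun p : (E →ₐ[K] A) × (E →ₐ[K] A) => p.1 ≠ p.2), l p) ≠ 0 := by
    by_contra hn
    push Not at hn
    exact h0 (funext_set _ (fun _ => Set.infinite_range_of_injective Int.cast_injective)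
      fun w hw => by rw [hn w hw, map_zero])
  obtain ⟨w, hw, h1⟩ := h1
  choose n hn using fun i => hw i (Set.mem_univ i)
  have top := (Field.primitive_element_iff_algHom_eq_of_eval' K A
    (fun _ => IsAlgClosed.splits _) (∑ i, (n i : E) * a i)).2 fun φ ψ h => by
      by_contra hne
      rw [map_prod, prod_ne_zero_iff] at h1
      refine h1 (φ, ψ) (mem_filter.2 ⟨mem_univ _, hne⟩) ?_
      simp only [map_sum, map_mul, map_intCast, hn] at h
      rw [hl]
      refine (sum_congr rfl fun i _ => ?_).trans ((sum_sub_distrib _ _).trans (sub_eq_zero.2 h))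
      ring
  refine ⟨n, fun i => ?_⟩
  have e := congrArg IntermediateField.lift top
  rw [IntermediateField.lift_adjoin_simple, IntermediateField.lift_top] at e
  have e2 : ((∑ i, (n i : E) * a i : E) : Ω) = ∑ i, (n i : Ω) * x i := by
    simp [a]
  rw [e2] at e
  rw [e]
  exact (a i).2

/-- a hypersurface model with a primitive integral linear form -/
theorem prim {σ : Type} [Fintype σ] (x : σ → Ω) {ρ : ℕ} {b : Fin ρ → σ} (hb : IsBas F x b) :
    ∃ (n : σ → ℤ) (G g : MvPolynomial (Option (Fin ρ)) F)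
      (R : σ → MvPolynomial (Option (Fin ρ)) F),
      (∀ H, aeval (fun o => o.elim (∑ i, (n i : Ω) * x i) fun j => x (b j)) H = 0 ↔ G ∣ H) ∧
      1 ≤ degreeOf none G ∧
      aeval (fun o => o.elim (∑ i, (n i : Ω) * x i) fun j => x (b j)) g ≠ 0 ∧
      ∀ i, aeval (fun o => o.elim (∑ i, (n i : Ω) * x i) fun j => x (b j)) g * x i =
        aeval (fun o => o.elim (∑ i, (n i : Ω) * x i) fun j => x (b j)) (R i) := by
  classical
  have hK : ∀ i, IsAlgebraic (IntermediateField.adjoin F (Set.range fun j => x (b j))) (x i) :=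
    fun i => IntermediateField.isAlgebraic_adjoin_iff.2 (hb.2 i)
  obtain ⟨n, hn⟩ := prim_el26 x hK
  refine ⟨n, ?_⟩
  generalize hz : (fun o : Option (Fin ρ) => o.elim (∑ i, (n i : Ω) * x i) fun j => x (b j)) = z
  have z0 : z none = ∑ i, (n i : Ω) * x i := by rw [← hz]; rfl
  have z1 : (fun j => z (some j)) = fun j => x (b j) := by rw [← hz]; rfl
  have hB : IsBas F z some := by
    unfold IsBas
    rw [z1]
    refine ⟨hb.1, fun o => ?_⟩
    cases o with
    | some j => exact rk_mem (Algebra.subset_adjoin ⟨j, (congrFun z1 j).symm⟩)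
    | none =>
      rw [z0, ← IntermediateField.isAlgebraic_adjoin_iff, isAlgebraic_iff_isIntegral]
      exact IsIntegral.sum _ fun i _ => (isIntegral_intCast _).mul (hK i).isIntegral
  obtain ⟨G, hG, hd⟩ := ker_gen26 hB
  have hq : ∀ i, ∃ r s : MvPolynomial (Option (Fin ρ)) F, aeval z s ≠ 0 ∧
      aeval z s * x i = aeval z r := fun i => by
    have m : x i ∈ IntermediateField.adjoin F (Set.range z) := by
      have := hn i
      rw [← IntermediateField.mem_restrictScalars F, IntermediateField.adjoin_adjoin_left] at this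
      refine IntermediateField.adjoin.mono F _ _ ?_ this
      rintro w (⟨j, rfl⟩ | rfl)
      · exact ⟨some j, congrFun z1 j⟩
      · exact ⟨none, z0⟩
    obtain ⟨r, s, h⟩ := (IntermediateField.mem_adjoin_range_iff F z _).1 m
    by_cases h0 : aeval z s = 0
    · exact ⟨0, 1, by simp, by simp [h, h0]⟩
    · exact ⟨r, s, h0, by rw [h, mul_div_cancel₀ _ h0]⟩
  choose r s h0 h using hq
  refine ⟨G, ∏ i, s i, fun i => r i * ∏ j ∈ univ.erase i, s j, hG, hd, ?_, fun i => ?_⟩
  · rw [map_prod]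
    exact prod_ne_zero_iff.2 fun i _ => h0 i
  · rw [← mul_prod_erase univ s (mem_univ i), map_mul, map_mul, ← h i]
    ring

theorem pderiv_ne {κ : Type} {z : κ → Ω} {G : MvPolynomial κ F}
    (h : ∀ H, aeval z H = 0 ↔ G ∣ H) {v : κ} (hv : 1 ≤ degreeOf v G) :
    aeval z (pderiv v G) ≠ 0 := by
  intro h0
  obtain ⟨q, hq⟩ := (h _).1 h0
  have G0 : G ≠ 0 := ne_zero_of_degreeOf_ne_zero (i := v) (by omega)
  have lt : degreeOf v (pderiv v G) < degreeOf v G := (degreeOf_lt_iff hv).2 fun m hm => by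
    rw [mem_support_iff, coeff_pderiv] at hm
    have := monomial_le_degreeOf v (mem_support_iff.2 (left_ne_zero_of_mul hm))
    simpa using this
  have ne : pderiv v G ≠ 0 := fun e => by
    obtain ⟨m, hm, hs⟩ := exists_mem_eq_sup G.support (support_nonempty.2 G0) fun m => m v
    rw [← degreeOf_eq_sup] at hs
    have le : Finsupp.single v 1 ≤ m := Finsupp.single_le_iff.2 (by omega)
    have := coeff_pderiv (i := v) G (m - Finsupp.single v 1)
    rw [e, coeff_zero, tsub_add_cancel_of_le le] at this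
    exact mul_ne_zero (mem_support_iff.1 hm) (Nat.cast_add_one_ne_zero _) this.symm
  have q0 : q ≠ 0 := by
    rintro rfl
    exact ne (by rw [hq, mul_zero])
  rw [hq, degreeOf_mul_eq G0 q0] at lt
  omega

theorem indep_of_degree {κ : Type} [Fintype κ] {z : Option κ → Ω} {G : MvPolynomial (Option κ) F}
    (h : ∀ H, aeval z H = 0 → G ∣ H) {D : ℕ} (hD : D ≤ degreeOf none G) :
    LinearIndependent F fun p : (κ → ℕ) × Fin D =>
      (∏ i, z (some i) ^ p.1 i) * z none ^ (p.2 : ℕ) := by
  classical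
  let e : (κ → ℕ) × Fin D → Option κ →₀ ℕ := fun p =>
    Finsupp.equivFunOnFinite.symm fun o => o.elim (p.2 : ℕ) p.1
  have he : Function.Injective e := fun p q hpq => by
    have := Finsupp.equivFunOnFinite.symm.injective hpq
    exact Prod.ext (funext fun i => congrFun this (some i)) (Fin.ext (congrFun this none))
  rw [linearIndependent_iff']
  intro s g hg p hp
  have c : ∀ m, coeff m (∑ q ∈ s, monomial (e q) (g q)) = ∑ q ∈ s, if e q = m then g q else 0 :=
    fun m => by
      rw [coeff_sum]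
      simp only [coeff_monomial]
  obtain ⟨q, hq⟩ := h (∑ q ∈ s, monomial (e q) (g q)) (by
    rw [map_sum, ← hg]
    refine sum_congr rfl fun q _ => ?_
    rw [aeval_monomial, Finsupp.prod_fintype _ _ (by simp), Fintype.prod_option, Algebra.smul_def,
      mul_comm (z none ^ _)]
    rfl)
  have lt : degreeOf none (∑ q ∈ s, monomial (e q) (g q)) < D :=
    (degreeOf_lt_iff p.2.pos).2 fun m hm => by
      rw [mem_support_iff, c] at hm
      obtain ⟨q, -, hq⟩ := exists_ne_zero_of_sum_ne_zero hm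
      rw [← (ite_ne_right_iff.1 hq).1]
      exact q.2.2
  have G0 : G ≠ 0 := ne_zero_of_degreeOf_ne_zero (i := none) (by have := p.2.pos; omega)
  have q0 : q = 0 := by
    by_contra q0
    rw [hq, degreeOf_mul_eq G0 q0] at lt
    omega
  have := c (e p)
  rw [hq, q0, mul_zero, coeff_zero, sum_eq_single p (fun q _ hq => if_neg fun k => hq (he k))
    (fun k => absurd hp k), if_pos rfl] at this
  exact this.symm

end Pool.Agent.Lib.MP_e5111b_co.Pc
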