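import Pool.Agent.Lib.MP_e5111b_co.Pc.Defs

set_option autoImplicit false

namespace Pool.Agent.Lib.MP_e5111b_co.Pc

open Filter MvPolynomial Finset

/-- adjoining a square root -/
def Qadj {K : Type*} [Field K] (k : Subfield K) (y : K) (hy : y ^ 2 ∈ k) : Subfield K where
  carrier := {z | ∃ u ∈ k, ∃ v ∈ k, z = u + v * y}
  mul_mem' := by
    rintro _ _ ⟨u, hu, v, hv, rfl⟩ ⟨u', hu', v', hv', rfl⟩
    exact ⟨u * u' + v * v' * y ^ 2, add_mem (mul_mem hu hu') (mul_mem (mul_mem hv hv') hy),
      u * v' + v * u', add_mem (mul_mem hu hv') (mul_mem hv hu'), by ring⟩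
  one_mem' := ⟨1, one_mem _, 0, zero_mem _, by ring⟩
  add_mem' := by
    rintro _ _ ⟨u, hu, v, hv, rfl⟩ ⟨u', hu', v', hv', rfl⟩
    exact ⟨u + u', add_mem hu hu', v + v', add_mem hv hv', by ring⟩
  zero_mem' := ⟨0, zero_mem _, 0, zero_mem _, by ring⟩
  neg_mem' := by
    rintro _ ⟨u, hu, v, hv, rfl⟩
    exact ⟨-u, neg_mem hu, -v, neg_mem hv, by ring⟩
  inv_mem' := by
    rintro _ ⟨u, hu, v, hv, rfl⟩
    have hn : u ^ 2 - v ^ 2 * y ^ 2 ∈ k := sub_mem (pow_mem hu 2) (mul_mem (pow_mem hv 2) hy)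
    by_cases h0 : u + v * y = 0
    · exact ⟨0, zero_mem _, 0, zero_mem _, by simp [h0]⟩
    by_cases h1 : u - v * y = 0
    · have hu0 : u + v * y = 2 * u := by linear_combination -h1
      refine ⟨(2 * u)⁻¹, inv_mem (mul_mem (by exact_mod_cast natCast_mem k 2) hu), 0, zero_mem _, ?_⟩
      rw [hu0]; ring
    · have : u ^ 2 - v ^ 2 * y ^ 2 = (u + v * y) * (u - v * y) := by ring
      refine ⟨u / (u ^ 2 - v ^ 2 * y ^ 2), div_mem hu hn, -v / (u ^ 2 - v ^ 2 * y ^ 2),
        div_mem (neg_mem hv) hn, ?_⟩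
      rw [this]; field_simp; ring

theorem sq_indep {K : Type*} [Field K] [CharZero K] {ι : Type*} [DecidableEq ι] (y : ι → K) (s : Finset ι) :
    ∀ k : Subfield K, (∀ i ∈ s, y i ^ 2 ∈ k) → (∀ S ⊆ s, S.Nonempty → ∏ i ∈ S, y i ∉ k) →
      ∀ c : Finset ι → K, (∀ S, c S ∈ k) → ∑ S ∈ s.powerset, c S * ∏ i ∈ S, y i = 0 →
        ∀ S ⊆ s, c S = 0 := by
  induction s using Finset.induction_on with
  | empty => intro k _ _ c _ h S hS; rw [subset_empty.1 hS]; simpa using h
  | insert a s ha ih =>
    intro k h2 hn c hc h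
    have hya : y a ∉ k := by simpa using hn {a} (by simp) (by simp)
    have key : ∀ u ∈ k, ∀ v ∈ k, u + v * y a = 0 → u = 0 ∧ v = 0 := fun u hu v hv e => by
      by_cases v0 : v = 0
      · exact ⟨by simpa [v0] using e, v0⟩
      · refine absurd ?_ hya
        have : y a = -u / v := by field_simp; linear_combination e
        rw [this]; exact div_mem (neg_mem hu) hv
    have h2a := h2 a (mem_insert_self _ _)
    have := ih (Qadj k (y a) h2a)
      (fun i hi => ⟨_, h2 i (mem_insert_of_mem hi), 0, zero_mem _, by ring⟩) ?_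
      (fun S => c S + c (insert a S) * y a) (fun S => ⟨_, hc S, _, hc _, rfl⟩) ?_
    · intro S hS
      by_cases haS : a ∈ S
      · have := (key _ (hc _) _ (hc _) (this (S.erase a) (subset_insert_iff.1 hS))).2
        rwa [insert_erase haS] at this
      · exact (key _ (hc _) _ (hc _) (this S ((subset_insert_iff_of_notMem haS).1 hS))).1
    · rintro S hS hne ⟨u, hu, v, hv, e⟩
      have haS : a ∉ S := fun h => ha (hS h)
      have hq : (∏ i ∈ S, y i) ^ 2 ∈ k := by
        rw [← prod_pow]; exact prod_mem fun i hi => h2 i (mem_insert_of_mem (hS hi))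
      have := (key (u ^ 2 + v ^ 2 * y a ^ 2 - (∏ i ∈ S, y i) ^ 2)
        (sub_mem (add_mem (pow_mem hu 2) (mul_mem (pow_mem hv 2) h2a)) hq) (2 * (u * v))
        (mul_mem (by exact_mod_cast natCast_mem k 2) (mul_mem hu hv)) (by rw [e]; ring)).2
      rcases mul_eq_zero.1 ((mul_eq_zero.1 this).resolve_left two_ne_zero) with u0 | v0
      · refine hn (insert a S) (insert_subset_insert _ hS) (insert_nonempty _ _) ?_
        rw [prod_insert haS, e, u0, show y a * (0 + v * y a) = v * y a ^ 2 by ring]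
        exact mul_mem hv h2a
      · refine hn S (hS.trans (subset_insert _ _)) hne ?_
        rw [e, v0]; simpa using hu
    · rw [sum_powerset_insert ha, ← sum_add_distrib] at h
      rw [← h]
      refine sum_congr rfl fun S hS => ?_
      rw [prod_insert fun h => ha (mem_powerset.1 hS h)]; ring

open Polynomial in
theorem not_sq {L ι β : Type*} [Field L] [CharZero L] [Fintype β] [DecidableEq ι] [DecidableEq β]
    {q : ι → β → L[X]} (hs : ∀ i, (∏ b, q i b).Separable) (hd : ∀ i b, 0 < (q i b).natDegree)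
    {S : Finset (ι × β)} (hS : S.Nonempty) (D : MvPolynomial ι L) :
    ∏ j ∈ S, Polynomial.aeval (MvPolynomial.X j.1 : MvPolynomial ι L) (q j.1 j.2) ≠ D ^ 2 := by
  intro e
  obtain ⟨⟨i, b⟩, hj⟩ := hS
  have hl : ∀ i, ∃ l, (∏ b, q i b).eval l ≠ 0 := fun i => by
    by_contra h
    push Not at h
    exact (hs i).ne_zero (Polynomial.zero_of_eval_zero _ h)
  choose l hl using hl
  let φ : MvPolynomial ι L →ₐ[L] L[X] :=
    MvPolynomial.aeval fun i' => if i' = i then Polynomial.X else Polynomial.C (l i')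
  have e1 := congrArg φ e
  rw [map_prod, map_pow, ← prod_filter_mul_prod_filter_not S (fun j => j.1 = i)] at e1
  have e2 : ∏ j ∈ S with j.1 = i, φ (Polynomial.aeval (MvPolynomial.X j.1) (q j.1 j.2)) =
      ∏ j ∈ S with j.1 = i, q i j.2 := prod_congr rfl fun j hj => by
    rw [← Polynomial.aeval_algHom_apply]; simp [φ, (mem_filter.1 hj).2]
  have e3 : IsUnit (∏ j ∈ S with ¬j.1 = i,
      φ (Polynomial.aeval (MvPolynomial.X j.1) (q j.1 j.2))) :=
    IsUnit.prod_iff.2 fun j hj => by
      rw [← Polynomial.aeval_algHom_apply]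
      simp only [φ, MvPolynomial.aeval_X, if_neg (mem_filter.1 hj).2]
      rw [← Polynomial.algebraMap_eq, Polynomial.aeval_algebraMap_apply, Polynomial.algebraMap_eq,
        Polynomial.isUnit_C, isUnit_iff_ne_zero]
      have := hl j.1
      rw [Polynomial.eval_prod, prod_ne_zero_iff] at this
      simpa using this j.2 (mem_univ _)
  have e4 : ∏ j ∈ S with j.1 = i, q i j.2 ∣ ∏ b, q i b := by
    rw [← prod_image (s := S.filter fun j => j.1 = i) (g := Prod.snd) (f := q i)]
    · exact prod_dvd_prod_of_subset _ _ _ (subset_univ _)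
    · intro x hx z hz h
      exact Prod.ext ((mem_filter.1 hx).2.trans (mem_filter.1 hz).2.symm) h
  rw [e2] at e1
  have e5 : φ D * φ D ∣ ∏ b, q i b := by
    refine dvd_trans ?_ e4
    rw [← sq, ← e1]
    exact (e3.mul_right_dvd).2 dvd_rfl
  have e6 : IsUnit (φ D) := (hs i).squarefree _ e5
  have e7 : q i b ∣ φ D ^ 2 := by
    rw [← e1]
    exact (dvd_prod_of_mem (fun j : ι × β => q i j.2) (a := (i, b))
      (by simpa using hj)).mul_right _
  exact (hd i b).ne' (Polynomial.natDegree_eq_zero_of_isUnit (isUnit_of_dvd_unit e7 (e6.pow 2)))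

open Polynomial in
theorem quad_sep {K κ : Type*} [Field K] [Fintype κ] (u n : κ → K) (h1 : ∀ j, u j ^ 2 ≠ 4 * n j)
    (h2 : ∀ j l, j ≠ l → (n j - n l) ^ 2 + (u j - u l) * (u j * n l - u l * n j) ≠ 0) :
    (∏ j, (Polynomial.X ^ 2 - Polynomial.C (u j) * Polynomial.X + Polynomial.C (n j) :
      K[X])).Separable := by
  have key : ∀ (a b f g : K[X]) (r : K), r ≠ 0 → a * f + b * g = Polynomial.C r →
      IsCoprime f g := fun a b f g r hr e =>
    ⟨Polynomial.C r⁻¹ * a, Polynomial.C r⁻¹ * b, by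
      rw [mul_assoc, mul_assoc, ← mul_add, e, ← map_mul, inv_mul_cancel₀ hr, map_one]⟩
  refine Polynomial.separable_prod (fun j l h => ?_) fun j => ?_
  · refine key (Polynomial.C ((u l - u j) ^ 2) - (Polynomial.C (u l - u j) * Polynomial.X -
      Polynomial.C (n j - n l + (u l - u j) * u j))) (Polynomial.C (u l - u j) * Polynomial.X -
      Polynomial.C (n j - n l + (u l - u j) * u j)) _ _ _ (h2 j l h) ?_
    simp only [map_add, map_sub, map_mul, map_pow]
    ring
  · refine key 4 (-(2 * Polynomial.X - Polynomial.C (u j))) _ _ _ (sub_ne_zero.2 (h1 j).symm) ?_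
    simp only [map_add, map_sub, map_mul, map_pow, Polynomial.derivative_X_pow, map_ofNat,
      Polynomial.derivative_mul, Polynomial.derivative_C, Polynomial.derivative_X, Nat.cast_ofNat]
    ring

/-- square roots that are independent modulo squares -/
theorem quad_indep {K Ω : Type} [Field K] [CharZero K] [Field Ω] [Algebra K Ω] {ι : Type}
    [Fintype ι] [DecidableEq ι] (d : ι → Ω) (q : ι → K) (hd : ∀ i, d i ^ 2 = algebraMap K Ω (q i))
    (hq : ∀ J : Finset ι, J.Nonempty → ¬ IsSquare (∏ i ∈ J, q i)) :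
    LinearIndependent K fun J : Finset ι => ∏ i ∈ J, d i := by
  have : CharZero Ω := charZero_of_injective_algebraMap (algebraMap K Ω).injective
  refine Fintype.linearIndependent_iff.2 fun c h J => (algebraMap K Ω).injective ?_
  rw [map_zero]
  refine sq_indep d univ (algebraMap K Ω).fieldRange (fun i _ => ⟨_, (hd i).symm⟩)
    (fun J _ hJ ⟨z, hz⟩ => hq J hJ ⟨z, (algebraMap K Ω).injective ?_⟩)
    (fun J => algebraMap K Ω (c J)) (fun J => ⟨_, rfl⟩) (by simpa [Algebra.smul_def] using h) J
    (subset_univ _)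
  rw [map_mul, hz, map_prod, ← prod_mul_distrib]
  exact prod_congr rfl fun i _ => by rw [← hd, sq]

/-- square roots of pairwise coprime separable quadratics in independent variables -/
theorem free_indep {K Ω : Type} [Field K] [CharZero K] [Field Ω] [Algebra K Ω] {ι κ : Type}
    [Fintype ι] [Fintype κ] [DecidableEq ι] [DecidableEq κ] {a : ι → Ω}
    (ha : AlgebraicIndependent K a) (u : ι → κ → K) (n : κ → K) (h1 : ∀ i j, u i j ^ 2 ≠ 4 * n j)
    (h2 : ∀ i j l, j ≠ l →
      (n j - n l) ^ 2 + (u i j - u i l) * (u i j * n l - u i l * n j) ≠ 0)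
    (d : ι × κ → Ω) (hd : ∀ i j, d (i, j) ^ 2 =
      a i ^ 2 - algebraMap K Ω (u i j) * a i + algebraMap K Ω (n j)) :
    LinearIndependent K fun p : (ι → ℕ) × Finset (ι × κ) =>
      (∏ i, a i ^ p.1 i) * ∏ l ∈ p.2, d l := by
  have : CharZero Ω := charZero_of_injective_algebraMap (algebraMap K Ω).injective
  let q : ι → κ → Polynomial K := fun i j =>
    Polynomial.X ^ 2 - Polynomial.C (u i j) * Polynomial.X + Polynomial.C (n j)
  have hs : ∀ i, (∏ j, q i j).Separable := fun i => quad_sep (u i) n (h1 i) (h2 i)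
  have hg : ∀ i j, 0 < (q i j).natDegree := fun i j => by
    have : (q i j).natDegree = 2 := by simp only [q]; compute_degree!
    omega
  have hv : ∀ j : ι × κ, d j ^ 2 = aeval a
      (Polynomial.aeval (X j.1 : MvPolynomial ι K) (q j.1 j.2)) := fun j => by
    rw [← Polynomial.aeval_algHom_apply, aeval_X, hd j.1 j.2]; simp [q]
  let E := IntermediateField.adjoin K (Set.range a)
  have h2 : LinearIndependent E fun J : Finset (ι × κ) => ∏ l ∈ J, d l := by
    refine Fintype.linearIndependent_iff.2 fun c h J => Subtype.ext ?_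
    refine sq_indep d univ E.toSubfield (fun j _ => ?_) (fun T _ hT hm => ?_)
      (fun J => (c J : Ω)) (fun J => (c J).2) (by rw [powerset_univ]; exact h) J (subset_univ _)
    · exact (IntermediateField.mem_adjoin_range_iff K a _).2
        ⟨Polynomial.aeval (X j.1) (q j.1 j.2), 1, by rw [map_one, div_one, hv]⟩
    · obtain ⟨A, B, e⟩ := (IntermediateField.mem_adjoin_range_iff K a _).1 hm
      have e2 : (∏ j ∈ T, d j) ^ 2 = aeval a
          (∏ j ∈ T, Polynomial.aeval (X j.1 : MvPolynomial ι K) (q j.1 j.2)) := by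
        rw [← prod_pow, map_prod]; exact prod_congr rfl fun j _ => hv j
      by_cases hB : aeval a B = 0
      · refine not_sq hs hg hT 0 (ha ?_)
        rw [← e2, e, hB]; simp
      · have e3 : A ^ 2 =
            B ^ 2 * ∏ j ∈ T, Polynomial.aeval (X j.1 : MvPolynomial ι K) (q j.1 j.2) := by
          refine ha ?_
          rw [map_mul, ← e2, e, map_pow, map_pow]; field_simp
        obtain ⟨D, rfl⟩ := (IsIntegrallyClosed.pow_dvd_pow_iff two_ne_zero).1 ⟨_, e3⟩
        have B0 : B ≠ 0 := fun h => hB (by rw [h, map_zero])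
        refine not_sq hs hg hT D (mul_left_cancel₀ (pow_ne_zero 2 B0) ?_)
        rw [← e3]; ring
  have h3 : LinearIndependent K fun b : ι → ℕ => ∏ i, a i ^ b i := by
    have := ((basisMonomials ι K).linearIndependent.map' (aeval a).toLinearMap
      (LinearMap.ker_eq_bot.2 ha)).comp _ (Finsupp.equivFunOnFinite (α := ι) (M := ℕ)).symm.injective
    have e : (fun b : ι → ℕ => ∏ i, a i ^ b i) = ((aeval a).toLinearMap ∘ basisMonomials ι K) ∘
        (Finsupp.equivFunOnFinite (α := ι) (M := ℕ)).symm := funext fun b => by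
      simp [aeval_monomial, Finsupp.prod_fintype]
    rw [e]; exact this
  let m : (ι → ℕ) → E := fun b => ⟨∏ i, a i ^ b i, prod_mem fun i _ =>
      pow_mem (IntermediateField.subset_adjoin K _ (Set.mem_range_self i)) _⟩
  have h4 : LinearIndependent K m := LinearIndependent.of_comp E.val.toLinearMap h3
  exact linearIndependent_smul (R := K) (S := E) (A := Ω) h4 h2

end Pool.Agent.Lib.MP_e5111b_co.Pc
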