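import Mathlib

set_option autoImplicit false

/-! Paucity of realizations: definitions. -/

namespace Pool.Agent.Lib.MP_e5111b_co.Pc

open Filter MvPolynomial Finset

/-- an ultrafilter and a sequence of bounds tending to infinity along it -/
structure Ctx where
  U : Ultrafilter ℕ
  N : ℕ → ℕ
  hN : Tendsto N U atTop

namespace Ctx

variable (c : Ctx)

/-- integer sequences of polynomial size -/
def Bd : Subring (ℕ → ℤ) where
  carrier := {a | ∃ C : ℕ, ∀ k, |a k| ≤ ((c.N k : ℤ) + 2) ^ C}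
  mul_mem' := fun {a b} ⟨C, hC⟩ ⟨D, hD⟩ => ⟨C + D, fun k => by
    rw [Pi.mul_apply, abs_mul, pow_add]
    exact mul_le_mul (hC k) (hD k) (abs_nonneg _) (by positivity)⟩
  one_mem' := ⟨0, fun k => by simp⟩
  add_mem' := fun {a b} ⟨C, hC⟩ ⟨D, hD⟩ => ⟨C + D + 1, fun k => by
    have h1 : (1 : ℤ) ≤ (c.N k : ℤ) + 2 := by omega
    have h2 := pow_le_pow_right₀ h1 (Nat.le_add_right C D)
    have h3 := pow_le_pow_right₀ h1 (Nat.le_add_left D C)
    have h4 : (0 : ℤ) ≤ ((c.N k : ℤ) + 2) ^ (C + D) := by positivity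
    have h5 : (0 : ℤ) ≤ c.N k := by positivity
    have := abs_add_le (a k) (b k)
    rw [Pi.add_apply, pow_succ]
    nlinarith [hC k, hD k]⟩
  zero_mem' := ⟨0, fun k => by simp⟩
  neg_mem' := fun {a} ⟨C, hC⟩ => ⟨C, fun k => by simpa using hC k⟩

/-- the value at level `k` -/
def ev (k : ℕ) : c.Bd →+* ℤ := (Pi.evalRingHom (fun _ => ℤ) k).comp c.Bd.subtype

/-- sequences that vanish along the ultrafilter -/
def nul : Ideal c.Bd where
  carrier := {a | ∀ᶠ k in (c.U : Filter ℕ), c.ev k a = 0}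
  add_mem' := fun {a b} ha hb => (ha.and hb).mono fun k h => by rw [map_add, h.1, h.2, add_zero]
  zero_mem' := Eventually.of_forall fun k => map_zero _
  smul_mem' := fun a b hb => hb.mono fun k h => by rw [smul_eq_mul, map_mul, h, mul_zero]

instance : c.nul.IsPrime where
  ne_top' := fun h => by
    have h1 : (1 : c.Bd) ∈ c.nul := h ▸ Submodule.mem_top
    obtain ⟨k, hk⟩ := Eventually.exists h1
    simp at hk
  mem_or_mem' := fun {a b} h => Ultrafilter.eventually_or.1 (Eventually.mono h fun k hk => by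
    rwa [map_mul, mul_eq_zero] at hk)

/-- the field of sequences of rational numbers of polynomial height, modulo the ultrafilter -/
def F : Type := FractionRing (c.Bd ⧸ c.nul)

noncomputable instance : Field c.F := inferInstanceAs (Field (FractionRing (c.Bd ⧸ c.nul)))

/-- the class of a sequence -/
noncomputable def pi : c.Bd →+* c.F :=
  (algebraMap (c.Bd ⧸ c.nul) (FractionRing (c.Bd ⧸ c.nul))).comp (Ideal.Quotient.mk c.nul)

theorem pi_eq_zero {a : c.Bd} : c.pi a = 0 ↔ ∀ᶠ k in (c.U : Filter ℕ), c.ev k a = 0 :=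
  (map_eq_zero_iff _ (IsFractionRing.injective (c.Bd ⧸ c.nul)
    (FractionRing (c.Bd ⧸ c.nul)))).trans (Ideal.Quotient.eq_zero_iff_mem (I := c.nul) (a := a))

theorem pi_surj (z : c.F) : ∃ a b : c.Bd, c.pi b ≠ 0 ∧ c.pi b * z = c.pi a := by
  obtain ⟨a, b, hb, h⟩ := IsFractionRing.div_surjective (A := c.Bd ⧸ c.nul)
    (K := FractionRing (c.Bd ⧸ c.nul)) z
  obtain ⟨a, rfl⟩ := Ideal.Quotient.mk_surjective a
  obtain ⟨b, rfl⟩ := Ideal.Quotient.mk_surjective b
  have hb' : c.pi b ≠ 0 := (map_ne_zero_iff _ (IsFractionRing.injective (c.Bd ⧸ c.nul)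
    (FractionRing (c.Bd ⧸ c.nul)))).2 (nonZeroDivisors.ne_zero hb)
  exact ⟨a, b, hb', by rw [← h]; exact mul_div_cancel₀ (c.pi a) hb'⟩

instance : CharZero c.F := charZero_of_inj_zero fun n h => by
  rw [← map_natCast c.pi, pi_eq_zero] at h
  obtain ⟨k, hk⟩ := h.exists
  rw [map_natCast] at hk
  exact_mod_cast hk

variable {σ : Type}

/-- all points of `T k` lie in the box of size `N k` -/
def Box (T : ℕ → Finset (σ → ℤ)) : Prop := ∀ k, ∀ P ∈ T k, ∀ i, |P i| ≤ c.N k

/-- the internal set of the family `T` -/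
def star (T : ℕ → Finset (σ → ℤ)) : Set (σ → c.F) :=
  {z | ∃ ξ : σ → c.Bd, (∀ᶠ k in (c.U : Filter ℕ), (fun i => c.ev k (ξ i)) ∈ T k) ∧
    z = fun i => c.pi (ξ i)}

/-- `H` vanishes on the internal set of `T` -/
def Van (T : ℕ → Finset (σ → ℤ)) (H : MvPolynomial σ c.F) : Prop := ∀ z ∈ c.star T, eval z H = 0

variable {Ω : Type} [Field Ω] [Algebra c.F Ω]

/-- `x` is a generic point of the internal set of `T` -/
def Gen (T : ℕ → Finset (σ → ℤ)) (x : σ → Ω) : Prop := ∀ H, aeval x H = 0 ↔ c.Van T H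

/-- a subfamily that loses at most the factor `N ^ e` lies on a new hypersurface -/
def Out (T : ℕ → Finset (σ → ℤ)) (x : σ → Ω) (e : ℝ) : Prop :=
  ∃ T' : ℕ → Finset (σ → ℤ), (∀ k, T' k ⊆ T k) ∧
    (∃ H : MvPolynomial σ c.F, aeval x H ≠ 0 ∧ c.Van T' H) ∧
    ∀ᶠ k in (c.U : Filter ℕ), (#(T k) : ℝ) ≤ (c.N k : ℝ) ^ e * #(T' k)

end Ctx

/-- the coordinates `b` form a transcendence basis for the point `x` -/
def IsBas (F : Type) [Field F] {Ω : Type} [Field Ω] [Algebra F Ω] {σ : Type} (x : σ → Ω) {ρ : ℕ}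
    (b : Fin ρ → σ) : Prop :=
  AlgebraicIndependent F (fun j => x (b j)) ∧
    ∀ i, IsAlgebraic (Algebra.adjoin F (Set.range fun j => x (b j))) (x i)

end Pool.Agent.Lib.MP_e5111b_co.Pc
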