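import Pool.Agent.Lib.MP_e5111b_co.Pc.Ult

set_option autoImplicit false

namespace Pool.Agent.Lib.MP_e5111b_co.Pc

open Filter MvPolynomial Finset

namespace Ctx

variable (c : Ctx) {σ : Type}
variable {Ω : Type} [Field Ω] [Algebra c.F Ω] {T : ℕ → Finset (σ → ℤ)} {x : σ → Ω}

/-- the ideal of an internal set -/
def vanI (T : ℕ → Finset (σ → ℤ)) : Ideal (MvPolynomial σ c.F) where
  carrier := {H | c.Van T H}
  add_mem' := fun {a b} ha hb z hz => by rw [map_add, ha z hz, hb z hz, add_zero]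
  zero_mem' := fun z _ => map_zero _
  smul_mem' := fun a b hb z hz => by rw [smul_eq_mul, map_mul, hb z hz, mul_zero]

theorem Box.sub26 {T' : ℕ → Finset (σ → ℤ)} (hT : c.Box T) (h : ∀ k, T' k ⊆ T k) : c.Box T' :=
  fun k P hP => hT k P (h k hP)

theorem Van.sub26 {T' : ℕ → Finset (σ → ℤ)} {H : MvPolynomial σ c.F} (hH : c.Van T H)
    (h : ∀ k, T' k ⊆ T k) : c.Van T' H :=
  fun z ⟨ξ, h1, h2⟩ => hH z ⟨ξ, h1.mono fun k hk => h k hk, h2⟩

theorem pt26 (hT : c.Box T) (P : ℕ → σ → ℤ) :
    ∃ ξ : σ → c.Bd, ∀ k, P k ∈ T k → (fun i => c.ev k (ξ i)) = P k := by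
  classical
  refine ⟨fun i => ⟨fun k => if P k ∈ T k then P k i else 0, 1, fun k => ?_⟩, fun k hk => ?_⟩
  · by_cases h : P k ∈ T k
    · have := hT k _ h i
      simp only [if_pos h, pow_one]
      omega
    · simp only [if_neg h, pow_one, abs_zero]
      omega
  · funext i
    exact if_pos hk

theorem big26 {e : ℝ} (he : 0 < e) (K : ℝ) : ∀ᶠ k in (c.U : Filter ℕ), K ≤ (c.N k : ℝ) ^ e :=
  ((tendsto_rpow_atTop he).comp (tendsto_natCast_atTop_atTop.comp c.hN)).eventually_ge_atTop K

theorem prime26 (hT : c.Box T) (hne : ∀ᶠ k in (c.U : Filter ℕ), (T k).Nonempty)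
    (hm : ∀ T' : ℕ → Finset (σ → ℤ), (∀ k, T' k ⊆ T k) →
      (∀ᶠ k in (c.U : Filter ℕ), #(T k) ≤ 2 * #(T' k)) → ∀ H, c.Van T' H → c.Van T H) :
    (c.vanI T).IsPrime := by
  classical
  refine ⟨fun h => ?_, fun {A B} h => ?_⟩
  · have h1 : c.Van T (map c.pi 1) := by
      rw [map_one]
      exact (Ideal.eq_top_iff_one _).1 h
    obtain ⟨k, ⟨P, hP⟩, hk⟩ := (hne.and ((c.van_iff hT 1).1 h1)).exists
    simpa using hk P hP
  · obtain ⟨b, g, hb, hg⟩ := c.clear (fun l : Bool => if l then A else B)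
    have key : ∀ l, (∀ᶠ k in (c.U : Filter ℕ),
        #(T k) ≤ 2 * #((T k).filter fun P => eval P (map (c.ev k) (g l)) = 0)) →
        (if l then A else B) ∈ c.vanI T := fun l hl => by
      have s : ∀ k, ((T k).filter fun P => eval P (map (c.ev k) (g l)) = 0) ⊆ T k :=
        fun k => filter_subset _ _
      have := hm _ s hl _ ((c.van_iff (Box.sub26 c hT s) (g l)).2
        (Eventually.of_forall fun k P hP => (mem_filter.1 hP).2))
      rw [(hg l).1] at this
      intro z hz
      have := this z hz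
      rw [map_mul, eval_C] at this
      exact (mul_eq_zero.1 this).resolve_left hb
    have h1 : c.Van T (map c.pi (g true * g false)) := by
      intro z hz
      have := h z hz
      rw [map_mul] at this
      rw [map_mul, (hg true).1, (hg false).1]
      simp only [map_mul, if_true, Bool.false_eq_true, if_false]
      linear_combination (eval z (C (c.pi b)) * eval z (C (c.pi b))) * this
    have h2 : ∀ᶠ k in (c.U : Filter ℕ),
        #(T k) ≤ 2 * #((T k).filter fun P => eval P (map (c.ev k) (g true)) = 0) ∨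
        #(T k) ≤ 2 * #((T k).filter fun P => eval P (map (c.ev k) (g false)) = 0) := by
      filter_upwards [(c.van_iff hT _).1 h1] with k hk
      have s : T k ⊆ ((T k).filter fun P => eval P (map (c.ev k) (g true)) = 0) ∪
          ((T k).filter fun P => eval P (map (c.ev k) (g false)) = 0) := fun P hP => by
        have := hk P hP
        rw [map_mul, map_mul, mul_eq_zero] at this
        simp only [mem_union, mem_filter]
        tauto
      have := (card_le_card s).trans (card_union_le _ _)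
      omega
    exact (Ultrafilter.eventually_or.1 h2).imp (key true) (key false)

/-- a subfamily of positive proportion has a generic point -/
theorem refine [Finite σ] (hT : c.Box T) (hne : ∀ᶠ k in (c.U : Filter ℕ), (T k).Nonempty) :
    ∃ (T' : ℕ → Finset (σ → ℤ)) (K : ℕ) (Ω' : Type) (_ : Field Ω') (_ : Algebra c.F Ω')
      (x' : σ → Ω'), (∀ k, T' k ⊆ T k) ∧ c.Gen T' x' ∧
      ∀ᶠ k in (c.U : Filter ℕ), #(T k) ≤ K * #(T' k) := by
  obtain ⟨_, ⟨T', s, ⟨K, hK⟩, rfl⟩, hm⟩ := set_has_maximal_iff_noetherian.2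
    (inferInstanceAs (IsNoetherian (MvPolynomial σ c.F) (MvPolynomial σ c.F)))
    {I | ∃ T' : ℕ → Finset (σ → ℤ), (∀ k, T' k ⊆ T k) ∧
      (∃ K : ℕ, ∀ᶠ k in (c.U : Filter ℕ), #(T k) ≤ K * #(T' k)) ∧ I = c.vanI T'}
    ⟨_, T, fun _ => Subset.rfl, ⟨1, Eventually.of_forall fun k => by omega⟩, rfl⟩
  have hp : (c.vanI T').IsPrime := by
    refine c.prime26 (Box.sub26 c hT s) ?_ fun T'' s' h H hH => ?_
    · filter_upwards [hne, hK] with k a b
      rw [← card_pos] at a ⊢
      by_contra h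
      rw [Nat.eq_zero_of_not_pos h, mul_zero] at b
      omega
    · have le : c.vanI T' ≤ c.vanI T'' := fun H hH => Van.sub26 c hH s'
      have := hm (c.vanI T'') ⟨T'', fun k => (s' k).trans (s k), ⟨K * 2, by
        filter_upwards [hK, h] with k a b
        rw [mul_assoc]
        exact a.trans (Nat.mul_le_mul_left K b)⟩, rfl⟩
      have e : c.vanI T' = c.vanI T'' := le.eq_of_not_lt this
      have hH' : H ∈ c.vanI T'' := hH
      rwa [← e] at hH'
  let φ : MvPolynomial σ c.F →ₐ[c.F] FractionRing (MvPolynomial σ c.F ⧸ c.vanI T') :=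
    (IsScalarTower.toAlgHom c.F (MvPolynomial σ c.F ⧸ c.vanI T') _).comp
      (Ideal.Quotient.mkₐ c.F (c.vanI T'))
  refine ⟨T', K, FractionRing (MvPolynomial σ c.F ⧸ c.vanI T'), inferInstance, inferInstance,
    fun i => φ (X i), s, fun H => ?_, hK⟩
  have e : aeval (fun i => φ (X i)) = φ := (aeval_unique φ).symm
  rw [e]
  exact (map_eq_zero_iff _ (IsFractionRing.injective (MvPolynomial σ c.F ⧸ c.vanI T')
    (FractionRing (MvPolynomial σ c.F ⧸ c.vanI T')))).trans
      (Ideal.Quotient.eq_zero_iff_mem (I := c.vanI T') (a := H))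

/-- either a hypersurface holds half of the points, or it misses half of them -/
theorem half (hT : c.Box T) (g : MvPolynomial σ c.Bd) (hg : aeval x (map c.pi g) ≠ 0) {e : ℝ}
    (he : 0 < e) : c.Out T x e ∨ ∀ᶠ k in (c.U : Filter ℕ),
      #(T k) ≤ 2 * #((T k).filter fun P => eval P (map (c.ev k) g) ≠ 0) := by
  have h2 : ∀ᶠ k in (c.U : Filter ℕ),
      #(T k) ≤ 2 * #((T k).filter fun P => eval P (map (c.ev k) g) = 0) ∨
      #(T k) ≤ 2 * #((T k).filter fun P => eval P (map (c.ev k) g) ≠ 0) :=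
    Eventually.of_forall fun k => by
      have := card_filter_add_card_filter_not (s := T k) fun P => eval P (map (c.ev k) g) = 0
      simp only [ne_eq]
      omega
  refine (Ultrafilter.eventually_or.1 h2).imp_left fun h => ?_
  have s : ∀ k, ((T k).filter fun P => eval P (map (c.ev k) g) = 0) ⊆ T k :=
    fun k => filter_subset _ _
  refine ⟨_, s, ⟨_, hg, (c.van_iff (Box.sub26 c hT s) g).2
    (Eventually.of_forall fun k P hP => (mem_filter.1 hP).2)⟩, ?_⟩
  filter_upwards [h, c.big26 he 2] with k a b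
  exact le_trans (by exact_mod_cast a) (mul_le_mul_of_nonneg_right b (Nat.cast_nonneg _))

theorem Out.mono {e e' : ℝ} (h : c.Out T x e) (he : e ≤ e') : c.Out T x e' := by
  obtain ⟨T', s, hH, h⟩ := h
  refine ⟨T', s, hH, ?_⟩
  filter_upwards [h, c.hN.eventually_ge_atTop 1] with k a b
  exact a.trans (mul_le_mul_of_nonneg_right
    (Real.rpow_le_rpow_of_exponent_le (by exact_mod_cast b) he) (Nat.cast_nonneg _))

/-- a bounded family whose generic point has a transcendental coordinate -/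
theorem out_of_card (hT : c.Box T) (hx : c.Gen T x) {i : σ} (hi : Transcendental c.F (x i))
    {K : ℕ} (hK : ∀ᶠ k in (c.U : Filter ℕ), #(T k) ≤ K) {e : ℝ} (he : 0 < e) : c.Out T x e := by
  classical
  have h : ∀ k, (T k).Nonempty → ∃ P, P ∈ T k := fun k hk => hk
  choose! P hP using h
  obtain ⟨ξ, hξ⟩ := c.pt26 hT P
  have s : ∀ k, ((T k).filter fun Q => Q = P k) ⊆ T k := fun k => filter_subset _ _
  refine ⟨_, s, ⟨map c.pi (X i - C (ξ i)), fun h0 => hi ?_,
    (c.van_iff (Box.sub26 c hT s) _).2 (Eventually.of_forall fun k Q hQ => ?_)⟩, ?_⟩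
  · rw [map_sub, map_X, map_C, map_sub, aeval_X, aeval_C, sub_eq_zero] at h0
    rw [h0]
    exact isAlgebraic_algebraMap _
  · obtain ⟨a, rfl⟩ := mem_filter.1 hQ
    rw [map_sub, map_X, map_C, map_sub, eval_X, eval_C, congrFun (hξ k a) i, sub_self]
  · filter_upwards [hK, c.big26 he K, Gen.nonempty c hx] with k a b d
    have : 1 ≤ #((T k).filter fun Q => Q = P k) :=
      card_pos.2 ⟨P k, mem_filter.2 ⟨hP k d, rfl⟩⟩
    exact (le_trans (by exact_mod_cast a) b).trans
      (le_mul_of_one_le_right (by positivity) (by exact_mod_cast this))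

theorem star_eq26 (hx : c.Gen T x) {i : σ} (ha : IsAlgebraic c.F (x i)) {z z' : σ → c.F}
    (hz : z ∈ c.star T) (hz' : z' ∈ c.star T) : z i = z' i := by
  have hi := minpoly.irreducible ha.isIntegral
  have h0 : c.Van T (Polynomial.aeval (X i) (minpoly c.F (x i))) := by
    refine (hx _).1 ?_
    rw [← Polynomial.aeval_algHom_apply, aeval_X, minpoly.aeval]
  have r : ∀ w ∈ c.star T, (minpoly c.F (x i)).IsRoot (w i) := fun w hw => by
    have := h0 w hw
    rw [← coe_aeval_eq_eval, RingHom.coe_coe, ← Polynomial.aeval_algHom_apply, aeval_X,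
      Polynomial.coe_aeval_eq_eval] at this
    exact this
  have d := Polynomial.degree_eq_one_of_irreducible_of_root hi (r z hz)
  have a := r z hz
  have b := r z' hz'
  rw [Polynomial.eq_X_add_C_of_degree_eq_one d, (minpoly.monic ha.isIntegral).leadingCoeff] at a b
  simp only [Polynomial.IsRoot.def, Polynomial.eval_add, Polynomial.eval_mul, Polynomial.eval_C,
    Polynomial.eval_X] at a b
  linear_combination a - b

/-- an algebraic generic point is a single point -/
theorem card_le_one [Finite σ] (hT : c.Box T) (hx : c.Gen T x)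
    (ha : ∀ i, IsAlgebraic c.F (x i)) : ∀ᶠ k in (c.U : Filter ℕ), #(T k) ≤ 1 := by
  by_contra hn
  have h1 := Ultrafilter.eventually_not.2 hn
  have h : ∀ k, ¬ #(T k) ≤ 1 → ∃ P : (σ → ℤ) × (σ → ℤ), P.1 ∈ T k ∧ P.2 ∈ T k ∧ P.1 ≠ P.2 :=
    fun k hk => by
      obtain ⟨a, ha, b, hb, hab⟩ := one_lt_card.1 (not_le.1 hk)
      exact ⟨(a, b), ha, hb, hab⟩
  choose! P hP using h
  obtain ⟨ξ, hξ⟩ := c.pt26 hT fun k => (P k).1
  obtain ⟨η, hη⟩ := c.pt26 hT fun k => (P k).2
  have m1 : (fun i => c.pi (ξ i)) ∈ c.star T :=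
    ⟨ξ, h1.mono fun k hk => by rw [hξ k (hP k hk).1]; exact (hP k hk).1, rfl⟩
  have m2 : (fun i => c.pi (η i)) ∈ c.star T :=
    ⟨η, h1.mono fun k hk => by rw [hη k (hP k hk).2.1]; exact (hP k hk).2.1, rfl⟩
  have e : ∀ᶠ k in (c.U : Filter ℕ), ∀ i, c.ev k (ξ i - η i) = 0 :=
    eventually_all.2 fun i => c.pi_eq_zero.1 (by
      rw [map_sub, sub_eq_zero]
      exact c.star_eq26 hx (ha i) m1 m2)
  obtain ⟨k, hk, he⟩ := (h1.and e).exists
  refine (hP k hk).2.2 ?_
  rw [← hξ k (hP k hk).1, ← hη k (hP k hk).2.1]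
  funext i
  rw [← sub_eq_zero, ← map_sub, he i]

end Ctx

end Pool.Agent.Lib.MP_e5111b_co.Pc
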