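import Pool.Agent.Lib.MP_e5111b_co.Pc.Near
import Pool.Agent.Lib.MP_e5111b_co.FG.Bridge

set_option autoImplicit false

namespace Pool.Agent.Lib.MP_e5111b_co.Pc

section

open Polynomial Filter Topology Set
open scoped Polynomial.Bivariate

lemma cv_cont (p : ℝ[X][Y]) : Continuous fun z : ℝ × ℝ => p.evalEval z.1 z.2 := by
  induction p using Polynomial.induction_on' with
  | add p q hp hq => simp only [evalEval_add]; exact hp.add hq
  | monomial n a =>
    simp only [← C_mul_X_pow_eq_monomial, evalEval_mul, evalEval_C, evalEval_pow, evalEval_X]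
    exact (a.continuous.comp continuous_fst).mul (continuous_snd.pow n)

/-- an irreducible factor through a simple point -/
lemma cv_factor {G : ℝ[X][Y]} {a b : ℝ} (h0 : G.evalEval a b = 0)
    (h1 : (derivative G).evalEval a b ≠ 0) :
    ∃ p, Irreducible p ∧ p ∣ G ∧ p.evalEval a b = 0 ∧ (derivative p).evalEval a b ≠ 0 := by
  have key : ∀ G : ℝ[X][Y], G ≠ 0 → G.evalEval a b = 0 →
      ∃ p, Irreducible p ∧ p ∣ G ∧ p.evalEval a b = 0 := fun G => by
    induction G using WfDvdMonoid.induction_on_irreducible with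
    | zero => simp
    | unit u hu => exact fun _ h => absurd h (hu.map (evalEvalRingHom a b)).ne_zero
    | mul q p q0 hp ih =>
      intro _ h
      rw [evalEval_mul, mul_eq_zero] at h
      rcases h with h | h
      · exact ⟨p, hp, dvd_mul_right _ _, h⟩
      · obtain ⟨r, r1, r2, r3⟩ := ih q0 h
        exact ⟨r, r1, r2.mul_left _, r3⟩
  obtain ⟨p, p1, ⟨q, rfl⟩, p3⟩ := key G (by rintro rfl; simp at h1) h0
  refine ⟨p, p1, dvd_mul_right _ _, p3, fun e => h1 ?_⟩
  rw [derivative_mul, evalEval_add, evalEval_mul, evalEval_mul, e, p3, zero_mul, zero_mul, add_zero]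

/-- real points near a simple point -/
lemma cv_near {p : ℝ[X][Y]} {a b : ℝ} (h0 : p.evalEval a b = 0)
    (h1 : (derivative p).evalEval a b ≠ 0) {V : Set (ℝ × ℝ)} (hV : V ∈ 𝓝 (a, b)) :
    ∀ᶠ t in 𝓝 a, ∃ y, (t, y) ∈ V ∧ p.evalEval t y = 0 := by
  wlog hp : 0 < (derivative p).evalEval a b generalizing p
  · simpa using this (p := -p) (by simp [h0]) (by simpa using h1)
      (by simpa using lt_of_le_of_ne (not_lt.1 hp) h1)
  obtain ⟨A, hA, B, hB, hAB⟩ := mem_nhds_prod_iff.1 hV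
  obtain ⟨l, u, hb, hlu⟩ := mem_nhds_iff_exists_Ioo_subset.1 hB
  have hd : HasDerivAt (fun y => p.evalEval a y) ((derivative p).evalEval a b) b := by
    simpa only [derivative_map, map_evalRingHom_eval] using (p.map (evalRingHom a)).hasDerivAt b
  have hs := (hasDerivAt_iff_tendsto_slope.1 hd).eventually (lt_mem_nhds hp)
  obtain ⟨y₁, s1, m1⟩ : ∃ y, 0 < slope (fun y => p.evalEval a y) b y ∧ y ∈ Ioo l b :=
    ((hs.filter_mono (nhdsLT_le_nhdsNE b)).and (Ioo_mem_nhdsLT hb.1)).exists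
  obtain ⟨y₂, s2, m2⟩ : ∃ y, 0 < slope (fun y => p.evalEval a y) b y ∧ y ∈ Ioo b u :=
    ((hs.filter_mono (nhdsGT_le_nhdsNE b)).and (Ioo_mem_nhdsGT hb.2)).exists
  rw [slope_def_field, h0, sub_zero] at s1 s2
  have n1 : p.evalEval a y₁ < 0 := (div_pos_iff.1 s1).elim (fun h => by linarith [h.2, m1.2]) (·.1)
  have n2 : 0 < p.evalEval a y₂ := (div_pos_iff.1 s2).elim (·.1) fun h => by linarith [h.2, m2.1]
  have c : ∀ y, Continuous fun t => p.evalEval t y := fun y =>
    (cv_cont p).comp (continuous_id.prodMk continuous_const)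
  filter_upwards [hA, (c y₁).continuousAt.eventually (gt_mem_nhds n1),
    (c y₂).continuousAt.eventually (lt_mem_nhds n2)] with t ht t1 t2
  obtain ⟨y, hy, e⟩ := intermediate_value_Ioo (m1.2.trans m2.1).le
    ((cv_cont p).comp (continuous_const.prodMk continuous_id) :
      Continuous fun y => p.evalEval t y).continuousOn ⟨t1, t2⟩
  exact ⟨y, hAB ⟨ht, hlu ⟨m1.1.trans hy.1, hy.2.trans m2.2⟩⟩, e⟩

lemma cv_swap (p : ℝ[X][Y]) (i j : ℕ) :
    ((Bivariate.swap p).coeff i).coeff j = (p.coeff j).coeff i := by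
  induction p using Polynomial.induction_on' with
  | add p q hp hq => simp only [map_add, coeff_add, hp, hq]
  | monomial n a =>
    rw [Bivariate.swap_monomial, coeff_mul_C, coeff_map, coeff_C_mul, coeff_X_pow, coeff_monomial]
    by_cases h : j = n
    · simp [h]
    · simp [h, Ne.symm h]

lemma cv_le {p : ℝ[X][Y]} {D : ℕ} :
    (Bivariate.swap p).natDegree ≤ D ↔ ∀ i, (p.coeff i).natDegree ≤ D := by
  simp only [natDegree_le_iff_coeff_eq_zero]
  exact ⟨fun h i N hN => by rw [← cv_swap, h N hN, coeff_zero],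
    fun h N hN => by ext i; rw [cv_swap, h i N hN, coeff_zero]⟩

/-- the degree in the first variable of a factor -/
lemma cv_deg {p G : ℝ[X][Y]} (hG : G ≠ 0) (h : p ∣ G) {D : ℕ}
    (hD : ∀ i, (G.coeff i).natDegree ≤ D) (i : ℕ) : (p.coeff i).natDegree ≤ D :=
  cv_le.1 ((natDegree_le_of_dvd (map_dvd Bivariate.swap h) (by simpa using hG)).trans
    (cv_le.2 hD)) i

end

open Filter MvPolynomial Finset

open Polynomial.Bivariate in
/-- a smooth real branch of bounded bidegree through a realization is radial -/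
theorem curve (D : ℕ) : ∃ m₀ : ℕ, ∀ u m, m₀ ≤ m → ∀ p : Polynomial (Polynomial ℝ),
    p.natDegree ≤ D → (∀ i, (p.coeff i).natDegree ≤ D) → ∀ s y : ℝ, p.evalEval s y = 0 →
    (Polynomial.derivative p).evalEval s y ≠ 0 →
    ∀ (g : Polynomial (Polynomial ℝ)) (R : Pt u m × Pt u m → Polynomial (Polynomial ℝ)),
    g.evalEval s y ≠ 0 → IsReal (fun i => (R i).evalEval s y / g.evalEval s y) →
    (∀ s' y', p.evalEval s' y' = 0 → ∀ r, rel (fun i => (R i).evalEval s' y') r = 0) →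
    ∃ I : Set (ℝ × ℝ), (Prod.fst '' I).Infinite ∧ ∀ z ∈ I, p.evalEval z.1 z.2 = 0 ∧
      g.evalEval z.1 z.2 ≠ 0 ∧ ∃ l : ℝ, ∀ i, (R i).evalEval z.1 z.2 / g.evalEval z.1 z.2 =
        l * ((R i).evalEval s y / g.evalEval s y) := by
  obtain ⟨m₀, hm⟩ := FG.final D
  refine ⟨m₀, fun u m hle p hd hc s y h0 h1 g R hg hR hrel => ?_⟩
  have hp : p ≠ 0 := by rintro rfl; simp at h1
  obtain ⟨q, q1, q2, q3, q4⟩ := cv_factor h0 h1
  set x : ℝ × ℝ → Pt u m × Pt u m → ℝ :=
    fun z i => (R i).evalEval z.1 z.2 / g.evalEval z.1 z.2 with hx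
  have hcx : ContinuousAt x (s, y) := continuousAt_pi.2 fun i =>
    (cv_cont (R i)).continuousAt.div (cv_cont g).continuousAt hg
  have hV : {z : ℝ × ℝ | g.evalEval z.1 z.2 ≠ 0 ∧ ((∀ r, rel (x z) r = 0) → IsReal (x z))} ∈
      nhds (s, y) :=
    ((cv_cont g).continuousAt.eventually_ne hg).and (hcx.eventually (IsReal.near hR))
  set I : Set (ℝ × ℝ) := {z | (g.evalEval z.1 z.2 ≠ 0 ∧
    ((∀ r, rel (x z) r = 0) → IsReal (x z))) ∧ q.evalEval z.1 z.2 = 0} with hI
  have hf : (Prod.fst '' I).Infinite := infinite_of_mem_nhds s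
    ((cv_near q3 q4 hV).mono fun t ⟨v, h2, h3⟩ => ⟨(t, v), ⟨h2, h3⟩, rfl⟩)
  have hz : ∀ z ∈ I, p.evalEval z.1 z.2 = 0 := fun z hz => by
    obtain ⟨w, rfl⟩ := q2
    rw [Polynomial.evalEval_mul, hz.2, zero_mul]
  have hre : ∀ z ∈ I, IsReal (x z) := fun z h => h.1.2 fun r => by
    obtain ⟨n, hn⟩ := rel_smul (fun i => (R i).evalEval z.1 z.2) (g.evalEval z.1 z.2)⁻¹ r
    rw [hrel _ _ (hz z h), mul_zero] at hn
    simpa only [hx, div_eq_inv_mul] using hn
  choose! X X1 X2 X3 using hre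
  have hs : (s, y) ∈ I := ⟨(mem_of_mem_nhds hV :), q3⟩
  refine ⟨I, hf, fun z h => ⟨hz z h, h.1.1, ?_⟩⟩
  obtain ⟨l, -, hl⟩ := hm q q1 ((Polynomial.natDegree_le_of_dvd q2 hp).trans hd)
    (cv_deg hp q2 hc) I (hf.of_image _) (fun z h => h.2) (Pt u m) (fun a z => X z a)
    (fun a b => R (a, b)) (fun _ _ => g)
    (fun z h a b => ⟨h.1.1, by rw [← abs_dist, X3 z h]⟩)
    (fun i j => .inr (i, Fin.castLE (hle.trans (Nat.le_add_right m 2)) j))
    (fun z h => ⟨fun i j j' e => by simpa using X1 z h e, by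
      obtain ⟨f, hf⟩ := X2 z h
      obtain ⟨o, v, l1, l2, l3⟩ := lines (X1 z h) hf
      exact ⟨o, v, l1, fun i j => l2 i _, l3⟩⟩) (s, y) hs z h
  exact ⟨l, fun i => by simpa only [X3 z h, X3 _ hs] using hl i.1 i.2⟩

end Pool.Agent.Lib.MP_e5111b_co.Pc
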