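import Pool.Agent.Lib.MP_f03f34_nt.Det

set_option autoImplicit false

namespace Pool.Agent.Lib.MP_e5111b_co.Pc

open Filter MvPolynomial Finset MP_f03f34_nt

lemma detA_choose (k r : ℕ) : (k + r).choose (r + 1) ≤ k ^ (r + 1) := by
  induction r with
  | zero => simp
  | succ r ih =>
    rcases Nat.eq_zero_or_pos k with rfl | hk
    · simp
    have h := Nat.add_one_mul_choose_eq (k + r) (r + 1)
    refine Nat.le_of_mul_le_mul_right ?_ (show 0 < r + 1 + 1 by omega)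
    rw [← add_assoc, ← h, pow_succ k (r + 1), mul_assoc, mul_comm]
    exact Nat.mul_le_mul ih (by nlinarith)

lemma detA_abs {ι : Type} [Fintype ι] [DecidableEq ι] (M : Matrix ι ι ℤ) {B : ℕ}
    (h : ∀ j i, |M j i| ≤ B) : |M.det| ≤ ((Fintype.card ι * B : ℕ) : ℤ) ^ Fintype.card ι := by
  have := Matrix.det_le (abv := AbsoluteValue.abs) (A := M) (x := (B : ℤ)) h
  refine le_trans this ?_
  rw [nsmul_eq_mul, Nat.cast_mul, mul_pow]
  exact mul_le_mul_of_nonneg_right (by exact_mod_cast Nat.factorial_le_pow _) (by positivity)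

/-- the determinant method in one residue class -/
theorem det_class {W κ ω L : Type} [Fintype κ] [Fintype ω] [Fintype L] [DecidableEq κ]
    (t : W → κ → ℤ) (y : W → ω → ℤ) (g : ω → MvPolynomial (Option κ) ℤ) (μ : L → ω → ℕ)
    {p γ δ B : ℕ} (hp : p.Prime) (hγ : 1 ≤ γ) (hδ : 1 ≤ δ) (hB : 1 ≤ B)
    (hL : 2 * γ ^ Fintype.card κ ≤ Fintype.card L)
    (hg : ∀ ξ j, eval (fun o => o.elim (y ξ j) (t ξ)) (g j) = 0)
    (hd : ∀ ξ j, ¬ (p : ℤ) ∣ eval (fun o => o.elim (y ξ j) (t ξ)) (pderiv none (g j)))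
    (hc : ∀ ξ ξ', (∀ i, (p : ℤ) ∣ t ξ i - t ξ' i) ∧ ∀ j, (p : ℤ) ∣ y ξ j - y ξ' j)
    (hf : ∀ (z : (κ → Fin δ) × L) ξ, |(∏ i, t ξ i ^ (z.1 i : ℕ)) * ∏ j, y ξ j ^ μ z.2 j| ≤ B)
    (hQ : (Fintype.card ((κ → Fin δ) × L) * B) ^ 2 < p ^ (γ * δ)) :
    ∃ c : (κ → Fin δ) × L → ℤ, c ≠ 0 ∧ (∀ z, |c z| ≤ (Fintype.card ((κ → Fin δ) × L) * B : ℕ) ^
      Fintype.card ((κ → Fin δ) × L)) ∧
      ∀ ξ, ∑ z, ((∏ i, t ξ i ^ (z.1 i : ℕ)) * ∏ j, y ξ j ^ μ z.2 j) * c z = 0 := by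
  classical
  have hL0 : 0 < Fintype.card L := lt_of_lt_of_le (by positivity) hL
  have : Nonempty L := Fintype.card_pos_iff.1 hL0
  have : Nonempty (Fin δ) := ⟨⟨0, hδ⟩⟩
  refine siegel (fun (z : (κ → Fin δ) × L) ξ =>
    (∏ i, t ξ i ^ (z.1 i : ℕ)) * ∏ j, y ξ j ^ μ z.2 j) hB hf fun pts => ?_
  obtain ⟨ξ₀⟩ : Nonempty W := ⟨pts (Classical.arbitrary _)⟩
  let e := Fintype.equivFin κ
  let τ : W → Fin (Fintype.card κ) → ℤ := fun ξ i => t ξ (e.symm i) - t ξ₀ (e.symm i)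
  have h1 : ∀ i, (fun ξ => t ξ i) ∈ Rp p τ := fun i =>
    par_mem (e i) (t ξ₀ i) fun ξ => by simp [τ]
  have h2 : ∀ j, (fun ξ => y ξ j) ∈ Rp p τ := fun j =>
    newton (η := fun ξ (o : Option κ) => o.elim (y ξ j) (t ξ)) (i := none)
      (x₀ := fun o => o.elim (y ξ₀ j) (t ξ₀)) (fun ξ => hg ξ j)
      (fun ξ o => by cases o; exacts [(hc ξ ξ₀).2 j, (hc ξ ξ₀).1 _])
      ((Nat.prime_iff_prime_int.1 hp).coprime_iff_not_dvd.2 (hd ξ₀ j)).symm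
      fun o ho => by cases o; exacts [absurd rfl ho, h1 _]
  have h3 : ∀ z : (κ → Fin δ) × L,
      (fun ξ => (∏ i, t ξ i ^ (z.1 i : ℕ)) * ∏ j, y ξ j ^ μ z.2 j) ∈ Rp p τ := fun z => by
    have := mul_mem (prod_mem (t := univ) fun i _ => pow_mem (h1 i) (z.1 i))
      (prod_mem (t := univ) fun j _ => pow_mem (h2 j) (μ z.2 j))
    refine (congrArg (· ∈ Rp p τ) (funext fun ξ => ?_)).mp this
    simp
  refine Int.eq_zero_of_abs_lt_dvd (dvd_det (fun ξ i => (hc ξ ξ₀).1 _) h3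
    (le_sum_deg (γ * δ)) pts) (lt_of_le_of_lt (detA_abs _ fun j i => hf j _) ?_)
  have hE : Fintype.card ((κ → Fin δ) × L) = δ ^ Fintype.card κ * Fintype.card L := by simp
  generalize Fintype.card ((κ → Fin δ) × L) = E at *
  have h4 : 2 * (γ * δ) ^ (Fintype.card κ + 1) ≤ γ * δ * E := by
    rw [hE, pow_succ, mul_pow]
    have := Nat.mul_le_mul_left (γ * δ * δ ^ Fintype.card κ) hL
    nlinarith
  have h5 := detA_choose (γ * δ) (Fintype.card κ)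
  have E0 : E ≠ 0 := by rw [hE]; positivity
  norm_cast
  refine lt_of_pow_lt_pow_left₀ 2 (Nat.zero_le _) ?_
  rw [← pow_mul, mul_comm E 2, pow_mul, ← pow_mul p]
  refine (Nat.pow_lt_pow_left hQ E0).trans_le ?_
  rw [← pow_mul]
  exact Nat.pow_le_pow_right hp.pos (by omega)

end Pool.Agent.Lib.MP_e5111b_co.Pc
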