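import Pool.Agent.Lib.MP_e5111b_co.Pc.GDefs

set_option autoImplicit false

namespace Pool.Agent.Lib.MP_e5111b_co.Pc

open Filter MvPolynomial Finset

variable {u m : ℕ} {x : Pt u m × Pt u m → ℝ}

theorem geo_cross {α β d1 d2 w1 w2 : ℝ} (hd : α * d1 + β * d2 = 0) (h0 : 0 < d1 ^ 2 + d2 ^ 2)
    (hw : 0 < α * w1 + β * w2) : d1 * w2 - d2 * w1 ≠ 0 := by
  intro hc
  have h1 : (α * w1 + β * w2) * (d1 ^ 2 + d2 ^ 2) = 0 := by
    linear_combination (w1 * d1 + w2 * d2) * hd + (β * d1 - α * d2) * hc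
  exact (mul_pos hw h0).ne' h1

theorem geo_par {α β d1 d2 w1 w2 z1 z2 : ℝ} (hd : α * d1 + β * d2 = 0)
    (h0 : 0 < d1 ^ 2 + d2 ^ 2) (hw : α * w1 + β * w2 = 0) (hz : 0 < α * z1 + β * z2) :
    ∃ s : ℝ, w1 = s * d1 ∧ w2 = s * d2 := by
  have hc : d1 * w2 - d2 * w1 = 0 := by
    have h1 : (α * z1 + β * z2) * (d1 * w2 - d2 * w1) = 0 := by
      linear_combination (z1 * w2 - z2 * w1) * hd + (z2 * d1 - z1 * d2) * hw
    exact (mul_eq_zero.1 h1).resolve_left hz.ne'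
  refine ⟨(w1 * d1 + w2 * d2) / (d1 ^ 2 + d2 ^ 2), ?_, ?_⟩
  · rw [div_mul_eq_mul_div, eq_div_iff h0.ne']
    linear_combination (-d2) * hc
  · rw [div_mul_eq_mul_div, eq_div_iff h0.ne']
    linear_combination d1 * hc

theorem geo_aff (f : ℂ →ᵃ[ℝ] ℝ) :
    ∃ α β : ℝ, ∀ z w : ℂ, f z - f w = α * (z.re - w.re) + β * (z.im - w.im) := by
  refine ⟨f.linear 1, f.linear Complex.I, fun z w => ?_⟩
  have h1 : f.linear (z - w) = f z - f w := f.linearMap_vsub z w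
  have h2 : z - w = (z.re - w.re) • (1 : ℂ) + (z.im - w.im) • Complex.I := by
    apply Complex.ext <;> simp
  rw [← h1, h2, map_add, map_smul, map_smul, smul_eq_mul, smul_eq_mul]
  ring

/-- real coordinates of a realization -/
theorem IsReal.coord (h : IsReal x) : ∃ p q : Pt u m → ℝ,
    (∀ a b, x (a, b) ^ 2 = (p a - p b) ^ 2 + (q a - q b) ^ 2) ∧
    (∀ a b, a ≠ b → 0 < (p a - p b) ^ 2 + (q a - q b) ^ 2) ∧
    (∀ e i, ∃ s : ℝ, p (.inr (e, i)) = p (.inr (e, 0)) + s * (p (.inr (e, 1)) - p (.inr (e, 0))) ∧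
      q (.inr (e, i)) = q (.inr (e, 0)) + s * (q (.inr (e, 1)) - q (.inr (e, 0)))) ∧
    (∀ e e', e' ≠ e → ∀ j l, (p (.inr (e, 1)) - p (.inr (e, 0))) *
      ((q (.inr (e', j)) - q (.inr (e, 0))) + (q (.inr (e', l)) - q (.inr (e, 0)))) -
      (q (.inr (e, 1)) - q (.inr (e, 0))) *
      ((p (.inr (e', j)) - p (.inr (e, 0))) + (p (.inr (e', l)) - p (.inr (e, 0)))) ≠ 0) := by
  obtain ⟨X, hX, ⟨f, hf⟩, hd⟩ := h
  have hsq : ∀ a b, x (a, b) ^ 2 = ((X a).re - (X b).re) ^ 2 + ((X a).im - (X b).im) ^ 2 := by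
    intro a b
    rw [← hd, Complex.dist_eq, Complex.sq_norm, Complex.normSq_apply]
    simp only [Complex.sub_re, Complex.sub_im]
    ring
  have hpos : ∀ a b, a ≠ b → 0 < ((X a).re - (X b).re) ^ 2 + ((X a).im - (X b).im) ^ 2 := by
    intro a b hab
    rw [← hsq, ← hd]
    exact pow_pos (dist_pos.2 (hX.ne hab)) 2
  have h10 : ∀ e : Fin 3, (Sum.inr (e, 1) : Pt u m) ≠ .inr (e, 0) := by
    intro e he
    simp at he
  refine ⟨fun a => (X a).re, fun a => (X a).im, hsq, hpos, ?_, ?_⟩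
  · intro e i
    obtain ⟨α, β, hα⟩ := geo_aff (f e)
    obtain ⟨e', he'⟩ := exists_ne e
    have a1 := hα (X (.inr (e, 1))) (X (.inr (e, 0)))
    have a2 := hα (X (.inr (e, i))) (X (.inr (e, 0)))
    have a3 := hα (X (.inr (e', 0))) (X (.inr (e, 0)))
    rw [(hf e e 0).1 rfl, sub_zero] at a1 a2 a3
    rw [(hf e e 1).1 rfl] at a1
    rw [(hf e e i).1 rfl] at a2
    have a4 := (hf e e' 0).2 he'
    rw [a3] at a4
    obtain ⟨s, h1, h2⟩ := geo_par a1.symm (hpos _ _ (h10 e)) a2.symm a4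
    exact ⟨s, by linarith, by linarith⟩
  · intro e e' he j l
    obtain ⟨α, β, hα⟩ := geo_aff (f e)
    have a1 := hα (X (.inr (e, 1))) (X (.inr (e, 0)))
    have a2 := hα (X (.inr (e', j))) (X (.inr (e, 0)))
    have a3 := hα (X (.inr (e', l))) (X (.inr (e, 0)))
    rw [(hf e e 0).1 rfl, sub_zero] at a1 a2 a3
    rw [(hf e e 1).1 rfl] at a1
    have a4 := (hf e e' j).2 he
    have a5 := (hf e e' l).2 he
    rw [a2] at a4
    rw [a3] at a5
    exact geo_cross a1.symm (hpos _ _ (h10 e)) (by linarith)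

section
variable {p q : Pt u m → ℝ} (hs : ∀ a b, x (a, b) ^ 2 = (p a - p b) ^ 2 + (q a - q b) ^ 2)
include hs

theorem geo_ell (e : Fin 3) : ell x e ^ 2 =
    (p (.inr (e, 1)) - p (.inr (e, 0))) ^ 2 + (q (.inr (e, 1)) - q (.inr (e, 0))) ^ 2 := by
  rw [ell, hs]
  ring

theorem geo_fe (e : Fin 3) (a : Pt u m) : fe x e a =
    2 * ((p a - p (.inr (e, 0))) * (p (.inr (e, 1)) - p (.inr (e, 0))) +
      (q a - q (.inr (e, 0))) * (q (.inr (e, 1)) - q (.inr (e, 0)))) := by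
  simp only [fe, ft, hs]
  ring

theorem geo_hh (a : Pt u m) : hh x a =
    4 * ((p (.inr (0, 1)) - p (.inr (0, 0))) * (q a - q (.inr (0, 0))) -
      (q (.inr (0, 1)) - q (.inr (0, 0))) * (p a - p (.inr (0, 0)))) *
    ((p (.inr (0, 1)) - p (.inr (0, 0))) * (q (.inr (1, 0)) - q (.inr (0, 0))) -
      (q (.inr (0, 1)) - q (.inr (0, 0))) * (p (.inr (1, 0)) - p (.inr (0, 0)))) := by
  rw [hh, geo_ell hs, geo_fe hs, geo_fe hs]
  simp only [ft, hs]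
  ring

end

theorem IsReal.rel (h : IsReal x) (r : (Pt u m × Pt u m) ⊕ (Fin 3 × Fin (m + 2))) :
    rel x r = 0 := by
  obtain ⟨p, q, hs, -, hl, -⟩ := h.coord
  rcases r with ⟨a, b⟩ | ⟨e, i⟩
  · simp only [Pc.rel, psi, geo_hh hs, geo_fe hs, geo_ell hs, hs]
    ring
  · obtain ⟨s, h1, h2⟩ := hl e i
    simp only [Pc.rel, chi, geo_hh hs, geo_fe hs]
    rw [h1, h2]
    ring

theorem IsReal.pos (h : IsReal x) {a b : Pt u m} (hab : a ≠ b) : 0 < x (a, b) := by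
  obtain ⟨X, hX, -, hd⟩ := h
  rw [← hd]
  exact dist_pos.2 (hX.ne hab)

theorem IsReal.diag (h : IsReal x) (a : Pt u m) : x (a, a) = 0 := by
  obtain ⟨X, -, -, hd⟩ := h
  rw [← hd, dist_self]

theorem IsReal.f1 (h : IsReal x) (e : Fin 3) (i : Fin (m + 2)) :
    fe x e (.inr (e, i)) ^ 2 = 4 * ell x e ^ 2 * x (.inr (e, i), .inr (e, 0)) ^ 2 := by
  obtain ⟨p, q, hs, -, hl, -⟩ := h.coord
  obtain ⟨s, h1, h2⟩ := hl e i
  rw [geo_fe hs, geo_ell hs, hs, h1, h2]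
  ring

theorem IsReal.f2 (h : IsReal x) (e : Fin 3) (i : Fin (m + 2)) (b : Pt u m) :
    2 * ell x e ^ 2 * x (.inr (e, i), b) ^ 2 =
      2 * ell x e ^ 2 * (x (.inr (e, i), .inr (e, 0)) ^ 2 + x (b, .inr (e, 0)) ^ 2) -
        fe x e (.inr (e, i)) * fe x e b := by
  obtain ⟨p, q, hs, -, hl, -⟩ := h.coord
  obtain ⟨s, h1, h2⟩ := hl e i
  rw [geo_fe hs, geo_fe hs, geo_ell hs, hs, hs, hs, h1, h2]
  ring

theorem IsReal.f3 (h : IsReal x) {e e' : Fin 3} (he : e' ≠ e) (j : Fin (m + 2)) :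
    fe x e (.inr (e', j)) ^ 2 < 4 * ell x e ^ 2 * x (.inr (e', j), .inr (e, 0)) ^ 2 := by
  obtain ⟨p, q, hs, -, -, hc⟩ := h.coord
  have h1 := pow_pos (abs_pos.2 (hc e e' he j j)) 2
  rw [sq_abs] at h1
  rw [geo_fe hs, geo_ell hs, hs]
  linarith

theorem IsReal.f4 (h : IsReal x) {e e' : Fin 3} (he : e' ≠ e) {j l : Fin (m + 2)} (hjl : j ≠ l) :
    0 < ell x e ^ 2 * (x (.inr (e', j), .inr (e, 0)) ^ 2 - x (.inr (e', l), .inr (e, 0)) ^ 2) ^ 2 +
      (fe x e (.inr (e', j)) - fe x e (.inr (e', l))) *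
        (fe x e (.inr (e', j)) * x (.inr (e', l), .inr (e, 0)) ^ 2 -
          fe x e (.inr (e', l)) * x (.inr (e', j), .inr (e, 0)) ^ 2) := by
  obtain ⟨p, q, hs, hp, -, hc⟩ := h.coord
  have h1 := pow_pos (abs_pos.2 (hc e e' he j l)) 2
  rw [sq_abs] at h1
  have h2 := hp (.inr (e', j)) (.inr (e', l)) (by simpa using hjl)
  rw [geo_fe hs, geo_fe hs, geo_ell hs, hs, hs]
  generalize p (.inr (e', j)) = a1 at *
  generalize q (.inr (e', j)) = a2 at *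
  generalize p (.inr (e', l)) = b1 at *
  generalize q (.inr (e', l)) = b2 at *
  generalize p (.inr (e, 0)) = c1 at *
  generalize q (.inr (e, 0)) = c2 at *
  generalize p (.inr (e, 1)) = d1 at *
  generalize q (.inr (e, 1)) = d2 at *
  have h3 := mul_pos h2 (add_pos_of_nonneg_of_pos
    (sq_nonneg ((a1 - b1) * (d1 - c1) + (a2 - b2) * (d2 - c2))) h1)
  refine h3.trans_eq ?_
  ring

theorem IsReal.f5 (h : IsReal x) (e : Fin 3) (i : Fin (m + 2)) :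
    2 * ell x e ^ 2 * (fe x 0 (.inr (e, i)) - fe x 0 (.inr (e, 0))) =
      fe x e (.inr (e, i)) * (fe x 0 (.inr (e, 1)) - fe x 0 (.inr (e, 0))) ∧
    2 * ell x e ^ 2 * (hh x (.inr (e, i)) - hh x (.inr (e, 0))) =
      fe x e (.inr (e, i)) * (hh x (.inr (e, 1)) - hh x (.inr (e, 0))) := by
  obtain ⟨p, q, hs, -, hl, -⟩ := h.coord
  obtain ⟨s, h1, h2⟩ := hl e i
  simp only [geo_hh hs, geo_fe hs, geo_ell hs]
  rw [h1, h2]
  constructor <;> ring

theorem IsReal.f6 (h : IsReal x) (a : Pt u m) : hh x a ^ 2 =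
    hh x (.inr (1, 0)) * (4 * ell x 0 ^ 2 * x (a, .inr (0, 0)) ^ 2 - fe x 0 a ^ 2) := by
  obtain ⟨p, q, hs, -, -, -⟩ := h.coord
  simp only [geo_hh hs, geo_fe hs, geo_ell hs, hs]
  ring

theorem IsReal.f7 (h : IsReal x) : hh x (.inr (1, 0)) =
    4 * ell x 0 ^ 2 * x (.inr (1, 0), .inr (0, 0)) ^ 2 - fe x 0 (.inr (1, 0)) ^ 2 := by
  obtain ⟨p, q, hs, -, -, -⟩ := h.coord
  simp only [geo_hh hs, geo_fe hs, geo_ell hs, hs]
  ring

/-- proportional primitive realizations are equal -/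
theorem Good.eq {P Q : Pt u m × Pt u m → ℤ} (hP : Good P) (hQ : Good Q) {l : ℝ}
    (h : ∀ i, (Q i : ℝ) = l * P i) : Q = P := by
  have h10 : (Sum.inr (0, 1) : Pt u m) ≠ .inr (0, 0) := by
    intro he
    simp at he
  have ha : 0 < P (.inr (0, 1), .inr (0, 0)) := by exact_mod_cast hP.2.pos h10
  have hb : 0 < Q (.inr (0, 1), .inr (0, 0)) := by exact_mod_cast hQ.2.pos h10
  have hc : ∀ i, Q i * P (.inr (0, 1), .inr (0, 0)) = P i * Q (.inr (0, 1), .inr (0, 0)) := by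
    intro i
    have : (Q i : ℝ) * P (.inr (0, 1), .inr (0, 0)) = P i * Q (.inr (0, 1), .inr (0, 0)) := by
      rw [h, h]
      ring
    exact_mod_cast this
  generalize P (.inr (0, 1), .inr (0, 0)) = a at ha hc
  generalize Q (.inr (0, 1), .inr (0, 0)) = b at hb hc
  have hg : 0 < Int.gcd a b := Int.gcd_pos_of_ne_zero_left b ha.ne'
  obtain ⟨a', b', hab, h1, h2⟩ := Int.exists_gcd_one hg
  have hg' : (0 : ℤ) < Int.gcd a b := by exact_mod_cast hg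
  generalize (Int.gcd a b : ℤ) = g at h1 h2 hg'
  have hc' : ∀ i, Q i * a' = P i * b' := by
    intro i
    have := hc i
    rw [h1, h2] at this
    exact mul_right_cancel₀ hg'.ne' (by linear_combination this)
  have hco : IsCoprime a' b' := Int.isCoprime_iff_gcd_eq_one.2 hab
  have ha' : 0 < a' := (mul_pos_iff_of_pos_right hg').1 (h1 ▸ ha)
  have hb' : 0 < b' := (mul_pos_iff_of_pos_right hg').1 (h2 ▸ hb)
  have e1 : a'.natAbs = 1 := hP.1 _ fun i =>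
    Int.natAbs_dvd.2 (hco.dvd_of_dvd_mul_right ⟨Q i, by rw [← hc' i]; ring⟩)
  have e2 : b'.natAbs = 1 := hQ.1 _ fun i =>
    Int.natAbs_dvd.2 (hco.symm.dvd_of_dvd_mul_right ⟨P i, by rw [hc' i]; ring⟩)
  have e3 : a' = 1 := by omega
  have e4 : b' = 1 := by omega
  funext i
  have := hc' i
  rwa [e3, e4, mul_one, mul_one] at this

end Pool.Agent.Lib.MP_e5111b_co.Pc
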