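import Pool.Agent.Lib.MP_e5111b_co.Pc.Ult
import Pool.Agent.Lib.MP_e5111b_co.Pc.Rank
import Pool.Agent.Lib.MP_e5111b_co.Pc.Quad
import Pool.Agent.Lib.MP_e5111b_co.Pc.Geo

set_option autoImplicit false

namespace Pool.Agent.Lib.MP_e5111b_co.Pc

open Filter MvPolynomial Finset

variable {u m : ℕ}

/-- the identities of a realization, in any field -/
structure FrIds {Ω : Type} [Field Ω] (x : Pt u m × Pt u m → Ω) : Prop where
  l0 : ∀ e, ell x e ≠ 0
  ps : ∀ a b, psi x a b = 0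
  g1 : ∀ e i, fe x e (.inr (e, i)) ^ 2 = 4 * ell x e ^ 2 * x (.inr (e, i), .inr (e, 0)) ^ 2
  g2 : ∀ e i b, 2 * ell x e ^ 2 * x (.inr (e, i), b) ^ 2 =
      2 * ell x e ^ 2 * (x (.inr (e, i), .inr (e, 0)) ^ 2 + x (b, .inr (e, 0)) ^ 2) -
        fe x e (.inr (e, i)) * fe x e b
  g3 : ∀ e e', e' ≠ e → ∀ j,
    fe x e (.inr (e', j)) ^ 2 ≠ 4 * ell x e ^ 2 * x (.inr (e', j), .inr (e, 0)) ^ 2
  g4 : ∀ e e', e' ≠ e → ∀ j l, j ≠ l →
    ell x e ^ 2 * (x (.inr (e', j), .inr (e, 0)) ^ 2 - x (.inr (e', l), .inr (e, 0)) ^ 2) ^ 2 +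
      (fe x e (.inr (e', j)) - fe x e (.inr (e', l))) *
        (fe x e (.inr (e', j)) * x (.inr (e', l), .inr (e, 0)) ^ 2 -
          fe x e (.inr (e', l)) * x (.inr (e', j), .inr (e, 0)) ^ 2) ≠ 0
  g5 : ∀ e i, 2 * ell x e ^ 2 * (fe x 0 (.inr (e, i)) - fe x 0 (.inr (e, 0))) =
      fe x e (.inr (e, i)) * (fe x 0 (.inr (e, 1)) - fe x 0 (.inr (e, 0)))
  g5' : ∀ e i, 2 * ell x e ^ 2 * (hh x (.inr (e, i)) - hh x (.inr (e, 0))) =
      fe x e (.inr (e, i)) * (hh x (.inr (e, 1)) - hh x (.inr (e, 0)))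
  g6 : ∀ a, hh x a ^ 2 =
    hh x (.inr (1, 0)) * (4 * ell x 0 ^ 2 * x (a, .inr (0, 0)) ^ 2 - fe x 0 a ^ 2)
  g7 : hh x (.inr (1, 0)) =
    4 * ell x 0 ^ 2 * x (.inr (1, 0), .inr (0, 0)) ^ 2 - fe x 0 (.inr (1, 0)) ^ 2

theorem fr_cast {σ : Type} (P : σ → ℤ) (g : MvPolynomial σ ℤ) :
    ((eval P g : ℤ) : ℝ) = aeval (fun i => (P i : ℝ)) g := by
  induction g using MvPolynomial.induction_on with
  | C a => simp
  | add p q hp hq => simp [hp, hq]
  | mul_X p i hp => simp [hp]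

theorem fr_ids (c : Ctx) {T : ℕ → Finset (Pt u m × Pt u m → ℤ)} (hT : c.Box T)
    (hG : ∀ k, ∀ P ∈ T k, Good P) {Ω : Type} [Field Ω] [Algebra c.F Ω]
    {x : Pt u m × Pt u m → Ω} (hx : c.Gen T x) : FrIds x := by
  have t0 : ∀ g g' : MvPolynomial (Pt u m × Pt u m) ℤ,
      (∀ y : Pt u m × Pt u m → ℝ, IsReal y → aeval y g = aeval y g') → aeval x g = aeval x g' := by
    intro g g' h
    have h1 := Ctx.Gen.zero c hx (g - g') fun k P hP => by
      have h2 := h _ (hG k P hP).2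
      rw [← fr_cast, ← fr_cast] at h2
      rw [map_sub, sub_eq_zero]
      exact_mod_cast h2
    rwa [map_sub, sub_eq_zero] at h1
  have t1 : ∀ g g' : MvPolynomial (Pt u m × Pt u m) ℤ,
      (∀ y : Pt u m × Pt u m → ℝ, IsReal y → aeval y g ≠ aeval y g') → aeval x g ≠ aeval x g' := by
    intro g g' h
    have h1 := Ctx.Gen.ne_zero c hT hx (g - g') fun k P hP => by
      have h2 := h _ (hG k P hP).2
      rw [← fr_cast, ← fr_cast] at h2
      rw [map_sub, sub_ne_zero]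
      exact_mod_cast h2
    rwa [map_sub, sub_ne_zero] at h1
  refine ⟨fun e => ?_, fun a b => ?_, fun e i => ?_, fun e i b => ?_, fun e e' he j => ?_,
    fun e e' he j l hjl => ?_, fun e i => ?_, fun e i => ?_, fun a => ?_, ?_⟩
  · have h := t1 (ell X e) 0 fun y hy => by
      simp only [map_ell, aeval_X, map_zero]
      exact (hy.pos (by simp)).ne'
    simpa only [map_ell, aeval_X, map_zero] using h
  · have h := t0 (rel X (.inl (a, b))) 0 fun y hy => by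
      simp only [map_rel, aeval_X, map_zero]
      exact hy.rel _
    simp only [map_rel, aeval_X, map_zero] at h
    exact h
  · have h := t0 (fe X e (.inr (e, i)) ^ 2) (4 * ell X e ^ 2 * X (.inr (e, i), .inr (e, 0)) ^ 2)
      fun y hy => by
        simpa only [map_mul, map_pow, map_fe, map_ell, aeval_X, map_ofNat] using hy.f1 e i
    simpa only [map_mul, map_pow, map_fe, map_ell, aeval_X, map_ofNat] using h
  · have h := t0 (2 * ell X e ^ 2 * X (.inr (e, i), b) ^ 2)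
      (2 * ell X e ^ 2 * (X (.inr (e, i), .inr (e, 0)) ^ 2 + X (b, .inr (e, 0)) ^ 2) -
        fe X e (.inr (e, i)) * fe X e b) fun y hy => by
        simpa only [map_mul, map_pow, map_fe, map_ell, aeval_X, map_ofNat, map_sub, map_add]
          using hy.f2 e i b
    simpa only [map_mul, map_pow, map_fe, map_ell, aeval_X, map_ofNat, map_sub, map_add] using h
  · have h := t1 (fe X e (.inr (e', j)) ^ 2) (4 * ell X e ^ 2 * X (.inr (e', j), .inr (e, 0)) ^ 2)
      fun y hy => by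
        simpa only [map_mul, map_pow, map_fe, map_ell, aeval_X, map_ofNat] using (hy.f3 he j).ne
    simpa only [map_mul, map_pow, map_fe, map_ell, aeval_X, map_ofNat] using h
  · have h := t1 (ell X e ^ 2 *
      (X (.inr (e', j), .inr (e, 0)) ^ 2 - X (.inr (e', l), .inr (e, 0)) ^ 2) ^ 2 +
      (fe X e (.inr (e', j)) - fe X e (.inr (e', l))) *
        (fe X e (.inr (e', j)) * X (.inr (e', l), .inr (e, 0)) ^ 2 -
          fe X e (.inr (e', l)) * X (.inr (e', j), .inr (e, 0)) ^ 2)) 0 fun y hy => by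
        simpa only [map_mul, map_pow, map_fe, map_ell, aeval_X, map_sub, map_add, map_zero]
          using (hy.f4 he hjl).ne'
    simpa only [map_mul, map_pow, map_fe, map_ell, aeval_X, map_sub, map_add, map_zero] using h
  · have h := t0 (2 * ell X e ^ 2 * (fe X 0 (.inr (e, i)) - fe X 0 (.inr (e, 0))))
      (fe X e (.inr (e, i)) * (fe X 0 (.inr (e, 1)) - fe X 0 (.inr (e, 0)))) fun y hy => by
        simpa only [map_mul, map_pow, map_fe, map_ell, map_ofNat, map_sub, aeval_X]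
          using (hy.f5 e i).1
    simpa only [map_mul, map_pow, map_fe, map_ell, map_ofNat, map_sub, aeval_X] using h
  · have h := t0 (2 * ell X e ^ 2 * (hh X (.inr (e, i)) - hh X (.inr (e, 0))))
      (fe X e (.inr (e, i)) * (hh X (.inr (e, 1)) - hh X (.inr (e, 0)))) fun y hy => by
        simpa only [map_mul, map_pow, map_fe, map_ell, map_hh, map_ofNat, map_sub, aeval_X]
          using (hy.f5 e i).2
    simpa only [map_mul, map_pow, map_fe, map_ell, map_hh, map_ofNat, map_sub, aeval_X] using h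
  · have h := t0 (hh X a ^ 2)
      (hh X (.inr (1, 0)) * (4 * ell X 0 ^ 2 * X (a, .inr (0, 0)) ^ 2 - fe X 0 a ^ 2))
      fun y hy => by
        simpa only [map_mul, map_pow, map_fe, map_ell, map_hh, map_ofNat, map_sub, aeval_X]
          using hy.f6 a
    simpa only [map_mul, map_pow, map_fe, map_ell, map_hh, map_ofNat, map_sub, aeval_X] using h
  · have h := t0 (hh X (.inr (1, 0)))
      (4 * ell X 0 ^ 2 * X (.inr (1, 0), .inr (0, 0)) ^ 2 - fe X 0 (.inr (1, 0)) ^ 2)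
      fun y hy => by
        simpa only [map_mul, map_pow, map_fe, map_ell, map_hh, map_ofNat, map_sub, aeval_X]
          using hy.f7
    simpa only [map_mul, map_pow, map_fe, map_ell, map_hh, map_ofNat, map_sub, aeval_X] using h

variable {F Ω : Type} [Field F] [Field Ω] [Algebra F Ω]

/-- the elements algebraic over a set form a field that is closed under square roots -/
theorem fr_cl (S : Set Ω) : ∃ E : IntermediateField F Ω,
    (∀ y, y ∈ E ↔ IsAlgebraic (Algebra.adjoin F S) y) ∧ ∀ y, y ^ 2 ∈ E → y ∈ E := by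
  have h : ∀ y, y ∈ (algebraicClosure (IntermediateField.adjoin F S) Ω).restrictScalars F ↔
      IsAlgebraic (Algebra.adjoin F S) y := fun y => by
    rw [IntermediateField.mem_restrictScalars, mem_algebraicClosure_iff,
      IntermediateField.isAlgebraic_adjoin_iff]
  exact ⟨_, h, fun y hy => (h y).2 (((h _).1 hy).of_pow two_pos)⟩

theorem fr_div {E : IntermediateField F Ω} {a b y : Ω} (ha : a ∈ E) (hb : b ∈ E) (h0 : a ≠ 0)
    (h : a * y = b) : y ∈ E := by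
  have : y = b / a := by rw [← h]; field_simp
  rw [this]
  exact div_mem hb ha

/-- all distances are algebraic over few of them -/
theorem fr_all [CharZero Ω] {x : Pt u m × Pt u m → Ω} (hx : FrIds x) {E : IntermediateField F Ω}
    (hE : ∀ y, y ^ 2 ∈ E → y ∈ E) (hl : ∀ e, ell x e ∈ E)
    (ha : ∀ e i, x (.inr (e, i), .inr (e, 0)) ∈ E)
    (hb : ∀ a, ((∃ i, a = .inl i) ∨ (∃ e, a = .inr (e, 0)) ∨ ∃ e, a = .inr (e, 1)) →
      x (a, .inr (0, 0)) ∈ E ∧ x (a, .inr (0, 1)) ∈ E) (p : Pt u m × Pt u m) : x p ∈ E := by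
  have h2 : (2 : Ω) ∈ E := by exact_mod_cast natCast_mem E 2
  have h4 : (4 : Ω) ∈ E := by exact_mod_cast natCast_mem E 4
  have f0 : ∀ a, ((∃ i, a = .inl i) ∨ (∃ e, a = .inr (e, 0)) ∨ ∃ e, a = .inr (e, 1)) →
      fe x 0 a ∈ E := fun a h =>
    sub_mem (add_mem (pow_mem (hb a h).1 2) (pow_mem (hl 0) 2)) (pow_mem (hb a h).2 2)
  have b0 : ∀ e : Fin 3, (∃ i, (.inr (e, 0) : Pt u m) = .inl i) ∨
      (∃ e', (.inr (e, 0) : Pt u m) = .inr (e', 0)) ∨ ∃ e', (.inr (e, 0) : Pt u m) = .inr (e', 1) :=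
    fun e => Or.inr (Or.inl ⟨e, rfl⟩)
  have b1 : ∀ e : Fin 3, (∃ i, (.inr (e, 1) : Pt u m) = .inl i) ∨
      (∃ e', (.inr (e, 1) : Pt u m) = .inr (e', 0)) ∨ ∃ e', (.inr (e, 1) : Pt u m) = .inr (e', 1) :=
    fun e => Or.inr (Or.inr ⟨e, rfl⟩)
  have q1 : hh x (.inr (1, 0)) ∈ E := by
    rw [hx.g7]
    exact sub_mem (mul_mem (mul_mem h4 (pow_mem (hl 0) 2)) (pow_mem (hb _ (b0 1)).1 2))
      (pow_mem (f0 _ (b0 1)) 2)
  have q0 : hh x (.inr (1, 0)) ≠ 0 := by
    rw [hx.g7]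
    exact sub_ne_zero.2 (hx.g3 0 1 (by decide) 0).symm
  have k0 : ∀ a, ((∃ i, a = .inl i) ∨ (∃ e, a = .inr (e, 0)) ∨ ∃ e, a = .inr (e, 1)) →
      hh x a ∈ E := fun a h => hE _ (by
    rw [hx.g6]
    exact mul_mem q1 (sub_mem (mul_mem (mul_mem h4 (pow_mem (hl 0) 2)) (pow_mem (hb a h).1 2))
      (pow_mem (f0 a h) 2)))
  have fl : ∀ e i, fe x e (.inr (e, i)) ∈ E := fun e i => hE _ (by
    rw [hx.g1]
    exact mul_mem (mul_mem h4 (pow_mem (hl e) 2)) (pow_mem (ha e i) 2))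
  have l2 : ∀ e, 2 * ell x e ^ 2 ≠ 0 := fun e => mul_ne_zero two_ne_zero (pow_ne_zero 2 (hx.l0 e))
  have l3 : ∀ e, 2 * ell x e ^ 2 ∈ E := fun e => mul_mem h2 (pow_mem (hl e) 2)
  have all : ∀ a, fe x 0 a ∈ E ∧ hh x a ∈ E := by
    rintro (i | ⟨e, i⟩)
    · exact ⟨f0 _ (Or.inl ⟨i, rfl⟩), k0 _ (Or.inl ⟨i, rfl⟩)⟩
    · have s1 := fr_div (l3 e) (mul_mem (fl e i) (sub_mem (f0 _ (b1 e)) (f0 _ (b0 e)))) (l2 e)
        (hx.g5 e i)
      have s2 := fr_div (l3 e) (mul_mem (fl e i) (sub_mem (k0 _ (b1 e)) (k0 _ (b0 e)))) (l2 e)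
        (hx.g5' e i)
      exact ⟨by simpa using add_mem s1 (f0 _ (b0 e)), by simpa using add_mem s2 (k0 _ (b0 e))⟩
  obtain ⟨a, b⟩ := p
  have s1 := fr_div q1 (pow_mem (sub_mem (all a).2 (all b).2) 2) q0 (sub_eq_zero.1 (hx.ps a b))
  have s2 : 4 * ell x 0 ^ 2 * x (a, b) ^ 2 ∈ E := by
    simpa using add_mem s1 (pow_mem (sub_mem (all a).1 (all b).1) 2)
  exact hE _ (fr_div (mul_mem h4 (pow_mem (hl 0) 2)) s2
    (mul_ne_zero (by norm_num) (pow_ne_zero 2 (hx.l0 0))) rfl)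

/-- the square roots of the quadratics given by the law of cosines are independent -/
theorem fr_quad {K : Type} [Field K] [CharZero K] [Algebra K Ω] {ι κ : Type}
    [Fintype ι] [Fintype κ] [DecidableEq ι] [DecidableEq κ] {a : ι → Ω}
    (ha : AlgebraicIndependent K a) {l : K} (hl : l ≠ 0) (φ n : κ → K) (ψ : ι → Ω)
    (hψ : ∀ i, ψ i ^ 2 = 4 * algebraMap K Ω l ^ 2 * a i ^ 2)
    (h3 : ∀ j, φ j ^ 2 ≠ 4 * l ^ 2 * n j)
    (h4 : ∀ j k, j ≠ k → l ^ 2 * (n j - n k) ^ 2 + (φ j - φ k) * (φ j * n k - φ k * n j) ≠ 0)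
    (d : ι × κ → Ω) (hd : ∀ i j, 2 * algebraMap K Ω l ^ 2 * d (i, j) ^ 2 =
      2 * algebraMap K Ω l ^ 2 * (a i ^ 2 + algebraMap K Ω (n j)) - ψ i * algebraMap K Ω (φ j)) :
    (∀ i j, ∃ w : K, d (i, j) ^ 2 = a i ^ 2 - algebraMap K Ω w * a i + algebraMap K Ω (n j)) ∧
    LinearIndependent K fun p : (ι → ℕ) × Finset (ι × κ) =>
      (∏ i, a i ^ p.1 i) * ∏ l ∈ p.2, d l := by
  have : CharZero Ω := charZero_of_injective_algebraMap (algebraMap K Ω).injective
  have hl' : algebraMap K Ω l ≠ 0 := (map_ne_zero _).2 hl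
  have he : ∀ i, ∃ ε : K, ε ^ 2 = 1 ∧ ψ i = algebraMap K Ω ε * (2 * algebraMap K Ω l * a i) := by
    intro i
    have h : ψ i ^ 2 = (2 * algebraMap K Ω l * a i) ^ 2 := by rw [hψ]; ring
    rcases sq_eq_sq_iff_eq_or_eq_neg.1 h with h | h
    · exact ⟨1, by simp, by simp [h]⟩
    · exact ⟨-1, by simp, by simp [h]⟩
  choose ε h1 h2 using he
  have hd' : ∀ i j, d (i, j) ^ 2 =
      a i ^ 2 - algebraMap K Ω (ε i * φ j / l) * a i + algebraMap K Ω (n j) := by
    intro i j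
    have h := hd i j
    rw [h2] at h
    rw [map_div₀, map_mul]
    refine mul_left_cancel₀ (mul_ne_zero two_ne_zero (pow_ne_zero 2 hl')) (h.trans ?_)
    field_simp
    ring
  refine ⟨fun i j => ⟨_, hd' i j⟩,
    free_indep ha (fun i j => ε i * φ j / l) n (fun i j h => h3 j ?_) (fun i j k hjk h => ?_) d hd'⟩
  · rw [div_pow, mul_pow, h1, one_mul, div_eq_iff (pow_ne_zero 2 hl)] at h
    linear_combination h
  · apply h4 j k hjk
    field_simp at h
    linear_combination h - (φ j - φ k) * (φ j * n k - φ k * n j) * h1 i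

end Pool.Agent.Lib.MP_e5111b_co.Pc
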