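import Pool.Agent.Lib.MP_e5111b_co.Pc.Det
import Pool.Agent.Lib.MP_e5111b_co.Pc.Rank
import Pool.Agent.Lib.MP_e5111b_co.Pc.Quad
import Pool.Agent.Lib.MP_e5111b_co.Pc.Geo
import Pool.Agent.Lib.MP_e5111b_co.Pc.FreeA

set_option autoImplicit false

namespace Pool.Agent.Lib.MP_e5111b_co.Pc

open Filter MvPolynomial Finset

theorem fr_mono {F A κ : Type} [Field F] [CommRing A] [Algebra F A] [Fintype κ] {z : κ → A}
    (hz : AlgebraicIndependent F z) : LinearIndependent F fun β : κ → ℕ => ∏ i, z i ^ β i := by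
  have h1 := ((basisMonomials κ F).linearIndependent.map' (aeval z : _ →ₐ[F] A).toLinearMap
    (LinearMap.ker_eq_bot.2 hz)).comp _ Finsupp.equivFunOnFinite.symm.injective
  have h2 : (fun β : κ → ℕ => ∏ i, z i ^ β i) = ((aeval z : _ →ₐ[F] A).toLinearMap ∘
      basisMonomials κ F) ∘ Finsupp.equivFunOnFinite.symm := by
    funext β
    simp [aeval_monomial, Finsupp.prod_fintype]
  rw [h2]
  exact h1

theorem fr_tower {F K Ω κ ι L : Type} [Field F] [Field K] [Field Ω] [Algebra F K] [Algebra K Ω]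
    [Algebra F Ω] [IsScalarTower F K Ω] [Fintype κ] [Fintype ι] {z : κ → K}
    (hz : AlgebraicIndependent F z) {a : ι → Ω} {D : L → Ω}
    (h : LinearIndependent K fun p : (ι → ℕ) × L => (∏ i, a i ^ p.1 i) * D p.2) :
    LinearIndependent F fun p : (κ ⊕ ι → ℕ) × L =>
      (∏ i, Sum.elim (fun k => algebraMap K Ω (z k)) a i ^ p.1 i) * D p.2 := by
  have h1 := (linearIndependent_smul (fr_mono hz) h).comp
    (fun p : (κ ⊕ ι → ℕ) × L => (fun k => p.1 (.inl k), (fun i => p.1 (.inr i), p.2))) (by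
      rintro ⟨p, l⟩ ⟨q, l'⟩ hpq
      simp only [Prod.mk.injEq] at hpq ⊢
      refine ⟨funext ?_, hpq.2.2⟩
      rintro (k | i)
      · exact congrFun hpq.1 k
      · exact congrFun hpq.2.1 i)
  convert h1 using 1
  funext p
  simp [Fintype.prod_sum_type, Algebra.smul_def, mul_assoc]

/-- the parameters attached to line `e` -/
def frZ (u m s : ℕ) (e : Fin 3) : Option (Fin s ⊕ Fin s) → Pt u m × Pt u m
  | none => (.inr (e, 0), .inr (e, 1))
  | some (.inl j) => (.inr (e + 1, Fin.ofNat (m + 2) j), .inr (e, 0))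
  | some (.inr j) => (.inr (e + 1, Fin.ofNat (m + 2) j), .inr (e, 1))

theorem fr_sub {F K Ω : Type} [Field F] [CharZero F] [Field K] [Field Ω] [Algebra F K]
    [Algebra K Ω] [Algebra F Ω] [IsScalarTower F K Ω] {ι κ : Type} [Fintype ι] [Fintype κ]
    [DecidableEq ι] [DecidableEq κ] {a : ι → Ω} (ha : AlgebraicIndependent K a) {l : Ω}
    (hl : l ≠ 0) (hlK : ∃ y, algebraMap K Ω y = l) (φ n : κ → Ω)
    (hφ : ∀ j, ∃ y, algebraMap K Ω y = φ j) (hn : ∀ j, ∃ y, algebraMap K Ω y = n j) (ψ : ι → Ω)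
    (hψ : ∀ i, ψ i ^ 2 = 4 * l ^ 2 * a i ^ 2) (h3 : ∀ j, φ j ^ 2 ≠ 4 * l ^ 2 * n j)
    (h4 : ∀ j k, j ≠ k → l ^ 2 * (n j - n k) ^ 2 + (φ j - φ k) * (φ j * n k - φ k * n j) ≠ 0)
    (d : ι × κ → Ω) (hd : ∀ i j, 2 * l ^ 2 * d (i, j) ^ 2 = 2 * l ^ 2 * (a i ^ 2 + n j) - ψ i * φ j)
    {r : Type} [Fintype r] {z : r → Ω} (hz : AlgebraicIndependent F z)
    (hzK : ∀ i, ∃ y, algebraMap K Ω y = z i)
    (hK : ∀ y : K, IsAlgebraic (Algebra.adjoin F (Set.range z)) (algebraMap K Ω y)) :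
    (∀ p, IsAlgebraic (Algebra.adjoin F (Set.range (Sum.elim z a))) (d p)) ∧
    LinearIndependent F fun p : (r ⊕ ι → ℕ) × Finset (ι × κ) =>
      (∏ i, Sum.elim z a i ^ p.1 i) * ∏ l ∈ p.2, d l := by
  have : CharZero K := charZero_of_injective_algebraMap (algebraMap F K).injective
  obtain ⟨l, rfl⟩ := hlK
  choose φ' hφ' using hφ
  choose n' hn' using hn
  choose z' hz' using hzK
  obtain rfl : φ = fun j => algebraMap K Ω (φ' j) := (funext hφ').symm
  obtain rfl : n = fun j => algebraMap K Ω (n' j) := (funext hn').symm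
  obtain rfl : z = fun j => algebraMap K Ω (z' j) := (funext hz').symm
  obtain ⟨q1, q2⟩ := fr_quad ha (l := l) (fun h => hl (by rw [h, map_zero])) φ' n' ψ hψ
    (fun k h => h3 k (by simpa only [map_mul, map_pow, map_ofNat] using congrArg (algebraMap K Ω) h))
    (fun k l hkl h => h4 k l hkl (by
      simpa only [map_mul, map_pow, map_add, map_sub, map_zero] using congrArg (algebraMap K Ω) h))
    d hd
  have hw' : AlgebraicIndependent F z' :=
    AlgebraicIndependent.of_comp (IsScalarTower.toAlgHom F K Ω) hz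
  refine ⟨fun p => ?_, fr_tower (D := fun J => ∏ l ∈ J, d l) hw' q2⟩
  obtain ⟨E, hE, hE2⟩ := fr_cl (F := F) (Set.range (Sum.elim (fun j => algebraMap K Ω (z' j)) a))
  have hτE : ∀ i, Sum.elim (fun j => algebraMap K Ω (z' j)) a i ∈ E :=
    fun i => (hE _).2 (rk_mem (Algebra.subset_adjoin ⟨i, rfl⟩))
  have hKE : ∀ y : K, algebraMap K Ω y ∈ E := fun y => (hE _).2 (rk_trans (hK y) (by
    rintro _ ⟨i, rfl⟩
    exact (hE _).1 (hτE (.inl i))))
  have ha' : a p.1 ∈ E := hτE (.inr p.1)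
  refine (hE _).1 (hE2 _ ?_)
  obtain ⟨y, hy⟩ := q1 p.1 p.2
  rw [hy]
  exact add_mem (sub_mem (pow_mem ha' 2) (mul_mem (hKE y) ha')) (hKE _)

theorem fr_det (c : Ctx) {σ : Type} {T : ℕ → Finset (σ → ℤ)} (hT : c.Box T)
    {Ω : Type} [Field Ω] [Algebra c.F Ω] {x : σ → Ω} (hx : c.Gen T x) {j : ℕ} {κ ω : Type}
    [Fintype κ] [Fintype ω] (τ : κ → σ) (δ : ω → σ) (h1 : Fintype.card κ ≤ 9 * j + 7)
    (h2 : Fintype.card ω = (3 * j + 2) * (3 * j + 2))
    (h3 : ∀ p, IsAlgebraic (Algebra.adjoin c.F (Set.range fun i => x (τ i))) (x (δ p)))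
    (h4 : LinearIndependent c.F fun p : (κ → ℕ) × Finset ω =>
      (∏ i, x (τ i) ^ p.1 i) * ∏ l ∈ p.2, x (δ l)) :
    c.Out T x (4 * (9 * (j : ℝ) + 8) ^ 2 / 2 ^ j) := by
  classical
  have hd := det_step c hT hx (fun i => X (τ i)) (fun i => (totalDegree_X _).le)
    (fun p => X (δ p)) (fun p => by simpa only [aeval_X] using sep_rel _ (h3 p))
    (fun (J : Finset ω) l => if l ∈ J then 1 else 0) (γ := 2 ^ j) Nat.one_le_two_pow (by
      rw [Fintype.card_finset, ← pow_mul, ← pow_succ', h2]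
      refine Nat.pow_le_pow_right two_pos ?_
      have h5 : j * Fintype.card κ ≤ j * (9 * j + 7) := Nat.mul_le_mul_left _ h1
      nlinarith) (by simpa [aeval_X, Finset.prod_ite_mem] using h4)
  refine Ctx.Out.mono c hd ?_
  have h1 : (Fintype.card κ : ℝ) + 1 ≤ 9 * (j : ℝ) + 8 := by
    exact_mod_cast (by omega : Fintype.card κ + 1 ≤ 9 * j + 8)
  push_cast
  gcongr

theorem fr_left (c : Ctx) {u m : ℕ} {T : ℕ → Finset (Pt u m × Pt u m → ℤ)} (hT : c.Box T)
    {Ω : Type} [Field Ω] [Algebra c.F Ω] {x : Pt u m × Pt u m → Ω} (hx : c.Gen T x)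
    (hi : FrIds x) {j s : ℕ} (hs : s = 3 * j + 2) (e : Fin 3) {r : ℕ}
    {w : Fin r → Option (Fin s ⊕ Fin s)} {v : Fin s → Fin (m + 2)} (hr : r ≤ 2 * s + 1)
    (hw : IsBas c.F (fun o => x (frZ u m s e o)) w)
    (hv : AlgebraicIndependent
      (IntermediateField.adjoin c.F (Set.range fun o => x (frZ u m s e o)))
      fun i => x (.inr (e, v i), .inr (e, 0))) :
    c.Out T x (4 * (9 * (j : ℝ) + 8) ^ 2 / 2 ^ j) := by
  have hsm : s ≤ m + 2 := by
    have h1 : Function.Injective v := fun i k h => hv.injective (by simp only [h])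
    simpa using Fintype.card_le_of_injective v h1
  have hinj : ∀ i k : Fin s, i ≠ k → Fin.ofNat (m + 2) i ≠ Fin.ofNat (m + 2) k := by
    intro i k h h'
    have h1 := congrArg Fin.val h'
    simp only [Fin.ofNat, Nat.mod_eq_of_lt (i.2.trans_le hsm), Nat.mod_eq_of_lt (k.2.trans_le hsm)]
      at h1
    exact h (Fin.ext h1)
  have he : e + 1 ≠ e := (by decide : ∀ e : Fin 3, e + 1 ≠ e) e
  have hz : ∀ o, x (frZ u m s e o) ∈
      IntermediateField.adjoin c.F (Set.range fun o => x (frZ u m s e o)) :=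
    fun o => IntermediateField.subset_adjoin _ _ ⟨o, rfl⟩
  obtain ⟨E, hE, -⟩ := fr_cl (F := c.F) (Set.range fun i => x (frZ u m s e (w i)))
  have hKE : IntermediateField.adjoin c.F (Set.range fun o => x (frZ u m s e o)) ≤ E := by
    rw [IntermediateField.adjoin_le_iff]
    rintro _ ⟨o, rfl⟩
    exact (hE _).2 (hw.2 o)
  obtain ⟨q1, q2⟩ := fr_sub hv (hi.l0 e) ⟨⟨_, hz none⟩, rfl⟩
    (fun k : Fin s => fe x e (.inr (e + 1, Fin.ofNat (m + 2) k)))
    (fun k : Fin s => x (.inr (e + 1, Fin.ofNat (m + 2) k), .inr (e, 0)) ^ 2)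
    (fun k => ⟨⟨_, sub_mem (add_mem (pow_mem (hz (some (.inl k))) 2) (pow_mem (hz none) 2))
      (pow_mem (hz (some (.inr k))) 2)⟩, rfl⟩) (fun k => ⟨⟨_, pow_mem (hz (some (.inl k))) 2⟩, rfl⟩)
    (fun i => fe x e (.inr (e, v i))) (fun i => hi.g1 e (v i))
    (fun k => hi.g3 e (e + 1) he (Fin.ofNat (m + 2) k))
    (fun k l hkl => hi.g4 e (e + 1) he _ _ (hinj k l hkl))
    (fun p : Fin s × Fin s => x (.inr (e, v p.1), .inr (e + 1, Fin.ofNat (m + 2) p.2)))
    (fun i k => hi.g2 e (v i) _) hw.1 (fun i => ⟨⟨_, hz _⟩, rfl⟩) (fun y => (hE _).1 (hKE y.2))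
  have hτ : (Sum.elim (fun k => x (frZ u m s e (w k))) fun i => x (.inr (e, v i), .inr (e, 0))) =
      fun i => x (Sum.elim (fun k => frZ u m s e (w k))
        (fun i => (.inr (e, v i), .inr (e, 0))) i) := by
    funext i
    cases i <;> rfl
  rw [hτ] at q1 q2
  refine fr_det c hT hx _
    (fun p : Fin s × Fin s => (.inr (e, v p.1), .inr (e + 1, Fin.ofNat (m + 2) p.2))) ?_ ?_ q1 q2
  · simp only [Fintype.card_sum, Fintype.card_fin]
    omega
  · simp only [Fintype.card_prod, Fintype.card_fin, hs]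

/-- large dimension -/
theorem free_step (c : Ctx) {u m : ℕ} {T : ℕ → Finset (Pt u m × Pt u m → ℤ)} (hT : c.Box T)
    (hG : ∀ k, ∀ P ∈ T k, Good P) {Ω : Type} [Field Ω] [Algebra c.F Ω]
    {x : Pt u m × Pt u m → Ω} (hx : c.Gen T x) {ρ : ℕ} {b : Fin ρ → Pt u m × Pt u m}
    (hb : IsBas c.F x b) {j : ℕ} (hj : 27 * j + 32 + 2 * u ≤ ρ) :
    c.Out T x (4 * (9 * (j : ℝ) + 8) ^ 2 / 2 ^ j) := by
  have hi := fr_ids c hT hG hx
  by_contra hno
  have hsel := fun e : Fin 3 => (select (F := c.F) (fun o => x (frZ u m (3 * j + 2) e o))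
    (fun i : Fin (m + 2) => x (.inr (e, i), .inr (e, 0))) (3 * j + 2)).resolve_left (by
      rintro ⟨r, w, v, hr, hw, hv⟩
      refine hno (fr_left c hT hx hi rfl e ?_ hw hv)
      simp only [Fintype.card_option, Fintype.card_sum, Fintype.card_fin] at hr
      omega)
  choose n U hn hU1 hU2 using hsel
  have : CharZero Ω := charZero_of_injective_algebraMap (algebraMap c.F Ω).injective
  let bs : Fin u ⊕ Fin 3 ⊕ Fin 3 → Pt u m :=
    Sum.elim .inl (Sum.elim (fun e => .inr (e, 0)) fun e => .inr (e, 1))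
  let V : (Σ e, Fin (n e)) ⊕ (Fin u ⊕ Fin 3 ⊕ Fin 3) ⊕ (Fin u ⊕ Fin 3 ⊕ Fin 3) → Ω :=
    Sum.elim (fun p => U p.1 p.2)
      (Sum.elim (fun a => x (bs a, .inr (0, 0))) fun a => x (bs a, .inr (0, 1)))
  obtain ⟨E, hE, hE2⟩ := fr_cl (F := c.F) (Set.range V)
  have hV : ∀ i, V i ∈ E := fun i => (hE _).2 (rk_mem (Algebra.subset_adjoin ⟨i, rfl⟩))
  have hU : ∀ e y, IsAlgebraic (Algebra.adjoin c.F (Set.range (U e))) y → y ∈ E := fun e y hy =>
    (hE _).2 (rk_trans hy (by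
      rintro _ ⟨i, rfl⟩
      exact (hE _).1 (hV (.inl ⟨e, i⟩))))
  have hall := fr_all hi hE2 (fun e => hU e _ (hU1 e none)) (fun e i => hU e _ (hU2 e i)) (by
    rintro _ (⟨i, rfl⟩ | ⟨e, rfl⟩ | ⟨e, rfl⟩)
    · exact ⟨hV (.inr (.inl (.inl i))), hV (.inr (.inr (.inl i)))⟩
    · exact ⟨hV (.inr (.inl (.inr (.inl e)))), hV (.inr (.inr (.inr (.inl e))))⟩
    · exact ⟨hV (.inr (.inl (.inr (.inr e)))), hV (.inr (.inr (.inr (.inr e))))⟩)
  have hc := card_le_of_alg hb.1 fun i => (hE _).1 (hall (b i))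
  simp only [Fintype.card_option, Fintype.card_sum, Fintype.card_fin, Fintype.card_sigma,
    Fin.sum_univ_three] at hc hn
  have h0 := hn 0
  have h1 := hn 1
  have h2 := hn 2
  omega

end Pool.Agent.Lib.MP_e5111b_co.Pc
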