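import Pool.Agent.Lib.MP_e5111b_co.Pc.Defs

set_option autoImplicit false

namespace Pool.Agent.Lib.MP_e5111b_co.Pc

open Filter MvPolynomial Finset

/-- `u` further points and `m + 2` points on each of three lines -/
abbrev Pt (u m : ℕ) : Type := Fin u ⊕ Fin 3 × Fin (m + 2)

variable {u m : ℕ}

section
variable {A : Type} [CommRing A] (x : Pt u m × Pt u m → A)

/-- `2 |pq|` times the coordinate of the foot of `a` on the line from `p` to `q` -/
def ft (p q a : Pt u m) : A := x (a, p) ^ 2 + x (p, q) ^ 2 - x (a, q) ^ 2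

/-- the distance of the first two points of line `e` -/
def ell (e : Fin 3) : A := x (.inr (e, 0), .inr (e, 1))

/-- the foot on line `e` -/
def fe (e : Fin 3) (a : Pt u m) : A := ft x (.inr (e, 0)) (.inr (e, 1)) a

/-- scaled second coordinate -/
def hh (a : Pt u m) : A :=
  2 * ell x 0 ^ 2 * ft x (.inr (0, 0)) a (.inr (1, 0)) - fe x 0 a * fe x 0 (.inr (1, 0))

/-- the relation that gives the squared distance of `a` and `b` -/
def psi (a b : Pt u m) : A :=
  hh x (.inr (1, 0)) * (4 * ell x 0 ^ 2 * x (a, b) ^ 2 - (fe x 0 a - fe x 0 b) ^ 2) -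
    (hh x a - hh x b) ^ 2

/-- collinearity of `a`, `b`, `d` -/
def chi (a b d : Pt u m) : A :=
  (fe x 0 b - fe x 0 a) * (hh x d - hh x a) - (fe x 0 d - fe x 0 a) * (hh x b - hh x a)

/-- the equations of the realization variety -/
def rel : (Pt u m × Pt u m) ⊕ (Fin 3 × Fin (m + 2)) → A
  | .inl p => psi x p.1 p.2
  | .inr p => chi x (.inr (p.1, 0)) (.inr (p.1, 1)) (.inr p)

end

/-- `x` is the distance matrix of distinct points of the plane, `m + 2` on each of three lines,
each line having the points of the other two lines strictly on one side -/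
def IsReal (x : Pt u m × Pt u m → ℝ) : Prop :=
  ∃ X : Pt u m → ℂ, Function.Injective X ∧
    (∃ f : Fin 3 → ℂ →ᵃ[ℝ] ℝ, ∀ e e' j,
      (e' = e → f e (X (.inr (e', j))) = 0) ∧ (e' ≠ e → 0 < f e (X (.inr (e', j))))) ∧
    ∀ a b, dist (X a) (X b) = x (a, b)

/-- a realization with coprime integer distances -/
def Good (P : Pt u m × Pt u m → ℤ) : Prop :=
  (∀ q : ℕ, (∀ i, (q : ℤ) ∣ P i) → q = 1) ∧ IsReal fun i => (P i : ℝ)

section
variable {A B : Type} [CommRing A] [CommRing B] {Φ : Type} [FunLike Φ A B] [RingHomClass Φ A B]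
  (f : Φ) (x : Pt u m × Pt u m → A)

theorem map_ell (e : Fin 3) : f (ell x e) = ell (fun i => f (x i)) e := rfl

theorem map_fe (e : Fin 3) (a : Pt u m) : f (fe x e a) = fe (fun i => f (x i)) e a := by
  simp [fe, ft]

theorem map_hh (a : Pt u m) : f (hh x a) = hh (fun i => f (x i)) a := by
  simp [hh, fe, ft, ell, map_ofNat]

theorem map_rel (r : (Pt u m × Pt u m) ⊕ (Fin 3 × Fin (m + 2))) :
    f (rel x r) = rel (fun i => f (x i)) r := by
  cases r <;> simp [rel, psi, chi, map_hh, map_fe, map_ell, map_ofNat]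

theorem rel_smul (g : A) (r : (Pt u m × Pt u m) ⊕ (Fin 3 × Fin (m + 2))) :
    ∃ n : ℕ, rel (fun i => g * x i) r = g ^ n * rel x r := by
  cases r
  · exact ⟨8, by simp only [rel, psi, hh, fe, ft, ell]; ring⟩
  · exact ⟨6, by simp only [rel, chi, hh, fe, ft, ell]; ring⟩

end

end Pool.Agent.Lib.MP_e5111b_co.Pc
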