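import Pool.Agent.Lib.MP_e5111b_co.Pc.Curve

set_option autoImplicit false

namespace Pool.Agent.Lib.MP_e5111b_co.Pc

open Filter MvPolynomial Finset

section spec
variable {ρ : ℕ} (t : Fin (ρ + 1) → ℝ)

/-- only the first parameter and the primitive element move -/
noncomputable def sv : Option (Fin (ρ + 1)) → Polynomial (Polynomial ℝ)
  | none => Polynomial.X
  | some j => Polynomial.C (if j = 0 then Polynomial.X else Polynomial.C (t j))

/-- the point with first parameter `s` and primitive element `y` -/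
def pt (s y : ℝ) : Option (Fin (ρ + 1)) → ℝ
  | none => y
  | some j => if j = 0 then s else t j

theorem ee_sv (s y : ℝ) (q : MvPolynomial (Option (Fin (ρ + 1))) ℤ) :
    (aeval (sv t) q).evalEval s y = aeval (pt t s y) q := by
  induction q using MvPolynomial.induction_on with
  | C a => simp
  | add p q hp hq => simp [Polynomial.evalEval_add, hp, hq]
  | mul_X p o hp =>
    rw [map_mul, map_mul, Polynomial.evalEval_mul, hp, aeval_X, aeval_X]
    congr 1
    rcases o with _ | j
    · simp [sv, pt]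
    · by_cases h : j = 0 <;> simp [sv, pt, h, Polynomial.evalEval_C]

theorem der_sv (q : MvPolynomial (Option (Fin (ρ + 1))) ℤ) :
    Polynomial.derivative (aeval (sv t) q) = aeval (sv t) (pderiv none q) := by
  induction q using MvPolynomial.induction_on with
  | C a => simp
  | add p q hp hq => simp [hp, hq]
  | mul_X p o hp =>
    rw [map_mul, Polynomial.derivative_mul, hp, aeval_X, Derivation.leibniz]
    rcases o with _ | j
    · simp [sv, mul_comm, add_comm]
    · simp [sv, mul_comm]

/-- bounds for both degrees -/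
def Bi (p : Polynomial (Polynomial ℝ)) (a b : ℕ) : Prop :=
  p.natDegree ≤ a ∧ ∀ i, (p.coeff i).natDegree ≤ b

theorem Bi.mul {p q : Polynomial (Polynomial ℝ)} {a b a' b' : ℕ} (h : Bi p a b) (h' : Bi q a' b') :
    Bi (p * q) (a + a') (b + b') :=
  ⟨Polynomial.natDegree_mul_le.trans (add_le_add h.1 h'.1), fun i => by
    rw [Polynomial.coeff_mul]
    exact Polynomial.natDegree_sum_le_of_forall_le _ _ fun c _ =>
      Polynomial.natDegree_mul_le.trans (add_le_add (h.2 _) (h'.2 _))⟩

theorem bi_C (q : Polynomial ℝ) : Bi (Polynomial.C q) 0 q.natDegree :=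
  ⟨by simp, fun i => by rw [Polynomial.coeff_C]; split_ifs <;> simp⟩

theorem bi_one : Bi 1 0 0 := by simpa using bi_C 1

theorem Bi.pow {p : Polynomial (Polynomial ℝ)} {a b : ℕ} (h : Bi p a b) (n : ℕ) :
    Bi (p ^ n) (n * a) (n * b) := by
  induction n with
  | zero => simpa using bi_one
  | succ n ih => simpa [pow_succ, add_mul] using ih.mul h

theorem bi_prod {ι : Type} (s : Finset ι) {p : ι → Polynomial (Polynomial ℝ)} {a b : ι → ℕ}
    (h : ∀ i, Bi (p i) (a i) (b i)) : Bi (∏ i ∈ s, p i) (∑ i ∈ s, a i) (∑ i ∈ s, b i) := by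
  classical
  induction s using Finset.induction_on with
  | empty => simpa using bi_one
  | insert i s hi ih => simpa [hi] using (h i).mul ih

theorem bi_sv (o : Option (Fin (ρ + 1))) :
    Bi (sv t o) (if o = none then 1 else 0) (if o = some 0 then 1 else 0) := by
  rcases o with _ | j
  · exact ⟨by simp [sv], fun i => by rw [sv, Polynomial.coeff_X]; split_ifs <;> simp⟩
  · by_cases h : j = 0
    · simpa [sv, h] using bi_C Polynomial.X
    · simpa [sv, h] using bi_C (Polynomial.C (t j))

theorem bi_aeval (q : MvPolynomial (Option (Fin (ρ + 1))) ℤ) :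
    Bi (aeval (sv t) q) (degreeOf none q) (degreeOf (some 0) q) := by
  have key : ∀ α ∈ q.support, Bi (aeval (sv t) (monomial α (coeff α q)))
      (degreeOf none q) (degreeOf (some 0) q) := fun α hα => by
    have h0 : Bi (algebraMap ℤ (Polynomial (Polynomial ℝ)) (coeff α q)) 0 0 := by
      simpa using bi_C (Polynomial.C ((coeff α q : ℤ) : ℝ))
    have h1 := h0.mul (bi_prod univ fun o => (bi_sv t o).pow (α o))
    rw [aeval_monomial, Finsupp.prod_fintype _ _ (by simp)]
    simp only [mul_ite, mul_one, mul_zero, sum_ite_eq', mem_univ, if_true, zero_add] at h1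
    exact ⟨h1.1.trans (monomial_le_degreeOf _ hα), fun i =>
      (h1.2 i).trans (monomial_le_degreeOf _ hα)⟩
  rw [q.as_sum, map_sum, ← q.as_sum]
  exact ⟨Polynomial.natDegree_sum_le_of_forall_le _ _ fun α hα => (key α hα).1, fun i => by
    rw [Polynomial.finsetSum_coeff]
    exact Polynomial.natDegree_sum_le_of_forall_le _ _ fun α hα => (key α hα).2 i⟩

end spec

/-- the data of a hypersurface model at one level -/
structure Lev {u m ρ : ℕ} (D : ℕ) (b : Fin (ρ + 1) → Pt u m × Pt u m) (n : Pt u m × Pt u m → ℤ)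
    (G g : MvPolynomial (Option (Fin (ρ + 1))) ℤ)
    (R : Pt u m × Pt u m → MvPolynomial (Option (Fin (ρ + 1))) ℤ) : Prop where
  hb : ∀ j, (b j).1 ≠ (b j).2
  d1 : degreeOf none G ≤ D
  d2 : degreeOf (some 0) G ≤ D
  e3 : ∀ r, ∀ ζ : Option (Fin (ρ + 1)) → ℝ, aeval ζ G = 0 → rel (fun i => aeval ζ (R i)) r = 0
  e4 : ∀ j, ∀ ζ : Option (Fin (ρ + 1)) → ℝ, aeval ζ G = 0 →
    aeval ζ (R (b j)) = ζ (some j) * aeval ζ g
  e5 : ∀ ζ : Option (Fin (ρ + 1)) → ℝ, aeval ζ G = 0 →
    ∑ i, (n i : ℝ) * aeval ζ (R i) = ζ none * aeval ζ g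

/-- the image of a point in the model -/
def zp {σ : Type} [Fintype σ] {ρ : ℕ} (b : Fin ρ → σ) (n P : σ → ℤ) : Option (Fin ρ) → ℝ :=
  fun o => o.elim (∑ i, (n i : ℝ) * P i) fun j => P (b j)

/-- a smooth point of the model -/
structure Sm {u m ρ : ℕ} (b : Fin (ρ + 1) → Pt u m × Pt u m) (n : Pt u m × Pt u m → ℤ)
    (G g : MvPolynomial (Option (Fin (ρ + 1))) ℤ)
    (R : Pt u m × Pt u m → MvPolynomial (Option (Fin (ρ + 1))) ℤ) (P : Pt u m × Pt u m → ℤ) :
    Prop where
  good : Good P
  e1 : aeval (zp b n P) G = 0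
  e2 : ∀ i, aeval (zp b n P) (R i) = P i * aeval (zp b n P) g
  g0 : aeval (zp b n P) g ≠ 0
  dG : aeval (zp b n P) (pderiv none G) ≠ 0

theorem line_zero {κ : Type} (ζ : κ → ℝ) (q : MvPolynomial κ ℤ) (q' : MvPolynomial κ ℤ) (a : ℝ)
    {Λ : Set ℝ} (hΛ : Λ.Infinite)
    (h : ∀ l ∈ Λ, aeval (fun o => l * ζ o) q = l * a * aeval (fun o => l * ζ o) q') (l : ℝ) :
    aeval (fun o => l * ζ o) q = l * a * aeval (fun o => l * ζ o) q' := by
  have ev : ∀ (l : ℝ) (q : MvPolynomial κ ℤ), Polynomial.eval l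
      (aeval (fun o => Polynomial.X * Polynomial.C (ζ o)) q) = aeval (fun o => l * ζ o) q := by
    intro l q
    induction q using MvPolynomial.induction_on with
    | C a => simp
    | add p q hp hq => rw [map_add, map_add, Polynomial.eval_add, hp, hq]
    | mul_X p o hp =>
      rw [map_mul, map_mul, Polynomial.eval_mul, hp, aeval_X, aeval_X, Polynomial.eval_mul,
        Polynomial.eval_X, Polynomial.eval_C]
  have h0 : aeval (fun o => Polynomial.X * Polynomial.C (ζ o)) q - Polynomial.X * Polynomial.C a *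
      aeval (fun o => Polynomial.X * Polynomial.C (ζ o)) q' = 0 :=
    Polynomial.eq_zero_of_infinite_isRoot _ (hΛ.mono fun l hl => by
      simp only [Set.mem_ofPred_eq, Polynomial.IsRoot, Polynomial.eval_sub, Polynomial.eval_mul,
        Polynomial.eval_X, Polynomial.eval_C, ev, h l hl, sub_self])
  have := congrArg (Polynomial.eval l) h0
  simpa only [Polynomial.eval_sub, Polynomial.eval_mul, Polynomial.eval_X, Polynomial.eval_C, ev,
    Polynomial.eval_zero, sub_eq_zero] using this

theorem level (D : ℕ) : ∃ m₀ : ℕ, ∀ u m, m₀ ≤ m → ∀ (ρ : ℕ) (b : Fin (ρ + 1) → Pt u m × Pt u m)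
    (n : Pt u m × Pt u m → ℤ) (G g : MvPolynomial (Option (Fin (ρ + 1))) ℤ)
    (R : Pt u m × Pt u m → MvPolynomial (Option (Fin (ρ + 1))) ℤ), Lev D b n G g R →
    ∀ S : Finset (Pt u m × Pt u m → ℤ), (∀ P ∈ S, Sm b n G g R P) → #S ≤ D := by
  obtain ⟨m₀, hm₀⟩ := curve D
  refine ⟨m₀, fun u m hm ρ b n G g R hL S hS => ?_⟩
  have pos : ∀ P ∈ S, ∀ j, (0 : ℝ) < P (b j) := fun P hP j => (hS P hP).good.2.pos (hL.hb j)
  have rad : ∀ P ∈ S, (∀ j : Fin (ρ + 1), j = 0) ∧ ∀ l : ℝ, aeval (fun o => l * zp b n P o) G = 0 ∧ ∀ i,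
      aeval (fun o => l * zp b n P o) (R i) = l * P i * aeval (fun o => l * zp b n P o) g := by
    intro P hP
    have h := hS P hP
    let t : Fin (ρ + 1) → ℝ := fun j => P (b j)
    have e0 : pt t (P (b 0)) (zp b n P none) = zp b n P := by
      funext o
      rcases o with _ | j
      · rfl
      · by_cases e : j = 0 <;> simp [pt, zp, e, t]
    have e1 : ∀ i, aeval (zp b n P) (R i) / aeval (zp b n P) g = P i := fun i => by
      rw [h.e2, mul_div_cancel_right₀ _ h.g0]
    obtain ⟨I, hI, hz⟩ := hm₀ u m hm (aeval (sv t) G) ((bi_aeval t G).1.trans hL.d1)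
      (fun i => ((bi_aeval t G).2 i).trans hL.d2) (P (b 0)) (zp b n P none)
      (by rw [ee_sv, e0, h.e1]) (by rw [der_sv, ee_sv, e0]; exact h.dG) (aeval (sv t) g)
      (fun i => aeval (sv t) (R i)) (by rw [ee_sv, e0]; exact h.g0)
      (by simpa only [ee_sv, e0, e1] using h.good.2)
      (fun s y hp r => by simpa only [ee_sv] using hL.e3 r _ (by rwa [ee_sv] at hp))
    simp only [ee_sv, e0, e1] at hz
    have key : ∀ l ∈ (fun s : ℝ => s / (P (b 0) : ℝ)) '' (Prod.fst '' I),
        aeval (fun o => l * zp b n P o) G = 0 ∧ ∀ i,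
        aeval (fun o => l * zp b n P o) (R i) = l * P i * aeval (fun o => l * zp b n P o) g := by
      rintro _ ⟨_, ⟨z, hzI, rfl⟩, rfl⟩
      obtain ⟨z1, z2, l, z3⟩ := hz z hzI
      have z4 : ∀ i, aeval (pt t z.1 z.2) (R i) = l * P i * aeval (pt t z.1 z.2) g := fun i =>
        (div_eq_iff z2).1 (z3 i)
      have z5 : pt t z.1 z.2 = fun o => l * zp b n P o := by
        funext o
        refine mul_right_cancel₀ z2 ?_
        rcases o with _ | j
        · rw [← hL.e5 _ z1]
          simp only [z4, zp, Option.elim, mul_sum, sum_mul]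
          exact sum_congr rfl fun i _ => by ring
        · rw [← hL.e4 j _ z1, z4]
          rfl
      have z6 : z.1 / P (b 0) = l := by
        have := congrFun z5 (some 0)
        simp only [pt, if_true, zp, Option.elim] at this
        rw [this, mul_div_cancel_right₀ _ (pos P hP 0).ne']
      simp only [z6, ← z5]
      exact ⟨z1, z4⟩
    have hΛ := hI.image (f := fun s => s / (P (b 0) : ℝ))
      fun _ _ _ _ e => (div_left_inj' (pos P hP 0).ne').1 e
    have z7 : ∀ j : Fin (ρ + 1), j = 0 := fun j => by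
      by_contra hj
      refine hI (Set.Subsingleton.finite ?_)
      have : ∀ z ∈ I, z.1 = P (b 0) := fun z hzI => by
        obtain ⟨z1, z2, l, z3⟩ := hz z hzI
        have a0 := z3 (b 0)
        have a1 := z3 (b j)
        rw [hL.e4 _ _ z1, mul_div_cancel_right₀ _ z2] at a0 a1
        simp only [pt, if_true, hj, if_false, t] at a0 a1
        have : l = 1 := mul_right_cancel₀ (pos P hP j).ne' (by rw [← a1, one_mul])
        rw [a0, this, one_mul]
      rintro _ ⟨z, h1, rfl⟩ _ ⟨z', h2, rfl⟩
      rw [this z h1, this z' h2]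
    exact ⟨z7, fun l => ⟨by
      simpa using line_zero (zp b n P) G 0 0 hΛ (fun l hl => by simpa using (key l hl).1) l,
      fun i => line_zero _ _ _ _ hΛ (fun l hl => (key l hl).2 i) l⟩⟩
  rcases S.eq_empty_or_nonempty with rfl | ⟨Q, hQ⟩
  · simp
  have hj := (rad Q hQ).1
  let t : Fin (ρ + 1) → ℝ := fun j => Q (b j)
  let h : Polynomial ℝ := (aeval (sv t) G).map (Polynomial.evalRingHom (t 0))
  have sc : ∀ P ∈ S, ∀ s : ℝ, (fun o => s / P (b 0) * zp b n P o) =
      pt t s (s / P (b 0) * zp b n P none) := fun P hP s => by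
    funext o
    rcases o with _ | j
    · rfl
    · rw [hj j]
      simp only [pt, if_true, zp, Option.elim]
      exact div_mul_cancel₀ _ (pos P hP 0).ne'
  have sc1 : ∀ P ∈ S, zp b n P = pt t (P (b 0)) (zp b n P none) := fun P hP => by
    simpa only [div_self (pos P hP 0).ne', one_mul] using sc P hP (P (b 0))
  have h0 : h ≠ 0 := fun e => (hS Q hQ).dG (by
    have := congrArg (fun p => Polynomial.eval (zp b n Q none) (Polynomial.derivative p)) e
    simp only [h, Polynomial.derivative_map, Polynomial.map_evalRingHom_eval, der_sv, ee_sv,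
      Polynomial.derivative_zero, Polynomial.eval_zero] at this
    rw [sc1 Q hQ]
    exact this)
  refine (card_le_card_of_injOn (t := h.roots.toFinset)
    (fun P => t 0 / P (b 0) * zp b n P none) (fun P hP => ?_) fun P hP P' hP' e => ?_).trans
    ((Multiset.toFinset_card_le _).trans ((Polynomial.card_roots' h).trans
      (Polynomial.natDegree_map_le.trans ((bi_aeval t G).1.trans hL.d1))))
  · simp only [mem_coe, Multiset.mem_toFinset, Polynomial.mem_roots h0, Polynomial.IsRoot]
    simp only [h, Polynomial.map_evalRingHom_eval, ee_sv]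
    rw [← sc P hP]
    exact ((rad P hP).2 _).1
  · have e1 : (P' (b 0) : ℝ) / P (b 0) * zp b n P none = zp b n P' none := by
      have p1 := (pos P hP 0).ne'
      have p2 := (pos P' hP' 0).ne'
      have p3 : t 0 ≠ 0 := (pos Q hQ 0).ne'
      simp only at e
      field_simp at e ⊢
      linear_combination e
    refine (Good.eq (hS P hP).good (hS P' hP').good (l := (P' (b 0) : ℝ) / P (b 0))
      fun i => ?_).symm
    have e2 := ((rad P hP).2 ((P' (b 0) : ℝ) / P (b 0))).2 i
    rw [sc P hP, e1, ← sc1 P' hP', (hS P' hP').e2] at e2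
    exact mul_right_cancel₀ (hS P' hP').g0 e2

end Pool.Agent.Lib.MP_e5111b_co.Pc
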