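import Pool.Agent.Lib.MP_e5111b_co.Pc.Det
import Pool.Agent.Lib.MP_e5111b_co.Pc.Prim
import Pool.Agent.Lib.MP_e5111b_co.Pc.SmallA

set_option autoImplicit false

namespace Pool.Agent.Lib.MP_e5111b_co.Pc

open Filter MvPolynomial Finset

section
variable (c : Ctx) {σ : Type} {T : ℕ → Finset (σ → ℤ)} {Ω : Type} [Field Ω] [Algebra c.F Ω]
  {x : σ → Ω} {κ : Type}

theorem hyp_step (hT : c.Box T) (hx : c.Gen T x) [Fintype κ] (w : Option κ → MvPolynomial σ ℤ)
    (hw : ∀ o, (w o).totalDegree ≤ 1) {G : MvPolynomial (Option κ) c.F}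
    (hG : ∀ H, aeval (fun o => aeval x (w o)) H = 0 ↔ G ∣ H) {D γ : ℕ} (hγ : 1 ≤ γ)
    (h1 : 2 * γ ^ Fintype.card κ ≤ D) (h2 : D ≤ degreeOf none G) :
    c.Out T x (4 * ((Fintype.card κ : ℝ) + 1) ^ 2 / γ) := by
  have e : (fun o : Option κ => o.elim (aeval x (w none)) fun i => aeval x (w (some i))) =
      fun o => aeval x (w o) := funext fun o => by cases o <;> rfl
  have h3 : 1 ≤ degreeOf none G := by
    have := Nat.one_le_pow (Fintype.card κ) γ hγ
    omega
  refine det_step c hT hx (ω := Unit) (L := Fin D) (fun i => w (some i)) (fun i => hw _)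
    (fun _ => w none) (fun _ => ⟨G, ?_, ?_⟩) (fun l _ => l) hγ (by simpa using h1) ?_
  · rw [e]; exact (hG G).2 dvd_rfl
  · rw [e]; exact pderiv_ne hG h3
  · simpa using indep_of_degree (fun H h => (hG H).1 h) h2

/-- substitution of integer polynomials -/
noncomputable def sub (w : κ → MvPolynomial σ ℤ) (q : MvPolynomial κ c.Bd) : MvPolynomial σ c.Bd :=
  aeval (fun o => map (Int.castRingHom c.Bd) (w o)) q

theorem aeval_cast (g : MvPolynomial σ ℤ) :
    aeval x (map c.pi (map (Int.castRingHom c.Bd) g)) = aeval x g := by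
  induction g using MvPolynomial.induction_on with
  | C a => simp
  | add p q hp hq => simp only [map_add, hp, hq]
  | mul_X p o hp => simp only [map_mul, hp, map_X, aeval_X]

theorem aeval_sub (w : κ → MvPolynomial σ ℤ) (q : MvPolynomial κ c.Bd) :
    aeval x (map c.pi (sub c w q)) = aeval (fun o => aeval x (w o)) (map c.pi q) := by
  unfold sub
  induction q using MvPolynomial.induction_on with
  | C a => simp
  | add p q hp hq => simp only [map_add, hp, hq]
  | mul_X p o hp => simp only [map_mul, hp, map_X, aeval_X, aeval_cast]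

theorem eval_cast (P : σ → ℤ) (g : MvPolynomial σ ℤ) :
    ((eval P g : ℤ) : ℝ) = aeval (fun i => (P i : ℝ)) g := by
  induction g using MvPolynomial.induction_on with
  | C a => simp
  | add p q hp hq => simp only [map_add, Int.cast_add, hp, hq]
  | mul_X p o hp => simp only [map_mul, Int.cast_mul, hp, eval_X, aeval_X]

theorem eval_sub (k : ℕ) (P : σ → ℤ) (w : κ → MvPolynomial σ ℤ) (q : MvPolynomial κ c.Bd) :
    ((eval P (map (c.ev k) (sub c w q)) : ℤ) : ℝ) =
      aeval (fun o => aeval (fun i => (P i : ℝ)) (w o)) (map (c.ev k) q) := by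
  unfold sub
  induction q using MvPolynomial.induction_on with
  | C a => simp
  | add p q hp hq => simp only [map_add, Int.cast_add, hp, hq]
  | mul_X p o hp =>
    simp only [map_mul, Int.cast_mul, hp, map_X, aeval_X, MvPolynomial.map_map]
    rw [RingHom.ext_int ((c.ev k).comp (Int.castRingHom c.Bd)) (RingHom.id ℤ), MvPolynomial.map_id,
      eval_cast]

end

theorem degreeOf_map_le {R S κ : Type} [CommRing R] [CommRing S] (f : R →+* S) (v : κ)
    {q : MvPolynomial κ R} {K : Type} [CommRing K] {G : MvPolynomial κ K}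
    (h : q.support = G.support) : degreeOf v (map f q) ≤ degreeOf v G :=
  degreeOf_le_iff.2 fun _ hα => monomial_le_degreeOf _ (h ▸ support_map_subset f q hα)

/-- small dimension -/
theorem small_step (D : ℕ) : ∃ m₀ : ℕ, ∀ u m, m₀ ≤ m → ∀ (c : Ctx)
    (T : ℕ → Finset (Pt u m × Pt u m → ℤ)), c.Box T → (∀ k, ∀ P ∈ T k, Good P) →
    ∀ (Ω : Type) [Field Ω] [Algebra c.F Ω] (x : Pt u m × Pt u m → Ω), c.Gen T x →
    ∀ (ρ : ℕ) (b : Fin (ρ + 1) → Pt u m × Pt u m), IsBas c.F x b → ∀ γ : ℕ, 1 ≤ γ →
    2 * γ ^ (ρ + 1) ≤ D → c.Out T x (4 * ((ρ : ℝ) + 2) ^ 2 / γ) := by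
  obtain ⟨m₀, hm₀⟩ := level D
  refine ⟨m₀, fun u m hm c T hT hG Ω _ _ x hx ρ b hb γ hγ hD => ?_⟩
  obtain ⟨n, G, g, R, hker, hdeg, hg, hR⟩ := prim x hb
  let w : Option (Fin (ρ + 1)) → MvPolynomial (Pt u m × Pt u m) ℤ :=
    fun o => o.elim (∑ i, C (n i) * X i) fun j => X (b j)
  have hw : ∀ o, (w o).totalDegree ≤ 1 := by
    rintro (_ | j)
    · exact totalDegree_finsetSum_le fun i _ => (totalDegree_mul _ _).trans
        (by rw [totalDegree_C, totalDegree_X])
    · simp [w]
  have ew : (fun o : Option (Fin (ρ + 1)) => o.elim (∑ i, (n i : Ω) * x i) fun j => x (b j)) =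
      fun o => aeval x (w o) := funext fun o => by cases o <;> simp [w]
  have ez : ∀ P : Pt u m × Pt u m → ℤ, (fun o => aeval (fun i => (P i : ℝ)) (w o)) = zp b n P :=
    fun P => funext fun o => by cases o <;> simp [w, zp]
  rw [ew] at hker hg hR
  have ec : ((Fintype.card (Fin (ρ + 1)) : ℝ) + 1) = ρ + 2 := by simp; ring
  have he : 0 < 4 * ((ρ : ℝ) + 2) ^ 2 / γ := by positivity
  by_cases d1 : D ≤ degreeOf none G
  · exact ec ▸ hyp_step c hT hx w hw hker hγ (by simpa using hD) d1
  by_cases d2 : D ≤ degreeOf (some 0) G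
  · let e := Equiv.swap (none : Option (Fin (ρ + 1))) (some 0)
    refine ec ▸ hyp_step c hT hx (fun o => w (e o)) (fun o => hw _) (G := rename e.symm G)
      (fun H => ?_) hγ (by simpa using hD) ?_
    · have : aeval (fun o => aeval x (w (e o))) H = aeval (fun o => aeval x (w o)) (rename e H) := by
        rw [aeval_rename]; rfl
      rw [this, hker]
      refine ⟨fun h => ?_, fun h => ?_⟩
      · simpa [rename_rename] using _root_.map_dvd (rename e.symm) h
      · simpa [rename_rename] using _root_.map_dvd (rename e) h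
    · have := degreeOf_rename_of_injective (p := G) e.symm.injective (some 0)
      rwa [← this, show e.symm (some 0) = none by simp [e]] at d2
  obtain ⟨β, q, hβ, hq⟩ := c.clear fun o : Option (Option (Pt u m × Pt u m)) =>
    o.elim G fun o => o.elim g R
  have qG : map c.pi (q none) = C (c.pi β) * G := (hq none).1
  have qg : map c.pi (q (some none)) = C (c.pi β) * g := (hq (some none)).1
  have qR : ∀ i, map c.pi (q (some (some i))) = C (c.pi β) * R i := fun i =>
    (hq (some (some i))).1
  set z : Option (Fin (ρ + 1)) → Ω := fun o => aeval x (w o) with hz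
  have hβ' : algebraMap c.F Ω (c.pi β) ≠ 0 := (map_ne_zero _).2 hβ
  have dv : ∀ h : MvPolynomial (Option (Fin (ρ + 1))) c.Bd, aeval z (map c.pi h) = 0 →
      ∀ᶠ k in (c.U : Filter ℕ), ∀ ζ : Option (Fin (ρ + 1)) → ℝ,
        aeval ζ (map (c.ev k) (q none)) = 0 → aeval ζ (map (c.ev k) h) = 0 := fun h h0 =>
    c.zero_sub (qG ▸ ((IsUnit.map C hβ.isUnit).mul_left_dvd).2 ((hker _).1 h0))
  have vn : ∀ h : MvPolynomial (Pt u m × Pt u m) c.Bd, aeval x (map c.pi h) = 0 →
      ∀ᶠ k in (c.U : Filter ℕ), ∀ P ∈ T k, ((eval P (map (c.ev k) h) : ℤ) : ℝ) = 0 := fun h h0 =>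
    ((c.van_iff hT h).1 ((hx _).1 h0)).mono fun k hk P hP => by rw [hk P hP, Int.cast_zero]
  have zR : ∀ i, aeval z (map c.pi (q (some (some i)))) =
      algebraMap c.F Ω (c.pi β) * aeval z g * x i := fun i => by
    rw [qR, map_mul, aeval_C, ← hR, mul_assoc]
  have zg : aeval z (map c.pi (q (some none))) = algebraMap c.F Ω (c.pi β) * aeval z g := by
    rw [qg, map_mul, aeval_C]
  have hH : aeval x (map c.pi (sub c w (q (some none) * pderiv none (q none)))) ≠ 0 := by
    rw [aeval_sub, map_mul, map_mul, zg, ← pderiv_map, qG, pderiv_C_mul, map_mul, aeval_C]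
    exact mul_ne_zero (mul_ne_zero hβ' hg) (mul_ne_zero hβ' (pderiv_ne hker hdeg))
  refine (c.half hT _ hH he).elim id fun hh => ?_
  have hbj : ∀ j, (b j).1 ≠ (b j).2 := fun j e => (hb.1.transcendental j) (by
    have := hx.zero c (X (b j)) fun k P hP => by
      have h1 := (hG k P hP).2.diag (b j).1
      rw [show ((b j).1, (b j).1) = b j from Prod.ext rfl e] at h1
      simpa using h1
    rw [aeval_X] at this
    rw [this]
    exact isAlgebraic_zero)
  have hrel : ∀ r, rel x r = 0 := fun r => by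
    have := hx.zero c (rel X r) fun k P hP => by
      have h1 := (hG k P hP).2.rel r
      rw [map_rel]
      have h2 := map_rel (Int.castRingHom ℝ) P r
      simp only [eq_intCast] at h2
      simpa only [eval_X, ← h2, Int.cast_eq_zero] using h1
    simpa only [map_rel, aeval_X] using this
  have E1 := vn (sub c w (q none)) (by
    rw [aeval_sub, qG, map_mul, (hker G).2 dvd_rfl, mul_zero])
  have E2 := eventually_all.2 fun i => vn (sub c w (q (some (some i))) -
      X i * sub c w (q (some none))) (by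
    rw [map_sub, map_sub, map_mul, map_mul, aeval_sub, aeval_sub, zR, zg, map_X, aeval_X]
    ring)
  have E3 := eventually_all.2 fun r => dv (rel (fun i => q (some (some i))) r) (by
    rw [map_rel, map_rel]
    simp only [zR]
    obtain ⟨l, hl⟩ := rel_smul x (algebraMap c.F Ω (c.pi β) * aeval z g) r
    rw [hl, hrel, mul_zero])
  have E4 := eventually_all.2 fun j => dv (q (some (some (b j))) - X (some j) * q (some none)) (by
    rw [map_sub, map_sub, map_mul, map_mul, zR, zg, map_X, aeval_X]
    simp only [hz, w, Option.elim, aeval_X]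
    ring)
  have E5 := dv (∑ i, (n i : MvPolynomial _ c.Bd) * q (some (some i)) - X none * q (some none)) (by
    rw [map_sub, map_sub, map_mul, map_mul, zg, map_X, aeval_X]
    simp only [map_sum, map_mul, map_intCast, zR]
    simp only [hz, w, Option.elim, map_sum, map_mul, aeval_X, sum_mul, eq_intCast,
      map_intCast, ← sum_sub_distrib]
    exact sum_eq_zero fun i _ => by ring)
  refine c.out_of_card hT hx (hb.1.transcendental 0) (K := 2 * D) ?_ he
  filter_upwards [hh, E1, E2, E3, E4, E5] with k k0 k1 k2 k3 k4 k5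
  refine k0.trans (Nat.mul_le_mul_left 2 (hm₀ u m hm ρ b n (map (c.ev k) (q none))
    (map (c.ev k) (q (some none))) (fun i => map (c.ev k) (q (some (some i))))
    ⟨hbj, (degreeOf_map_le _ _ (hq none).2).trans (not_le.1 d1).le,
      (degreeOf_map_le _ _ (hq none).2).trans (not_le.1 d2).le, fun r ζ h => ?_, fun j ζ h => ?_,
      fun ζ h => ?_⟩ _ fun P hP => ?_))
  · simpa only [map_rel] using k3 r ζ h
  · simpa only [map_sub, map_mul, map_X, aeval_X, sub_eq_zero] using k4 j ζ h
  · simpa only [map_sub, map_sum, map_mul, map_intCast, map_X, aeval_X, sub_eq_zero] using k5 ζ h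
  · obtain ⟨p1, p2⟩ := mem_filter.1 hP
    have p3 : ((eval P (map (c.ev k) (sub c w (q (some none) * pderiv none (q none)))) : ℤ) : ℝ)
        ≠ 0 := Int.cast_ne_zero.2 p2
    rw [eval_sub, ez, map_mul, map_mul, ← pderiv_map] at p3
    refine ⟨hG k P p1, by rw [← ez, ← eval_sub]; exact k1 P p1, fun i => ?_,
      left_ne_zero_of_mul p3, right_ne_zero_of_mul p3⟩
    have := k2 i P p1
    simpa only [map_sub, map_mul, map_X, eval_X, Int.cast_sub, Int.cast_mul, eval_sub, ez,
      sub_eq_zero] using this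

end Pool.Agent.Lib.MP_e5111b_co.Pc
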