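import Pool.Agent.Lib.MP_e5111b_co.Pc.Geo

set_option autoImplicit false

namespace Pool.Agent.Lib.MP_e5111b_co.Pc

open Filter MvPolynomial Finset

variable {u m : ℕ}

lemma nr_aff (f : ℂ →ᵃ[ℝ] ℝ) : ∃ α β γ : ℝ, ∀ z, f z = α * z.re + β * z.im + γ := by
  refine ⟨f.linear 1, f.linear Complex.I, f 0, fun z => ?_⟩
  have h1 : z = (z.re • (1 : ℂ) + z.im • Complex.I) +ᵥ (0 : ℂ) := by
    apply Complex.ext <;> simp
  conv_lhs => rw [h1, f.map_vadd, map_add, map_smul, map_smul]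
  simp only [smul_eq_mul, vadd_eq_add]
  ring

lemma nr_mk (α β γ : ℝ) : ∃ f : ℂ →ᵃ[ℝ] ℝ, ∀ z, f z = α * z.re + β * z.im + γ :=
  ⟨(α • Complex.reLm + β • Complex.imLm).toAffineMap + AffineMap.const ℝ ℂ γ, fun z => by simp⟩

/-- the cross product -/
def nrD (a b d : ℂ) : ℝ := (b.re - a.re) * (d.im - a.im) - (d.re - a.re) * (b.im - a.im)

lemma nr_sq (a b : ℂ) : dist a b ^ 2 = (a.re - b.re) ^ 2 + (a.im - b.im) ^ 2 := by
  rw [Complex.dist_eq_re_im, Real.sq_sqrt (by positivity)]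

lemma nr_tau (f : ℂ →ᵃ[ℝ] ℝ) {a b : ℂ} (ha : f a = 0) (hb : f b = 0) :
    ∃ τ : ℝ, ∀ d, τ * nrD a b d = dist a b ^ 2 * f d := by
  obtain ⟨α, β, γ, h⟩ := nr_aff f
  refine ⟨β * (b.re - a.re) - α * (b.im - a.im), fun d => ?_⟩
  rw [h] at ha hb
  rw [h, nr_sq, nrD]
  linear_combination
    (-((a.re - b.re) ^ 2 + (a.im - b.im) ^ 2) +
      ((b.re - a.re) * (d.re - a.re) + (b.im - a.im) * (d.im - a.im))) * ha -
      ((b.re - a.re) * (d.re - a.re) + (b.im - a.im) * (d.im - a.im)) * hb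

lemma nr_chi (X : Pt u m → ℂ) (a b d : Pt u m) :
    chi (fun i => dist (X i.1) (X i.2)) a b d =
      8 * nrD (X (.inr (0, 0))) (X (.inr (0, 1))) (X (.inr (1, 0))) *
        dist (X (.inr (0, 0))) (X (.inr (0, 1))) ^ 2 * nrD (X a) (X b) (X d) := by
  simp only [chi, hh, fe, ft, ell, nr_sq, nrD]
  ring

lemma nr_ne (e : Fin 3) : (Sum.inr (e, 0) : Pt u m) ≠ .inr (e, 1) := by simp

lemma nr_sign {x : Pt u m × Pt u m → ℝ} (h : IsReal x) : ∃ σ : Fin 3 → ℝ, ∀ e e' j, e' ≠ e →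
    0 < σ e * chi x (.inr (e, 0)) (.inr (e, 1)) (.inr (e', j)) := by
  obtain ⟨X, hX, ⟨f, hf⟩, hd⟩ := h
  obtain rfl : x = fun i => dist (X i.1) (X i.2) := funext fun i => (hd i.1 i.2).symm
  choose τ hτ using fun e => nr_tau (f e) ((hf e e 0).1 rfl) ((hf e e 1).1 rfl)
  have h0 : ∀ e, 0 < dist (X (.inr (e, 0))) (X (.inr (e, 1))) ^ 2 := fun e =>
    pow_pos (dist_pos.2 (hX.ne (nr_ne e))) 2
  have h1 : ∀ e e' j, e' ≠ e →
      0 < τ e * nrD (X (.inr (e, 0))) (X (.inr (e, 1))) (X (.inr (e', j))) := fun e e' j he => by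
    rw [hτ]
    exact mul_pos (h0 e) ((hf e e' j).2 he)
  have h2 : nrD (X (.inr (0, 0))) (X (.inr (0, 1))) (X (.inr (1, 0))) ≠ 0 := fun e => by
    simpa [e] using h1 0 1 0 (by decide)
  refine ⟨fun e => τ e * nrD (X (.inr (0, 0))) (X (.inr (0, 1))) (X (.inr (1, 0))),
    fun e e' j he => ?_⟩
  have h3 := mul_pos (mul_pos (h1 e e' j he) (sq_pos_of_ne_zero h2)) (h0 0)
  rw [nr_chi]
  linarith

lemma nr_real {y : Pt u m × Pt u m → ℝ} (h1 : ∀ a b, a ≠ b → 0 < y (a, b))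
    (h2 : 0 < hh y (.inr (1, 0))) {σ : Fin 3 → ℝ} (h3 : ∀ e e' j, e' ≠ e →
      0 < σ e * chi y (.inr (e, 0)) (.inr (e, 1)) (.inr (e', j))) (h : ∀ r, Pc.rel y r = 0) :
    IsReal y := by
  have hl : 0 < ell y 0 := h1 _ _ (nr_ne 0)
  obtain ⟨w, hw, hw2⟩ : ∃ w : ℝ, 0 < w ∧ w ^ 2 = hh y (.inr (1, 0)) :=
    ⟨_, Real.sqrt_pos.2 h2, Real.sq_sqrt h2.le⟩
  set X : Pt u m → ℂ := fun a => ⟨fe y 0 a / (2 * ell y 0), hh y a / (2 * ell y 0 * w)⟩ with hX
  have hs : ∀ a b, dist (X a) (X b) ^ 2 = y (a, b) ^ 2 := fun a b => by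
    have h4 : psi y a b = 0 := h (.inl (a, b))
    rw [psi, ← hw2] at h4
    rw [nr_sq]
    simp only [hX]
    field_simp
    linear_combination -h4
  have hd : ∀ a b, dist (X a) (X b) = y (a, b) := fun a b => by
    by_cases hab : a = b
    · subst hab
      have h4 := hs a a
      rw [dist_self] at h4 ⊢
      exact (pow_eq_zero_iff two_ne_zero).1 (by rw [← h4]; norm_num) |>.symm
    · exact (pow_left_inj₀ dist_nonneg (h1 a b hab).le two_ne_zero).1 (hs a b)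
  have hf : ∀ e, ∃ f : ℂ →ᵃ[ℝ] ℝ, ∀ d,
      f (X d) = σ e * chi y (.inr (e, 0)) (.inr (e, 1)) d := fun e => by
    obtain ⟨f, hf⟩ := nr_mk (-σ e * (hh y (.inr (e, 1)) - hh y (.inr (e, 0))) * (2 * ell y 0))
      (σ e * (fe y 0 (.inr (e, 1)) - fe y 0 (.inr (e, 0))) * (2 * ell y 0 * w))
      (σ e * (fe y 0 (.inr (e, 0)) * hh y (.inr (e, 1)) - fe y 0 (.inr (e, 1)) * hh y (.inr (e, 0))))
    refine ⟨f, fun d => ?_⟩
    rw [hf, chi]
    simp only [hX]
    field_simp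
    ring
  choose f hf using hf
  refine ⟨X, fun a b e => by_contra fun hab => ?_, ⟨f, fun e e' j => ⟨?_, fun he => ?_⟩⟩, hd⟩
  · have h4 := h1 a b hab
    rw [← hd, e, dist_self] at h4
    exact lt_irrefl _ h4
  · rintro rfl
    have h4 : chi y (.inr (e', 0)) (.inr (e', 1)) (.inr (e', j)) = 0 := h (.inr (e', j))
    rw [hf, h4, mul_zero]
  · rw [hf]
    exact h3 e e' j he

lemma nr_det {α β γ p q : Fin 3 → ℝ} (h0 : ∀ e, α e * p e + β e * q e + γ e = 0)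
    (h : ∀ e e', e' ≠ e → 0 < α e * p e' + β e * q e' + γ e) {s t r : ℝ}
    (hz : ∀ e, α e * s + β e * t + γ e * r = 0) : s = 0 ∧ t = 0 ∧ r = 0 := by
  have h1 := add_pos
    (mul_pos (mul_pos (h 0 1 (by decide)) (h 1 2 (by decide))) (h 2 0 (by decide)))
    (mul_pos (mul_pos (h 0 2 (by decide)) (h 1 0 (by decide))) (h 2 1 (by decide)))
  have h2 : α 0 * (β 1 * γ 2 - β 2 * γ 1) - α 1 * (β 0 * γ 2 - β 2 * γ 0) +
      α 2 * (β 0 * γ 1 - β 1 * γ 0) ≠ 0 := fun e => h1.ne' (by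
    linear_combination (p 0 * (q 1 - q 2) - p 1 * (q 0 - q 2) + p 2 * (q 0 - q 1)) * e -
      ((α 1 * p 1 + β 1 * q 1 + γ 1) * (α 2 * p 2 + β 2 * q 2 + γ 2) -
        (α 1 * p 2 + β 1 * q 2 + γ 1) * (α 2 * p 1 + β 2 * q 1 + γ 2)) * h0 0 +
      (α 0 * p 2 + β 0 * q 2 + γ 0) * (α 2 * p 0 + β 2 * q 0 + γ 2) * h0 1 +
      (α 0 * p 1 + β 0 * q 1 + γ 0) * (α 1 * p 0 + β 1 * q 0 + γ 1) * h0 2)
  refine ⟨mul_left_cancel₀ h2 ?_, mul_left_cancel₀ h2 ?_, mul_left_cancel₀ h2 ?_⟩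
  · linear_combination (β 1 * γ 2 - β 2 * γ 1) * hz 0 - (β 0 * γ 2 - β 2 * γ 0) * hz 1 +
      (β 0 * γ 1 - β 1 * γ 0) * hz 2
  · linear_combination -(α 1 * γ 2 - α 2 * γ 1) * hz 0 + (α 0 * γ 2 - α 2 * γ 0) * hz 1 -
      (α 0 * γ 1 - α 1 * γ 0) * hz 2
  · linear_combination (α 1 * β 2 - α 2 * β 1) * hz 0 - (α 0 * β 2 - α 2 * β 0) * hz 1 +
      (α 0 * β 1 - α 1 * β 0) * hz 2

/-- points of the variety near a realization are realizations -/
theorem IsReal.near {x : Pt u m × Pt u m → ℝ} (h : IsReal x) :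
    ∀ᶠ y in nhds x, (∀ r, Pc.rel y r = 0) → IsReal y := by
  obtain ⟨σ, hσ⟩ := nr_sign h
  have h2 : 0 < hh x (.inr (1, 0)) := by
    rw [h.f7]
    exact sub_pos.2 (h.f3 (e := 0) (e' := 1) (by decide) 0)
  have e1 : ∀ᶠ y in nhds x, ∀ a b : Pt u m, a ≠ b → 0 < y (a, b) :=
    eventually_all.2 fun a => eventually_all.2 fun b => eventually_all.2 fun hab =>
      (continuous_apply (a, b)).continuousAt.eventually (lt_mem_nhds (h.pos hab))
  have e2 : ∀ᶠ y in nhds x, 0 < hh y (.inr (1, 0)) :=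
    (show Continuous fun y : Pt u m × Pt u m → ℝ => hh y (.inr (1, 0)) by
      simp only [hh, fe, ft, ell]; fun_prop).continuousAt.eventually (lt_mem_nhds h2)
  have e3 : ∀ᶠ y in nhds x, ∀ e e' j, e' ≠ e →
      0 < σ e * chi y (.inr (e, 0)) (.inr (e, 1)) (.inr (e', j)) :=
    eventually_all.2 fun e => eventually_all.2 fun e' => eventually_all.2 fun j =>
      eventually_all.2 fun he => (show Continuous fun y : Pt u m × Pt u m → ℝ =>
        σ e * chi y (.inr (e, 0)) (.inr (e, 1)) (.inr (e', j)) by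
          simp only [chi, hh, fe, ft, ell]; fun_prop).continuousAt.eventually
            (lt_mem_nhds (hσ e e' j he))
  filter_upwards [e1, e2, e3] with y h1 h2 h3 using nr_real h1 h2 h3

/-- the three lines have no common point and are not all parallel -/
theorem lines {X : Pt u m → ℂ} (hX : Function.Injective X) {f : Fin 3 → ℂ →ᵃ[ℝ] ℝ}
    (hf : ∀ e e' j,
      (e' = e → f e (X (.inr (e', j))) = 0) ∧ (e' ≠ e → 0 < f e (X (.inr (e', j))))) :
    ∃ o v : Fin 3 → ℂ, (∀ i, v i ≠ 0) ∧ (∀ i j, ∃ s : ℝ, X (.inr (i, j)) = o i + s * v i) ∧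
      (¬ ∃ w, ∀ i, ∃ s : ℝ, w = o i + s * v i) ∧ ¬ ∀ i, ∃ s : ℝ, v i = s * v 0 := by
  have hv : ∀ i, X (.inr (i, 1)) - X (.inr (i, 0)) ≠ 0 := fun i =>
    sub_ne_zero.2 (hX.ne (nr_ne i)).symm
  choose α β γ hc using fun e => nr_aff (f e)
  have h0 : ∀ e j, α e * (X (.inr (e, j))).re + β e * (X (.inr (e, j))).im + γ e = 0 :=
    fun e j => by rw [← hc]; exact (hf e e j).1 rfl
  have hd := @nr_det α β γ (fun e => (X (.inr (e, 0))).re) (fun e => (X (.inr (e, 0))).im)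
    (fun e => h0 e 0) (fun e e' he => by rw [← hc]; exact (hf e e' 0).2 he)
  refine ⟨fun i => X (.inr (i, 0)), fun i => X (.inr (i, 1)) - X (.inr (i, 0)), hv,
    fun i j => ?_, fun ⟨w, hw⟩ => ?_, fun hs => ?_⟩
  · obtain ⟨τ, hτ⟩ := nr_tau (f i) ((hf i i 0).1 rfl) ((hf i i 1).1 rfl)
    have h1 : 0 < dist (X (.inr (i, 0))) (X (.inr (i, 1))) ^ 2 :=
      pow_pos (dist_pos.2 (hX.ne (nr_ne i))) 2
    obtain ⟨i', hi'⟩ := exists_ne i
    have h2 : τ ≠ 0 := fun e => by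
      have h3 := mul_pos h1 ((hf i i' 0).2 hi')
      rw [← hτ, e, zero_mul] at h3
      exact lt_irrefl _ h3
    have h3 := hτ (X (.inr (i, j)))
    rw [(hf i i j).1 rfl, mul_zero, mul_eq_zero, or_iff_right h2, nrD] at h3
    rw [nr_sq] at h1
    beta_reduce
    generalize X (.inr (i, 0)) = a at h1 h3 ⊢
    generalize X (.inr (i, 1)) = b at h1 h3 ⊢
    generalize X (.inr (i, j)) = d at h3 ⊢
    refine ⟨((b.re - a.re) * (d.re - a.re) + (b.im - a.im) * (d.im - a.im)) /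
      ((a.re - b.re) ^ 2 + (a.im - b.im) ^ 2), ?_⟩
    apply Complex.ext
    · simp only [Complex.add_re, Complex.re_ofReal_mul, Complex.sub_re]
      field_simp
      linear_combination -(b.im - a.im) * h3
    · simp only [Complex.add_im, Complex.im_ofReal_mul, Complex.sub_im]
      field_simp
      linear_combination (b.re - a.re) * h3
  · refine one_ne_zero (hd (s := w.re) (t := w.im) (r := 1) fun e => ?_).2.2
    obtain ⟨s, rfl⟩ := hw e
    simp only [Complex.add_re, Complex.re_ofReal_mul, Complex.sub_re, Complex.add_im,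
      Complex.im_ofReal_mul, Complex.sub_im]
    linear_combination (1 - s) * h0 e 0 + s * h0 e 1
  · have h1 := hd (s := (X (.inr (0, 1)) - X (.inr (0, 0))).re)
      (t := (X (.inr (0, 1)) - X (.inr (0, 0))).im) (r := 0) fun e => by
      obtain ⟨s, hs⟩ := hs e
      have h2 : s ≠ 0 := fun h => hv e (by simpa [h] using hs)
      have h3 := congrArg Complex.re hs
      have h4 := congrArg Complex.im hs
      simp only [Complex.re_ofReal_mul, Complex.sub_re, Complex.im_ofReal_mul,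
        Complex.sub_im] at h3 h4 ⊢
      refine mul_left_cancel₀ h2 ?_
      linear_combination h0 e 1 - h0 e 0 - α e * h3 - β e * h4
    exact hv 0 (Complex.ext h1.1 h1.2.1)

end Pool.Agent.Lib.MP_e5111b_co.Pc
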